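import Mathlib

/-!
Binomial random subsets of a finite type, as finite weighted sums.
-/

set_option autoImplicit false

open Finset

namespace Pool.Agent.Helper88.TS

section Bin
variable {C : Type*} [Fintype C] [DecidableEq C]

/-- weight of a subset in the binomial model -/
noncomputable def wt (p : ℝ) (S : Finset C) : ℝ := (∏ _i ∈ S, p) * ∏ _i ∈ univ \ S, (1 - p)

/-- expectation in the binomial model -/
noncomputable def Ex (p : ℝ) (f : Finset C → ℝ) : ℝ := ∑ S : Finset C, wt p S * f S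

omit [DecidableEq C] in
lemma sum_powerset_univ (g : Finset C → ℝ) : ∑ S ∈ (univ : Finset C).powerset, g S = ∑ S, g S := by
  rw [Finset.powerset_univ]

lemma prod_formula (a b : C → ℝ) :
    ∏ c, (a c + b c) = ∑ S : Finset C, (∏ i ∈ S, a i) * ∏ i ∈ univ \ S, b i := by
  rw [Finset.prod_add, sum_powerset_univ]

lemma wt_nonneg {p : ℝ} (h0 : 0 ≤ p) (h1 : p ≤ 1) (S : Finset C) : 0 ≤ wt p S := by
  unfold wt
  apply mul_nonneg
  · exact prod_nonneg fun _ _ => h0
  · exact prod_nonneg fun _ _ => by linarith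

lemma sum_wt (p : ℝ) : ∑ S : Finset C, wt p S = 1 := by
  have := prod_formula (C := C) (fun _ => p) (fun _ => 1 - p)
  unfold wt
  rw [← this]
  simp

lemma Ex_const (p c : ℝ) : Ex (C := C) p (fun _ => c) = c := by
  unfold Ex
  rw [← Finset.sum_mul, sum_wt, one_mul]

lemma Ex_add (p : ℝ) (f g : Finset C → ℝ) : Ex p (fun S => f S + g S) = Ex p f + Ex p g := by
  unfold Ex
  rw [← Finset.sum_add_distrib]
  exact Finset.sum_congr rfl fun _ _ => by ring

lemma Ex_sub (p : ℝ) (f g : Finset C → ℝ) : Ex p (fun S => f S - g S) = Ex p f - Ex p g := by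
  unfold Ex
  rw [← Finset.sum_sub_distrib]
  exact Finset.sum_congr rfl fun _ _ => by ring

lemma Ex_mul_left (p c : ℝ) (f : Finset C → ℝ) : Ex p (fun S => c * f S) = c * Ex p f := by
  unfold Ex
  rw [Finset.mul_sum]
  exact Finset.sum_congr rfl fun _ _ => by ring

lemma Ex_sum {ι : Type*} (p : ℝ) (s : Finset ι) (f : ι → Finset C → ℝ) :
    Ex p (fun S => ∑ i ∈ s, f i S) = ∑ i ∈ s, Ex p (f i) := by
  unfold Ex
  rw [Finset.sum_comm]
  exact Finset.sum_congr rfl fun _ _ => by rw [Finset.mul_sum]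

lemma Ex_mono {p : ℝ} (h0 : 0 ≤ p) (h1 : p ≤ 1) {f g : Finset C → ℝ} (h : ∀ S, f S ≤ g S) :
    Ex p f ≤ Ex p g := by
  unfold Ex
  exact Finset.sum_le_sum fun S _ => mul_le_mul_of_nonneg_left (h S) (wt_nonneg h0 h1 S)

lemma Ex_nonneg {p : ℝ} (h0 : 0 ≤ p) (h1 : p ≤ 1) {f : Finset C → ℝ} (h : ∀ S, 0 ≤ f S) :
    0 ≤ Ex p f := by
  unfold Ex
  exact Finset.sum_nonneg fun S _ => mul_nonneg (wt_nonneg h0 h1 S) (h S)

/-- inclusion probability -/
lemma Ex_incl (p : ℝ) (H : Finset C) : Ex p (fun S => if H ⊆ S then (1 : ℝ) else 0) = p ^ H.card := by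
  have h := prod_formula (C := C) (fun _ => p) (fun c => if c ∈ H then 0 else 1 - p)
  have h1 : ∏ c : C, (p + if c ∈ H then 0 else 1 - p) = p ^ H.card := by
    have : ∀ c : C, (p + if c ∈ H then 0 else 1 - p) = if c ∈ H then p else 1 := by
      intro c; split_ifs <;> ring
    simp only [this]
    rw [Finset.prod_ite]
    simp
  rw [h1] at h
  rw [h]
  unfold Ex wt
  refine Finset.sum_congr rfl fun S _ => ?_
  by_cases hS : H ⊆ S
  · beta_reduce
    rw [if_pos hS, mul_one]
    congr 1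
    refine Finset.prod_congr rfl fun c hc => ?_
    have : c ∉ H := fun hH => (Finset.mem_sdiff.1 hc).2 (hS hH)
    rw [if_neg this]
  · beta_reduce
    rw [if_neg hS, mul_zero]
    obtain ⟨c, hc, hcS⟩ := Finset.not_subset.1 hS
    symm
    apply mul_eq_zero_of_right
    exact Finset.prod_eq_zero (i := c) (by simp [hcS]) (by simp [hc])

/-- avoidance probability -/
lemma Ex_avoid (p : ℝ) (T : Finset C) :
    Ex p (fun S => if Disjoint S T then (1 : ℝ) else 0) = (1 - p) ^ T.card := by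
  have h := prod_formula (C := C) (fun c => if c ∈ T then 0 else p) (fun _ => 1 - p)
  have h1 : ∏ c : C, ((if c ∈ T then 0 else p) + (1 - p)) = (1 - p) ^ T.card := by
    have : ∀ c : C, ((if c ∈ T then 0 else p) + (1 - p)) = if c ∈ T then 1 - p else 1 := by
      intro c; split_ifs <;> ring
    simp only [this]
    rw [Finset.prod_ite]
    simp
  rw [h1] at h
  rw [h]
  unfold Ex wt
  refine Finset.sum_congr rfl fun S _ => ?_
  by_cases hS : Disjoint S T
  · beta_reduce
    rw [if_pos hS, mul_one]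
    congr 1
    refine Finset.prod_congr rfl fun c hc => ?_
    rw [if_neg (fun hT => (Finset.disjoint_left.1 hS hc) hT)]
  · beta_reduce
    rw [if_neg hS, mul_zero]
    obtain ⟨c, hc, hcT⟩ := Finset.not_disjoint_iff.1 hS
    symm
    apply mul_eq_zero_of_left
    exact Finset.prod_eq_zero hc (by simp [hcT])

/-- union bound -/
lemma Ex_exists_le {ι : Type*} {p : ℝ} (h0 : 0 ≤ p) (h1 : p ≤ 1) (s : Finset ι) (H : ι → Finset C)
    (φ : Finset C → Prop) [DecidablePred φ] (h : ∀ S, φ S → ∃ i ∈ s, H i ⊆ S) :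
    Ex p (fun S => if φ S then (1 : ℝ) else 0) ≤ ∑ i ∈ s, p ^ (H i).card := by
  have : ∑ i ∈ s, p ^ (H i).card = Ex p (fun S => ∑ i ∈ s, if H i ⊆ S then (1 : ℝ) else 0) := by
    rw [Ex_sum]
    exact Finset.sum_congr rfl fun i _ => (Ex_incl p (H i)).symm
  rw [this]
  refine Ex_mono h0 h1 fun S => ?_
  split_ifs with hφ
  · obtain ⟨i, hi, hiS⟩ := h S hφ
    calc (1 : ℝ) = if H i ⊆ S then (1 : ℝ) else 0 := by rw [if_pos hiS]
      _ ≤ _ := Finset.single_le_sum (f := fun i => if H i ⊆ S then (1 : ℝ) else 0)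
          (fun i _ => by split_ifs <;> norm_num) hi
  · exact Finset.sum_nonneg fun i _ => by split_ifs <;> norm_num

lemma Ex_card (p : ℝ) : Ex (C := C) p (fun S => (S.card : ℝ)) = Fintype.card C * p := by
  have : (fun S : Finset C => (S.card : ℝ)) = fun S => ∑ c : C, if ({c} : Finset C) ⊆ S then (1 : ℝ) else 0 := by
    funext S
    simp
  rw [this, Ex_sum]
  simp only [Ex_incl]
  simp

lemma Ex_card_sq (p : ℝ) : Ex (C := C) p (fun S => (S.card : ℝ) ^ 2) =
    Fintype.card C * p + Fintype.card C * (Fintype.card C - 1) * p ^ 2 := by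
  have : (fun S : Finset C => (S.card : ℝ) ^ 2) =
      fun S => ∑ c : C, ∑ d : C, if ({c, d} : Finset C) ⊆ S then (1 : ℝ) else 0 := by
    funext S
    have h1 : (S.card : ℝ) = ∑ c : C, if c ∈ S then (1 : ℝ) else 0 := by simp
    rw [sq, h1, Finset.sum_mul_sum]
    refine Finset.sum_congr rfl fun c _ => Finset.sum_congr rfl fun d _ => ?_
    by_cases hc : c ∈ S <;> by_cases hd : d ∈ S <;> simp [hc, hd, Finset.insert_subset_iff]
  rw [this, Ex_sum]
  simp only [Ex_sum, Ex_incl]
  have h2 : ∀ c : C, ∑ d : C, p ^ ({c, d} : Finset C).card = p + ((Fintype.card C : ℝ) - 1) * p ^ 2 := by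
    intro c
    rw [← Finset.add_sum_erase _ _ (Finset.mem_univ c)]
    have h3 : ∀ d ∈ univ.erase c, p ^ ({c, d} : Finset C).card = p ^ 2 := by
      intro d hd
      rw [Finset.card_pair (Finset.ne_of_mem_erase hd).symm]
    rw [Finset.sum_congr rfl h3]
    simp only [Finset.sum_const, nsmul_eq_mul]
    rw [Finset.card_erase_of_mem (Finset.mem_univ c), Finset.card_univ]
    have : 1 ≤ Fintype.card C := Fintype.card_pos_iff.2 ⟨c⟩
    push_cast [Nat.cast_sub this]
    simp
  simp only [h2]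
  rw [Finset.sum_const, Finset.card_univ, nsmul_eq_mul]
  ring

/-- Chebyshev for the size of the random set -/
lemma cheb {p : ℝ} (h0 : 0 ≤ p) (h1 : p ≤ 1) {d : ℝ} (hd : 0 < d) (φ : Finset C → Prop) [DecidablePred φ]
    (hφ : ∀ S, φ S → d ≤ |(S.card : ℝ) - Fintype.card C * p|) :
    Ex p (fun S => if φ S then (1 : ℝ) else 0) ≤ Fintype.card C * p / d ^ 2 := by
  have hv : Ex (C := C) p (fun S => ((S.card : ℝ) - Fintype.card C * p) ^ 2) ≤ Fintype.card C * p := by
    have : (fun S : Finset C => ((S.card : ℝ) - Fintype.card C * p) ^ 2) =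
        fun S => (S.card : ℝ) ^ 2 - (2 * (Fintype.card C * p) * (S.card : ℝ) - (Fintype.card C * p) ^ 2) := by
      funext S; ring
    rw [this, Ex_sub, Ex_card_sq, Ex_sub, Ex_mul_left, Ex_card, Ex_const]
    have : 0 ≤ (Fintype.card C : ℝ) * p ^ 2 := by positivity
    nlinarith
  rw [le_div_iff₀ (by positivity)]
  refine le_trans ?_ hv
  rw [mul_comm, ← Ex_mul_left]
  refine Ex_mono h0 h1 fun S => ?_
  split_ifs with h
  · rw [mul_one, ← sq_abs ((S.card : ℝ) - _)]
    exact pow_le_pow_left₀ hd.le (hφ S h) 2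
  · rw [mul_zero]; positivity

/-- Cauchy-Schwarz -/
lemma Ex_CS {p : ℝ} (h0 : 0 ≤ p) (h1 : p ≤ 1) (f g : Finset C → ℝ) :
    Ex p (fun S => f S * g S) ^ 2 ≤ Ex p (fun S => f S ^ 2) * Ex p (fun S => g S ^ 2) := by
  unfold Ex
  have := Finset.sum_mul_sq_le_sq_mul_sq (univ : Finset (Finset C))
    (fun S => Real.sqrt (wt p S) * f S) (fun S => Real.sqrt (wt p S) * g S)
  have e1 : ∀ S : Finset C, (Real.sqrt (wt p S) * f S) * (Real.sqrt (wt p S) * g S) = wt p S * (f S * g S) := by
    intro S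
    have := Real.mul_self_sqrt (wt_nonneg h0 h1 S)
    calc _ = (Real.sqrt (wt p S) * Real.sqrt (wt p S)) * (f S * g S) := by ring
      _ = _ := by rw [this]
  have e2 : ∀ (h : Finset C → ℝ) (S : Finset C), (Real.sqrt (wt p S) * h S) ^ 2 = wt p S * h S ^ 2 := by
    intro h S
    rw [mul_pow, Real.sq_sqrt (wt_nonneg h0 h1 S)]
  simp only [e1, e2] at this
  exact this

end Bin

end Pool.Agent.Helper88.TS
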