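import Pool.Agent.Helper88.TS.Second

/-!
Side branches of a fixed path: first and second moments, coincidences of endpoints.
-/

set_option autoImplicit false
set_option linter.unusedSectionVars false

open Finset

namespace Pool.Agent.Helper88.TS

variable {n : ℕ}

/-- side branches: a root index and a sequence of `r + 1` literals with pairwise different variables
outside `B` -/
abbrev Br (n s R : ℕ) (B : Finset (Fin n)) :=
  (r : Fin R) × (Fin s × {g : Fin ((r : ℕ) + 1) → Lit n //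
    Function.Injective (fun i => (g i).1) ∧ ∀ i, (g i).1 ∉ B})

section
variable {s R : ℕ} {B : Finset (Fin n)}

/-- the path of a branch -/
def path (ρ : Fin s → Lit n) (a : Br n s R B) : Fin ((a.1 : ℕ) + 1 + 1) → Lit n :=
  Fin.cons (ρ a.2.1) a.2.2.1

lemma path_zero (ρ : Fin s → Lit n) (a : Br n s R B) : path ρ a 0 = ρ a.2.1 := rfl
lemma path_succ (ρ : Fin s → Lit n) (a : Br n s R B) (i : Fin ((a.1 : ℕ) + 1)) :
    path ρ a i.succ = a.2.2.1 i := rfl

lemma VI_path {ρ : Fin s → Lit n} (hB : ∀ j, (ρ j).1 ∈ B) (a : Br n s R B) : VI (path ρ a) := by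
  intro i j
  refine Fin.cases ?_ (fun i => ?_) i <;> refine Fin.cases ?_ (fun j => ?_) j
  · intro _; rfl
  · intro h
    exfalso
    apply a.2.2.2.2 j
    have h2 : (ρ a.2.1).1 = (a.2.2.1 j).1 := h
    rw [← h2]; exact hB _
  · intro h
    exfalso
    apply a.2.2.2.2 i
    have h2 : (a.2.2.1 i).1 = (ρ a.2.1).1 := h
    rw [h2]; exact hB _
  · intro h
    have : i = j := a.2.2.2.1 h
    rw [this]

/-- the clauses of a branch -/
def bc {ρ : Fin s → Lit n} (hB : ∀ j, (ρ j).1 ∈ B) (a : Br n s R B) : Finset (Cl n) :=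
  cls (path ρ a) (VI_path hB a)

lemma card_bc {ρ : Fin s → Lit n} (hB : ∀ j, (ρ j).1 ∈ B) (a : Br n s R B) :
    (bc hB a).card = (a.1 : ℕ) + 1 := card_cls _

lemma disj_bc {ρ : Fin s → Lit n} (hB : ∀ j, (ρ j).1 ∈ B) (a : Br n s R B) {H0 : Finset (Cl n)}
    (hH : ∀ c ∈ H0, ∀ l ∈ c.1, l.1 ∈ B) : Disjoint H0 (bc hB a) := by
  rw [Finset.disjoint_right]
  intro c hc hc0
  unfold bc cls at hc
  obtain ⟨i, _, rfl⟩ := mem_image.1 hc
  apply a.2.2.2.2 i
  rw [← path_succ ρ a i]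
  exact hH _ hc0 _ (by show _ ∈ ({_, _} : Finset (Lit n)); simp)

/-- total expected number of branches -/
noncomputable def mu (n s R : ℕ) (B : Finset (Fin n)) (p : ℝ) : ℝ :=
  ∑ a : Br n s R B, p ^ ((a.1 : ℕ) + 1)

/-- number of branches in a random set -/
noncomputable def XX {ρ : Fin s → Lit n} (hB : ∀ j, (ρ j).1 ∈ B) (R : ℕ) (S : Finset (Cl n)) : ℝ :=
  ∑ a : Br n s R B, if bc hB a ⊆ S then (1 : ℝ) else 0

/-- indicator of containing `H0` -/
noncomputable def I0 (H0 S : Finset (Cl n)) : ℝ := if H0 ⊆ S then 1 else 0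

lemma I0_nonneg (H0 S : Finset (Cl n)) : 0 ≤ I0 H0 S := by unfold I0; split_ifs <;> norm_num

lemma I0_mul (H0 H1 S : Finset (Cl n)) : I0 H0 S * I0 H1 S = I0 (H0 ∪ H1) S := by
  unfold I0
  by_cases h1 : H0 ⊆ S <;> by_cases h2 : H1 ⊆ S <;> simp [h1, h2, Finset.union_subset_iff]

lemma Ex_I0 (p : ℝ) (H0 : Finset (Cl n)) : Ex p (I0 H0) = p ^ H0.card := Ex_incl p H0

lemma card_un {ρ : Fin s → Lit n} (hB : ∀ j, (ρ j).1 ∈ B) (a b : Br n s R B) {H0 : Finset (Cl n)}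
    (hH : ∀ c ∈ H0, ∀ l ∈ c.1, l.1 ∈ B) :
    (H0 ∪ (bc hB a ∪ bc hB b)).card = H0.card + (bc hB a ∪ bc hB b).card := by
  rw [Finset.card_union_of_disjoint]
  rw [Finset.disjoint_union_right]
  exact ⟨disj_bc hB a hH, disj_bc hB b hH⟩

lemma Ex_X {ρ : Fin s → Lit n} (hB : ∀ j, (ρ j).1 ∈ B) (p : ℝ) {H0 : Finset (Cl n)}
    (hH : ∀ c ∈ H0, ∀ l ∈ c.1, l.1 ∈ B) :
    Ex p (fun S => I0 H0 S * XX hB R S) = p ^ H0.card * mu n s R B p := by
  have : (fun S => I0 H0 S * XX hB R S) = fun S => ∑ a : Br n s R B, I0 (H0 ∪ bc hB a) S := by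
    funext S
    unfold XX
    rw [Finset.mul_sum]
    exact Finset.sum_congr rfl fun a _ => I0_mul H0 (bc hB a) S
  rw [this, Ex_sum]
  unfold mu
  rw [Finset.mul_sum]
  refine Finset.sum_congr rfl fun a _ => ?_
  rw [Ex_I0, Finset.card_union_of_disjoint (disj_bc hB a hH), card_bc, pow_add]

lemma Ex_XX {ρ : Fin s → Lit n} (hB : ∀ j, (ρ j).1 ∈ B) (p : ℝ) {H0 : Finset (Cl n)}
    (hH : ∀ c ∈ H0, ∀ l ∈ c.1, l.1 ∈ B) :
    Ex p (fun S => I0 H0 S * XX hB R S ^ 2) = p ^ H0.card *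
      ∑ a : Br n s R B, p ^ ((a.1 : ℕ) + 1) *
        ∑ b : Br n s R B, W (om p (Ed (bc hB a))) (path ρ b) := by
  have : (fun S => I0 H0 S * XX hB R S ^ 2) =
      fun S => ∑ a : Br n s R B, ∑ b : Br n s R B, I0 (H0 ∪ (bc hB a ∪ bc hB b)) S := by
    funext S
    unfold XX
    rw [sq, Finset.sum_mul_sum, Finset.mul_sum]
    refine Finset.sum_congr rfl fun a _ => ?_
    rw [Finset.mul_sum]
    refine Finset.sum_congr rfl fun b _ => ?_
    rw [← I0_mul, ← I0_mul]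
    rfl
  rw [this, Ex_sum, Finset.mul_sum]
  refine Finset.sum_congr rfl fun a _ => ?_
  rw [Ex_sum, Finset.mul_sum, Finset.mul_sum]
  refine Finset.sum_congr rfl fun b _ => ?_
  rw [Ex_I0, card_un hB a b hH, pow_add]
  have : p ^ (bc hB a ∪ bc hB b).card = p ^ (bc hB a).card * W (om p (Ed (bc hB a))) (path ρ b) :=
    pow_union (VI_path hB b) (bc hB a) p
  rw [this, card_bc]

/-- bounding a sum over branches by a sum over all sequences -/
lemma sum_Br_le (h : (r : Fin R) → Fin s → (Fin ((r : ℕ) + 1) → Lit n) → ℝ) (hh : ∀ r j g, 0 ≤ h r j g) :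
    ∑ b : Br n s R B, h b.1 b.2.1 b.2.2.1 ≤
      ∑ r : Fin R, ∑ j : Fin s, ∑ g : Fin ((r : ℕ) + 1) → Lit n, h r j g := by
  rw [Fintype.sum_sigma]
  refine Finset.sum_le_sum fun r _ => ?_
  rw [Fintype.sum_prod_type]
  refine Finset.sum_le_sum fun j _ => ?_
  rw [← Finset.sum_subtype (univ.filter (fun g : Fin ((r : ℕ) + 1) → Lit n =>
    Function.Injective (fun i => (g i).1) ∧ ∀ i, (g i).1 ∉ B)) (by simp) (f := fun g => h r j g)]
  exact Finset.sum_le_sum_of_subset_of_nonneg (Finset.subset_univ _) (fun g _ _ => hh r j g)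

lemma no_succ {ρ : Fin s → Lit n} (hρ : Function.Injective (fun j => (ρ j).1))
    (hB : ∀ j, (ρ j).1 ∈ B) (a : Br n s R B) {j : Fin s} (hj : j ≠ a.2.1) (z : Lit n) :
    ¬ Ed (bc hB a) (ρ j) z := by
  intro h
  have h1 := Ed_cls_VV (VI_path hB a) _ _ h
  have key : ∀ i, (path ρ a i).1 ≠ (ρ j).1 := by
    intro i
    refine Fin.cases ?_ (fun i => ?_) i
    · intro h
      exact hj (hρ h).symm
    · intro h
      apply a.2.2.2.2 i
      rw [← path_succ ρ a i, h]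
      exact hB j
  unfold VV at h1
  rw [mem_union, mem_image, mem_image] at h1
  rcases h1 with ⟨i, _, hi⟩ | ⟨i, _, hi⟩
  · exact key i (by rw [hi])
  · apply key i
    rw [← hi]; rfl

/-- the bound for one excess sum -/
noncomputable def Del1 (n s R : ℕ) (p : ℝ) : ℝ :=
  R * (1 + R * bet p (2 * n) (2 * (R + 1)) R ^ R) +
    s * R * (p * (R * (2 * (R + 1) * (1 + R * bet p (2 * n) (2 * (R + 1)) R ^ R))))

lemma excess_sum {ρ : Fin s → Lit n} (hρ : Function.Injective (fun j => (ρ j).1))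
    (hB : ∀ j, (ρ j).1 ∈ B) {p : ℝ} (h0 : 0 ≤ p) (h1 : p ≤ 1) (hn : 0 < n) (hp : 2 * n * p ≤ 1)
    (a : Br n s R B) :
    ∑ b : Br n s R B, (W (om p (Ed (bc hB a))) (path ρ b) - p ^ ((b.1 : ℕ) + 1)) ≤ Del1 n s R p := by
  have hcard : (Fintype.card (Lit n) : ℝ) = 2 * n := by rw [card_lit]; push_cast; ring
  have : Nonempty (Lit n) := ⟨(⟨0, hn⟩, true)⟩
  have hn' : (0 : ℝ) < 2 * n := by positivity
  set E := Ed (bc hB a) with hE
  have hV : ((VV (path ρ a)).card : ℝ) ≤ 2 * (R + 1) := by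
    have h2 := card_VV (path ρ a)
    have h3 : (a.1 : ℕ) + 1 ≤ R := a.1.2
    have : (VV (path ρ a)).card ≤ 2 * (R + 1) := by omega
    exact_mod_cast this
  have hEu : ∀ y z z', E y z → E y z' → z = z' := Ed_cls_unique (VI_path hB a)
  have hEV : ∀ y z, E y z → y ∈ VV (path ρ a) := fun y z h => Ed_cls_VV (VI_path hB a) y z h
  set β := bet p (2 * n) (2 * (R + 1)) R with hβ
  have hβ1 : 1 ≤ β := one_le_bet h0 hn' (by positivity) R
  have s1 := sum_Br_le (B := B) (R := R) (s := s) (fun r j g =>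
    W (om p E) (Fin.cons (ρ j) g : Fin ((r : ℕ) + 1 + 1) → Lit n) - p ^ ((r : ℕ) + 1))
    (fun r j g => sub_nonneg.2 (pow_le_W_om h0 h1 _ _))
  refine le_trans s1 ?_
  have s2 : ∀ (r : Fin R) (j : Fin s), ∑ g : Fin ((r : ℕ) + 1) → Lit n,
      (W (om p E) (Fin.cons (ρ j) g : Fin ((r : ℕ) + 1 + 1) → Lit n) - p ^ ((r : ℕ) + 1)) ≤
      (if j = a.2.1 then (1 + R * β ^ R) else 0) + p * (R * (2 * (R + 1) * (1 + R * β ^ R))) := by
    intro r j
    rw [Finset.sum_sub_distrib, sum_W]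
    have e1 : ∑ _g : Fin ((r : ℕ) + 1) → Lit n, p ^ ((r : ℕ) + 1) = (2 * n) ^ ((r : ℕ) + 1) * p ^ ((r : ℕ) + 1) := by
      simp only [Finset.sum_const, card_univ, nsmul_eq_mul, Fintype.card_fun, Fintype.card_fin]
      push_cast
      rw [hcard]
    rw [e1]
    have hr : (r : ℕ) + 1 ≤ R := r.2
    by_cases hj : j = a.2.1
    · rw [if_pos hj]
      have g1 := G_bound h0 hEu hEV hV (by rw [hcard]; exact hp) hr (ρ j)
      rw [hcard] at g1
      have : 0 ≤ (2 * n : ℝ) ^ ((r : ℕ) + 1) * p ^ ((r : ℕ) + 1) := by positivity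
      have : 0 ≤ p * (R * (2 * (R + 1) * (1 + R * β ^ R))) := by positivity
      linarith
    · rw [if_neg hj, zero_add]
      have g1 := G_succ_le (p := p) (E := E) h0 (z := ρ j) (fun z' => no_succ hρ hB a hj z') (r : ℕ)
      have g2 := SS_excess h0 hEu hEV hV (by rw [hcard]; exact hp) (show (r : ℕ) ≤ R by omega)
      rw [hcard] at g2
      have g3 := mul_le_mul_of_nonneg_left g2 h0
      have g4 : p * ((r : ℕ) * (2 * (R + 1) * (1 + R * β ^ R))) ≤ p * (R * (2 * (R + 1) * (1 + R * β ^ R))) := by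
        apply mul_le_mul_of_nonneg_left _ h0
        apply mul_le_mul_of_nonneg_right _ (by positivity)
        exact_mod_cast (by omega : (r : ℕ) ≤ R)
      have e2 : (2 * n : ℝ) ^ ((r : ℕ) + 1) * p ^ ((r : ℕ) + 1) = p * (2 * n * (2 * n * p) ^ (r : ℕ)) := by
        rw [← mul_pow]; ring
      rw [e2]
      linarith
  refine le_trans (Finset.sum_le_sum fun r _ => Finset.sum_le_sum fun j _ => s2 r j) ?_
  simp only [Finset.sum_add_distrib, Finset.sum_ite_eq', mem_univ, if_true, Finset.sum_const,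
    card_univ, Fintype.card_fin, nsmul_eq_mul]
  unfold Del1
  exact le_of_eq (by ring)

/-- second moment about `mu` -/
lemma Ex_var {ρ : Fin s → Lit n} (hρ : Function.Injective (fun j => (ρ j).1))
    (hB : ∀ j, (ρ j).1 ∈ B) {p : ℝ} (h0 : 0 ≤ p) (h1 : p ≤ 1) (hn : 0 < n) (hp : 2 * n * p ≤ 1)
    {H0 : Finset (Cl n)} (hH : ∀ c ∈ H0, ∀ l ∈ c.1, l.1 ∈ B) :
    Ex p (fun S => I0 H0 S * (XX hB R S - mu n s R B p) ^ 2) ≤
      p ^ H0.card * (mu n s R B p * Del1 n s R p) := by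
  have e : (fun S => I0 H0 S * (XX hB R S - mu n s R B p) ^ 2) =
      fun S => (I0 H0 S * XX hB R S ^ 2) - ((2 * mu n s R B p) * (I0 H0 S * XX hB R S) -
        mu n s R B p ^ 2 * I0 H0 S) := by
    funext S; ring
  rw [e, Ex_sub, Ex_sub, Ex_mul_left, Ex_mul_left, Ex_XX hB p hH, Ex_X hB p hH]
  have : Ex p (fun S => I0 H0 S) = p ^ H0.card := Ex_I0 p H0
  rw [this]
  have h2 : ∑ a : Br n s R B, p ^ ((a.1 : ℕ) + 1) *
        ∑ b : Br n s R B, W (om p (Ed (bc hB a))) (path ρ b) ≤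
      mu n s R B p * (mu n s R B p + Del1 n s R p) := by
    unfold mu
    rw [Finset.sum_mul]
    refine Finset.sum_le_sum fun a _ => ?_
    apply mul_le_mul_of_nonneg_left _ (by positivity)
    have h3 := excess_sum hρ hB h0 h1 hn hp a
    rw [Finset.sum_sub_distrib] at h3
    linarith
  have h3 : 0 ≤ p ^ H0.card := by positivity
  have h4 := mul_le_mul_of_nonneg_left h2 h3
  nlinarith

end

end Pool.Agent.Helper88.TS
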