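import Pool.Agent.Helper88.TS.Bin

/-!
From binomial random subsets to the uniform random ordering.
-/

set_option autoImplicit false
set_option linter.unusedSectionVars false

open Finset

namespace Pool.Agent.Helper88.TS

section Trans
variable {C : Type*} [Fintype C] [DecidableEq C] {N : ℕ}

/-- the set of the first `m` elements in the ordering `e` -/
def F (e : Fin N ≃ C) (m : ℕ) : Finset C := univ.filter (fun c => (e.symm c : ℕ) < m)

lemma mem_F (e : Fin N ≃ C) (m : ℕ) (c : C) : c ∈ F e m ↔ (e.symm c : ℕ) < m := by simp [F]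

lemma F_mono (e : Fin N ≃ C) {k m : ℕ} (h : k ≤ m) : F e k ⊆ F e m := by
  intro c hc
  rw [mem_F] at *
  omega

lemma card_F (e : Fin N ≃ C) {m : ℕ} (h : m ≤ N) : (F e m).card = m := by
  have : F e m = (univ.filter (fun i : Fin N => (i : ℕ) < m)).map e.toEmbedding := by
    ext c
    simp only [mem_F, mem_map, mem_filter, mem_univ, true_and, Equiv.coe_toEmbedding]
    constructor
    · intro h; exact ⟨e.symm c, h, by simp⟩
    · rintro ⟨i, hi, rfl⟩; simpa using hi
  rw [this, card_map]
  have h2 : (univ.filter (fun i : Fin N => (i : ℕ) < m)) = (univ : Finset (Fin m)).map (Fin.castLEEmb h) := by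
    ext i
    simp only [mem_filter, mem_univ, true_and, mem_map, Fin.castLEEmb_apply]
    constructor
    · intro hi; exact ⟨⟨i, hi⟩, by ext; simp⟩
    · rintro ⟨j, rfl⟩; simp
  rw [h2, card_map, card_univ, Fintype.card_fin]

/-- fraction of the orderings for which the first `m` elements have property `φ` -/
noncomputable def U (N : ℕ) (φ : Finset C → Prop) [DecidablePred φ] (m : ℕ) : ℝ :=
  (∑ e : Fin N ≃ C, if φ (F e m) then (1 : ℝ) else 0) / Fintype.card (Fin N ≃ C)

lemma U_mono (φ : Finset C → Prop) [DecidablePred φ] (hφ : ∀ S T, S ⊆ T → φ S → φ T) {k m : ℕ}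
    (h : k ≤ m) : U N φ k ≤ U N φ m := by
  unfold U
  apply div_le_div_of_nonneg_right _ (by positivity)
  refine Finset.sum_le_sum fun e _ => ?_
  split_ifs with h1 h2 h2
  · exact le_refl _
  · exact absurd (hφ _ _ (F_mono e h) h1) h2
  · exact zero_le_one
  · exact le_refl _

lemma U_nonneg (φ : Finset C → Prop) [DecidablePred φ] (k : ℕ) : 0 ≤ U (C := C) N φ k := by
  unfold U
  apply div_nonneg _ (by positivity)
  exact Finset.sum_nonneg fun e _ => by split_ifs <;> norm_num

lemma U_le_one (φ : Finset C → Prop) [DecidablePred φ] (k : ℕ) : U (C := C) N φ k ≤ 1 := by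
  unfold U
  apply div_le_one_of_le₀ _ (by positivity)
  calc _ ≤ ∑ e : Fin N ≃ C, (1 : ℝ) := Finset.sum_le_sum fun e _ => by split_ifs <;> norm_num
    _ = _ := by simp

/-- two sets of the same size are exchanged by a permutation -/
lemma exists_perm {A B : Finset C} (h : A.card = B.card) : ∃ τ : Equiv.Perm C, A.map τ.toEmbedding = B := by
  have hc : Fintype.card {x // x ∈ A} = Fintype.card {x // x ∈ B} := by simpa using h
  let e := Fintype.equivOfCardEq hc
  refine ⟨e.extendSubtype, ?_⟩
  apply Finset.eq_of_subset_of_card_le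
  · intro c hc
    obtain ⟨a, ha, rfl⟩ := Finset.mem_map.1 hc
    exact e.extendSubtype_mem a ha
  · rw [card_map, h]

lemma avg (hN : N = Fintype.card C) (φ : Finset C → Prop) [DecidablePred φ] (U0 : Finset C) :
    (∑ σ : Equiv.Perm C, if φ (U0.map σ.toEmbedding) then (1 : ℝ) else 0) / Fintype.card (Equiv.Perm C) =
      U N φ U0.card := by
  classical
  have e1 : Fin N ≃ C := (finCongr hN).trans (Fintype.equivFin C).symm
  have hle : U0.card ≤ N := by rw [hN]; exact card_le_univ _
  obtain ⟨τ, hτ⟩ := exists_perm (A := F e1 U0.card) (B := U0) (card_F e1 hle)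
  set e0 : Fin N ≃ C := e1.trans τ with he0
  have hF : ∀ σ : Equiv.Perm C, F (e0.trans σ) U0.card = U0.map σ.toEmbedding := by
    intro σ
    have hτ' : U0.map σ.toEmbedding = ((F e1 U0.card).map τ.toEmbedding).map σ.toEmbedding := by
      rw [hτ]
    rw [hτ', Finset.map_map]
    ext c
    rw [mem_F]
    simp only [he0, Equiv.symm_trans_apply, mem_map, mem_F, Function.Embedding.trans_apply,
      Equiv.coe_toEmbedding]
    constructor
    · intro h
      exact ⟨τ.symm (σ.symm c), h, by simp⟩
    · rintro ⟨a, ha, rfl⟩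
      simpa using ha
  let b : Equiv.Perm C ≃ (Fin N ≃ C) :=
    { toFun := fun σ => e0.trans σ
      invFun := fun e => e0.symm.trans e
      left_inv := fun σ => by ext x; simp
      right_inv := fun e => by ext x; simp }
  unfold U
  rw [Fintype.card_congr b]
  congr 1
  rw [← b.sum_comp]
  refine Finset.sum_congr rfl fun σ _ => ?_
  show _ = if φ (F (e0.trans σ) U0.card) then (1 : ℝ) else 0
  rw [hF]

/-- an invariant random set has property `φ` with the probability given by its size -/
lemma trans_general {I : Type*} [Fintype I] (hN : N = Fintype.card C) (φ : Finset C → Prop)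
    [DecidablePred φ] (w : I → ℝ) (g : I → Finset C) (a : Equiv.Perm C → (I ≃ I))
    (hw : ∀ σ i, w (a σ i) = w i) (hg : ∀ σ i, g (a σ i) = (g i).map σ.toEmbedding) :
    ∑ i, w i * (if φ (g i) then (1 : ℝ) else 0) = ∑ i, w i * U N φ (g i).card := by
  have hpos : (0 : ℝ) < Fintype.card (Equiv.Perm C) := by
    exact_mod_cast Fintype.card_pos
  have h1 : ∀ σ : Equiv.Perm C, ∑ i, w i * (if φ (g i) then (1 : ℝ) else 0) =
      ∑ i, w i * (if φ ((g i).map σ.toEmbedding) then (1 : ℝ) else 0) := by
    intro σ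
    rw [← (a σ).sum_comp]
    refine Finset.sum_congr rfl fun i _ => ?_
    rw [hw, hg]
  have h2 : (Fintype.card (Equiv.Perm C) : ℝ) * ∑ i, w i * (if φ (g i) then (1 : ℝ) else 0) =
      ∑ σ : Equiv.Perm C, ∑ i, w i * (if φ ((g i).map σ.toEmbedding) then (1 : ℝ) else 0) := by
    rw [← Finset.sum_congr rfl (fun σ _ => h1 σ)]
    simp
  rw [Finset.sum_comm] at h2
  have h3 : ∀ i, ∑ σ : Equiv.Perm C, w i * (if φ ((g i).map σ.toEmbedding) then (1 : ℝ) else 0) =
      Fintype.card (Equiv.Perm C) * (w i * U N φ (g i).card) := by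
    intro i
    rw [← avg hN φ (g i), ← Finset.mul_sum]
    field_simp
  rw [Finset.sum_congr rfl (fun i _ => h3 i), ← Finset.mul_sum] at h2
  exact mul_left_cancel₀ hpos.ne' h2

lemma wt_map (p : ℝ) (S : Finset C) (σ : Equiv.Perm C) : wt p (S.map σ.toEmbedding) = wt p S := by
  unfold wt
  simp only [Finset.prod_const, card_map, Finset.card_sdiff, Finset.inter_univ]

/-- the bijection of the subsets given by a permutation -/
def mapEquiv (σ : Equiv.Perm C) : Finset C ≃ Finset C where
  toFun S := S.map σ.toEmbedding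
  invFun S := S.map σ.symm.toEmbedding
  left_inv S := by ext x; simp
  right_inv S := by ext x; simp

lemma trans_one (hN : N = Fintype.card C) (p : ℝ) (φ : Finset C → Prop) [DecidablePred φ] :
    Ex p (fun S : Finset C => if φ S then (1 : ℝ) else 0) =
      Ex p (fun S : Finset C => U N φ S.card) := by
  unfold Ex
  exact trans_general (I := Finset C) hN φ (fun S : Finset C => wt p S) (fun S => S) mapEquiv
    (fun σ S => wt_map p S σ) (fun σ S => rfl)

/-- upper bound for the uniform model by the binomial one -/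
lemma U_le_of_Ex (hN : N = Fintype.card C) {p : ℝ} (h0 : 0 ≤ p) (h1 : p ≤ 1) (φ : Finset C → Prop)
    [DecidablePred φ] (hφ : ∀ S T, S ⊆ T → φ S → φ T) {m : ℕ} {d : ℝ} (hd : 0 < d)
    (hm : (m : ℝ) + d ≤ Fintype.card C * p) :
    U N φ m * (1 - Fintype.card C * p / d ^ 2) ≤ Ex p (fun S => if φ S then (1 : ℝ) else 0) := by
  classical
  rw [trans_one hN p φ]
  have h2 : Ex p (fun S : Finset C => if S.card < m then (1 : ℝ) else 0) ≤ Fintype.card C * p / d ^ 2 := by
    refine cheb h0 h1 hd _ fun S hS => ?_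
    have : (S.card : ℝ) < m := by exact_mod_cast hS
    rw [abs_sub_comm, le_abs]
    left; linarith
  have h3 : ∀ S : Finset C, U N φ m * (1 - if S.card < m then (1 : ℝ) else 0) ≤ U N φ S.card := by
    intro S
    split_ifs with h
    · simp only [sub_self, mul_zero]; exact U_nonneg φ _
    · rw [sub_zero, mul_one]; exact U_mono φ hφ (not_lt.1 h)
  refine le_trans ?_ (Ex_mono h0 h1 h3)
  rw [Ex_mul_left]
  apply mul_le_mul_of_nonneg_left _ (U_nonneg φ m)
  rw [Ex_sub, Ex_const]
  linarith

/-- lower bound for the uniform model by three binomial rounds -/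
lemma le_U_of_Ex3 (hN : N = Fintype.card C) {p q : ℝ} (h0 : 0 ≤ p) (h1 : p ≤ 1) (q0 : 0 ≤ q)
    (q1 : q ≤ 1) (φ : Finset C → Prop) [DecidablePred φ] (hφ : ∀ S T, S ⊆ T → φ S → φ T)
    {m a b : ℕ} (hm : a + b + b ≤ m) {d e : ℝ} (hd : 0 < d) (he : 0 < e)
    (ha : Fintype.card C * p + d ≤ (a : ℝ)) (hb : Fintype.card C * q + e ≤ (b : ℝ)) :
    Ex p (fun S1 => Ex q (fun S2 => Ex q (fun S3 => if φ (S1 ∪ S2 ∪ S3) then (1 : ℝ) else 0))) ≤
      U N φ m + Fintype.card C * p / d ^ 2 + 2 * (Fintype.card C * q / e ^ 2) := by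
  classical
  have key : Ex p (fun S1 => Ex q (fun S2 => Ex q (fun S3 => if φ (S1 ∪ S2 ∪ S3) then (1 : ℝ) else 0))) =
      Ex p (fun S1 : Finset C => Ex q (fun S2 : Finset C => Ex q (fun S3 : Finset C =>
        U N φ (S1 ∪ S2 ∪ S3).card))) := by
    have := trans_general (I := Finset C × Finset C × Finset C) hN φ
      (fun i => wt p i.1 * (wt q i.2.1 * wt q i.2.2)) (fun i => i.1 ∪ i.2.1 ∪ i.2.2)
      (fun σ => (mapEquiv σ).prodCongr ((mapEquiv σ).prodCongr (mapEquiv σ)))
      (fun σ i => by
        show wt p (i.1.map _) * (wt q (i.2.1.map _) * wt q (i.2.2.map _)) = _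
        rw [wt_map, wt_map, wt_map])
      (fun σ i => by
        show i.1.map _ ∪ i.2.1.map _ ∪ i.2.2.map _ = (i.1 ∪ i.2.1 ∪ i.2.2).map _
        rw [Finset.map_union, Finset.map_union])
    rw [Fintype.sum_prod_type, Fintype.sum_prod_type] at this
    simp only [Fintype.sum_prod_type] at this
    unfold Ex
    simp only [Finset.mul_sum]
    simp only [mul_assoc] at this ⊢
    exact this
  rw [key]
  have hp : Ex p (fun S : Finset C => if a < S.card then (1 : ℝ) else 0) ≤ Fintype.card C * p / d ^ 2 := by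
    refine cheb h0 h1 hd _ fun S hS => ?_
    have : (a : ℝ) < S.card := by exact_mod_cast hS
    rw [le_abs]
    left; linarith
  have hq : Ex q (fun S : Finset C => if b < S.card then (1 : ℝ) else 0) ≤ Fintype.card C * q / e ^ 2 := by
    refine cheb q0 q1 he _ fun S hS => ?_
    have : (b : ℝ) < S.card := by exact_mod_cast hS
    rw [le_abs]
    left; linarith
  have h3 : ∀ S1 S2 S3 : Finset C, U N φ (S1 ∪ S2 ∪ S3).card ≤ U N φ m +
      (if a < S1.card then (1 : ℝ) else 0) + (if b < S2.card then (1 : ℝ) else 0) +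
      (if b < S3.card then (1 : ℝ) else 0) := by
    intro S1 S2 S3
    by_cases hh : (S1 ∪ S2 ∪ S3).card ≤ m
    · have := U_mono (N := N) φ hφ hh
      have e1 : (0 : ℝ) ≤ if a < S1.card then (1 : ℝ) else 0 := by split_ifs <;> norm_num
      have e2 : (0 : ℝ) ≤ if b < S2.card then (1 : ℝ) else 0 := by split_ifs <;> norm_num
      have e3 : (0 : ℝ) ≤ if b < S3.card then (1 : ℝ) else 0 := by split_ifs <;> norm_num
      linarith
    · have c1 := Finset.card_union_le (S1 ∪ S2) S3
      have c2 := Finset.card_union_le S1 S2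
      have hor : a < S1.card ∨ b < S2.card ∨ b < S3.card := by omega
      have hu := U_le_one (C := C) (N := N) φ (S1 ∪ S2 ∪ S3).card
      have hv := U_nonneg (C := C) (N := N) φ m
      have e1 : (0 : ℝ) ≤ if a < S1.card then (1 : ℝ) else 0 := by split_ifs <;> norm_num
      have e2 : (0 : ℝ) ≤ if b < S2.card then (1 : ℝ) else 0 := by split_ifs <;> norm_num
      have e3 : (0 : ℝ) ≤ if b < S3.card then (1 : ℝ) else 0 := by split_ifs <;> norm_num
      rcases hor with h | h | h
      · rw [if_pos h]; linarith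
      · rw [if_pos h]; linarith
      · rw [if_pos h]; linarith
  have h4 : ∀ S1 S2 : Finset C, Ex q (fun S3 => U N φ (S1 ∪ S2 ∪ S3).card) ≤
      U N φ m + (if a < S1.card then (1 : ℝ) else 0) + (if b < S2.card then (1 : ℝ) else 0) +
        Fintype.card C * q / e ^ 2 := by
    intro S1 S2
    refine le_trans (Ex_mono q0 q1 (h3 S1 S2)) ?_
    rw [Ex_add, Ex_const]
    linarith
  have h5 : ∀ S1 : Finset C, Ex q (fun S2 => Ex q (fun S3 => U N φ (S1 ∪ S2 ∪ S3).card)) ≤
      U N φ m + (if a < S1.card then (1 : ℝ) else 0) + 2 * (Fintype.card C * q / e ^ 2) := by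
    intro S1
    refine le_trans (Ex_mono q0 q1 (h4 S1)) ?_
    rw [Ex_add, Ex_const, Ex_add, Ex_const]
    linarith
  refine le_trans (Ex_mono h0 h1 h5) ?_
  rw [Ex_add, Ex_const, Ex_add, Ex_const]
  linarith

end Trans

end Pool.Agent.Helper88.TS
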