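import Pool.Agent.Helper88.TS.Spr
import Pool.Agent.Helper88.TS.Trans

/-!
Lower bound for the probability of being unsatisfiable.
-/

set_option autoImplicit false
set_option linter.unusedSectionVars false

open Finset

namespace Pool.Agent.Helper88.TS

variable {n : ℕ}

lemma card_Cl (n : ℕ) : (Fintype.card (Cl n) : ℝ) = 2 * n * (n - 1) := by
  classical
  have h1 : ((univ : Finset (Lit n)).powersetCard 2).card = (2 * n).choose 2 := by
    rw [card_powersetCard, card_univ, card_lit]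
  have h2 := Finset.card_filter_add_card_filter_not (s := (univ : Finset (Lit n)).powersetCard 2)
    (fun A => (A.image Prod.fst).card = 2)
  have h3 : Fintype.card (Cl n) =
      (((univ : Finset (Lit n)).powersetCard 2).filter (fun A => (A.image Prod.fst).card = 2)).card := by
    rw [Fintype.card_subtype]
    congr 1
    ext A
    simp [mem_powersetCard]
  have h4 : (((univ : Finset (Lit n)).powersetCard 2).filter
      (fun A => ¬ (A.image Prod.fst).card = 2)) =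
      (univ : Finset (Fin n)).image (fun i => ({(i, true), (i, false)} : Finset (Lit n))) := by
    ext A
    rw [mem_filter, mem_powersetCard, mem_image]
    constructor
    · rintro ⟨⟨_, hA⟩, hA2⟩
      obtain ⟨u, v, huv, rfl⟩ := Finset.card_eq_two.1 hA
      have huv1 : u.1 = v.1 := by
        by_contra hne
        exact hA2 (pair_mem hne).2
      refine ⟨u.1, mem_univ _, ?_⟩
      have h3 : u.2 ≠ v.2 := fun h => huv (Prod.ext huv1 h)
      obtain ⟨u1, u2⟩ := u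
      obtain ⟨v1, v2⟩ := v
      simp only at huv1 h3 ⊢
      subst huv1
      cases u2 <;> cases v2 <;> simp_all [Finset.pair_comm]
    · rintro ⟨i, _, rfl⟩
      refine ⟨⟨subset_univ _, ?_⟩, ?_⟩
      · rw [card_pair]; simp
      · rw [image_insert, image_singleton]; simp
  have h5 : ((univ : Finset (Fin n)).image (fun i => ({(i, true), (i, false)} : Finset (Lit n)))).card = n := by
    rw [card_image_of_injective, card_univ, Fintype.card_fin]
    intro i j hij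
    have : (i, true) ∈ ({(j, true), (j, false)} : Finset (Lit n)) := by
      have h6 : (i, true) ∈ ({(i, true), (i, false)} : Finset (Lit n)) := by simp
      have h7 : ({(i, true), (i, false)} : Finset (Lit n)) = {(j, true), (j, false)} := hij
      rwa [h7] at h6
    simpa using this
  rw [h4, h5, h1, ← h3] at h2
  have h6 : ((Fintype.card (Cl n) + n : ℕ) : ℝ) = ((2 * n).choose 2 : ℕ) := by rw [h2]
  rw [Nat.cast_choose_two] at h6
  push_cast at h6
  linarith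

lemma pow_one_add_le_exp {x : ℝ} (hx : 0 ≤ x) (k : ℕ) : (1 + x) ^ k ≤ Real.exp (k * x) := by
  rw [Real.exp_nat_mul]
  apply pow_le_pow_left₀ (by linarith)
  have := Real.add_one_le_exp x
  linarith

lemma exp_le_pow_one_sub {u : ℝ} (hu : 0 ≤ u) (hu2 : u ≤ 1 / 2) (k : ℕ) :
    Real.exp (-(2 * (k * u))) ≤ (1 - u) ^ k := by
  have h1 : Real.exp (-(2 * u)) ≤ 1 - u := by
    rw [Real.exp_neg]
    have h2 := Real.add_one_le_exp (2 * u)
    have h3 : (Real.exp (2 * u))⁻¹ ≤ (2 * u + 1)⁻¹ := inv_anti₀ (by linarith) h2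
    refine le_trans h3 ?_
    rw [inv_le_iff_one_le_mul₀ (by linarith)]
    nlinarith
  have h2 : -(2 * ((k : ℝ) * u)) = k * (-(2 * u)) := by ring
  rw [h2, Real.exp_nat_mul]
  exact pow_le_pow_left₀ (Real.exp_pos _).le h1 k

lemma pow_le_two {x : ℝ} (hx : 0 ≤ x) (k : ℕ) (hk : k * x ≤ 1 / 2) : (1 + x) ^ k ≤ 2 := by
  refine le_trans (pow_one_add_le_exp hx k) ?_
  have h1 : Real.exp (k * x) ≤ Real.exp (1 / 2) := Real.exp_le_exp.2 hk
  have h2 : Real.exp (1 / 2) ≤ 2 := by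
    have h3 : Real.exp (1 / 2) ^ 2 = Real.exp 1 := by
      rw [← Real.exp_nat_mul]; norm_num
    have h4 := Real.exp_one_lt_d9
    nlinarith [Real.exp_pos (1 / 2)]
  linarith

/-- the parameters -/
structure Par (R s n : ℕ) (p : ℝ) : Prop where
  hR : 1 ≤ R
  hs : s = 100 * R
  hn : n = s ^ 3
  hp : p = (1 - 6 / s) / (2 * n)

section
variable {R s n : ℕ} {p : ℝ}

lemma Par.s_pos (h : Par R s n p) : (100 : ℝ) ≤ s := by
  have := h.hR
  have h2 : 100 ≤ s := by rw [h.hs]; omega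
  exact_mod_cast h2

lemma Par.s_eq (h : Par R s n p) : (s : ℝ) = 100 * R := by rw [h.hs]; push_cast; ring
lemma Par.n_eq (h : Par R s n p) : (n : ℝ) = (s : ℝ) ^ 3 := by rw [h.hn]; push_cast; ring
lemma Par.R_pos (h : Par R s n p) : (1 : ℝ) ≤ R := by exact_mod_cast h.hR
lemma Par.n_pos (h : Par R s n p) : (0 : ℝ) < n := by
  rw [h.n_eq]
  have := h.s_pos
  positivity
lemma Par.n_pos' (h : Par R s n p) : 0 < n := by exact_mod_cast h.n_pos

lemma Par.p_mul (h : Par R s n p) : 2 * n * p = 1 - 6 / s := by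
  rw [h.hp]
  have := h.n_pos
  field_simp

lemma Par.p_pos (h : Par R s n p) : 0 ≤ p := by
  rw [h.hp]
  have h1 := h.n_pos
  have h2 := h.s_pos
  apply div_nonneg _ (by positivity)
  rw [sub_nonneg, div_le_one (by linarith)]
  linarith

lemma Par.p_le (h : Par R s n p) : p ≤ 1 / (2 * n) := by
  rw [h.hp]
  have h1 := h.n_pos
  have h2 := h.s_pos
  apply div_le_div_of_nonneg_right _ (by positivity)
  have : (0 : ℝ) ≤ 6 / s := by positivity
  linarith

lemma Par.np_le (h : Par R s n p) : 2 * n * p ≤ 1 := by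
  rw [h.p_mul]
  have h2 := h.s_pos
  have : (0 : ℝ) ≤ 6 / s := by positivity
  linarith

lemma Par.p_le_one (h : Par R s n p) : p ≤ 1 := by
  have h1 : (1 : ℝ) ≤ n := by exact_mod_cast h.n_pos'
  have h2 := h.np_le
  have h3 := h.p_pos
  nlinarith

lemma Par.bet1 (h : Par R s n p) : bet p (2 * n) (2 * (R + 1)) R ^ R ≤ 2 := by
  have h1 := h.n_pos
  have h2 := h.s_pos
  have h3 := h.R_pos
  have h4 := h.p_le
  have h5 := h.p_pos
  have hx : (0 : ℝ) ≤ 2 * (R + 1) * (1 / (2 * n) + p * R) := by positivity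
  unfold bet
  apply pow_le_two hx
  have e1 : 2 * ((R : ℝ) + 1) * (1 / (2 * n) + p * R) ≤ 2 * (R + 1) * (1 / (2 * n) + 1 / (2 * n) * R) := by
    gcongr
  have e2 : 2 * ((R : ℝ) + 1) * (1 / (2 * n) + 1 / (2 * n) * R) = (R + 1) ^ 2 / n := by
    field_simp
    ring
  rw [e2] at e1
  have e3 : ((R : ℝ) + 1) ^ 2 / n ≤ (2 * R) ^ 2 / n := by
    gcongr; linarith
  have e4 : (R : ℝ) * ((2 * R) ^ 2 / n) ≤ 1 / 2 := by
    rw [h.n_eq, h.s_eq]
    have : (0 : ℝ) < R := by linarith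
    field_simp
    norm_num
  calc (R : ℝ) * (2 * (R + 1) * (1 / (2 * n) + p * R)) ≤ R * ((2 * R) ^ 2 / n) := by
        apply mul_le_mul_of_nonneg_left _ (by linarith)
        linarith
    _ ≤ 1 / 2 := e4

lemma Par.bet1_ge (h : Par R s n p) : 1 ≤ bet p (2 * n) (2 * (R + 1)) R ^ R := by
  apply one_le_pow₀
  apply one_le_bet h.p_pos
  · have := h.n_pos; positivity
  · positivity

lemma Par.del1 (h : Par R s n p) : Del1 n s R p ≤ 4 * R ^ 2 := by
  have h1 := h.n_pos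
  have h2 := h.s_pos
  have h3 := h.R_pos
  have h4 := h.p_le
  have h5 := h.p_pos
  have h6 := h.bet1
  have h7 := h.bet1_ge
  set β := bet p (2 * n) (2 * (R + 1)) R ^ R with hβ
  have hΓ : 1 + R * β ≤ 3 * R := by nlinarith
  have hΓ0 : 0 ≤ 1 + R * β := by positivity
  unfold Del1
  rw [← hβ]
  have e1 : (R : ℝ) * (1 + R * β) ≤ R * (3 * R) := by gcongr
  have e2 : (s : ℝ) * R * (p * (R * (2 * (R + 1) * (1 + R * β)))) ≤
      s * R * (1 / (2 * n) * (R * (2 * (2 * R) * (3 * R)))) := by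
    gcongr
    linarith
  have e3 : (s : ℝ) * R * (1 / (2 * n) * (R * (2 * (2 * R) * (3 * R)))) ≤ R ^ 2 := by
    rw [h.n_eq, h.s_eq]
    have : (0 : ℝ) < R := by linarith
    field_simp
    norm_num
  nlinarith

lemma Par.del2 (h : Par R s n p) : Del2 n s R p ≤ 1 / 1000 := by
  have h1 := h.n_pos
  have h2 := h.s_pos
  have h3 := h.R_pos
  have h4 := h.p_le
  have h5 := h.p_pos
  have h6 := h.bet1
  have h7 := h.bet1_ge
  set β := bet p (2 * n) (2 * (R + 1)) R ^ R with hβ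
  have hΓ : 1 + R * β ≤ 3 * R := by nlinarith
  have hΓ0 : 0 ≤ 1 + R * β := by positivity
  unfold Del2
  rw [← hβ]
  have e2 : (R : ℝ) * ((s + R) * (p * (1 + R * β))) ≤
      R * ((s + R) * (1 / (2 * n) * (3 * R))) := by
    gcongr
  have e3 : (R : ℝ) * ((s + R) * (1 / (2 * n) * (3 * R))) ≤ 1 / 1000 := by
    rw [h.n_eq, h.s_eq]
    have : (0 : ℝ) < R := by linarith
    field_simp
    norm_num
  linarith

lemma Par.theta (h : Par R s n p) {x : ℝ} (hx : x ≤ 4 * s) : 1 - 7 / s ≤ 2 * (n - x) * p := by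
  have h1 := h.n_pos
  have h2 := h.s_pos
  have e : 2 * (n - x) * p = (2 * n * p) * (1 - x / n) := by
    field_simp
  rw [e, h.p_mul]
  have h4 : x / n ≤ 1 / s := by
    rw [h.n_eq, div_le_div_iff₀ (by positivity) (by positivity)]
    have a1 : x * s ≤ 4 * s * s := mul_le_mul_of_nonneg_right hx (by linarith)
    have a2 : (0 : ℝ) ≤ (s : ℝ) ^ 2 * (s - 100) := by
      apply mul_nonneg (by positivity)
      linarith
    nlinarith
  have h5 : 0 ≤ 1 - 6 / (s : ℝ) := by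
    rw [sub_nonneg, div_le_one (by linarith)]; linarith
  have h6 : (1 - 6 / (s : ℝ)) * (1 - 1 / s) ≤ (1 - 6 / (s : ℝ)) * (1 - x / n) := by
    apply mul_le_mul_of_nonneg_left _ h5
    linarith
  have h7 : 1 - 7 / (s : ℝ) ≤ (1 - 6 / (s : ℝ)) * (1 - 1 / s) := by
    have h8 : (0 : ℝ) ≤ 6 / s * (1 / s) := by positivity
    have h9 : (7 : ℝ) / s = 6 / s + 1 / s := by ring
    rw [h9]
    nlinarith
  linarith

lemma Par.mu_lower (h : Par R s n p) (B : Finset (Fin n)) (hB : B.card ≤ 2 * s + 1) :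
    93 * (R : ℝ) ^ 2 ≤ mu n s R B p := by
  have h1 := h.n_pos
  have h2 := h.s_pos
  have h3 := h.R_pos
  have hn1 : 2 * s + 1 + R ≤ n := by
    have a1 : (2 * s + 1 + R : ℝ) ≤ n := by
      rw [h.n_eq]
      have : (R : ℝ) ≤ s := by rw [h.s_eq]; linarith
      have : (s : ℝ) * 10000 ≤ (s : ℝ) ^ 3 := by
        have : (10000 : ℝ) ≤ (s : ℝ) ^ 2 := by nlinarith
        nlinarith
      linarith
    exact_mod_cast a1
  refine le_trans ?_ (mu_ge hB hn1 h.p_pos h.np_le)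
  have h4 := h.theta (x := 2 * s + 1 + R) (by
    have := h.s_eq
    linarith)
  have h5 : (0 : ℝ) ≤ 1 - 7 / s := by
    rw [sub_nonneg, div_le_one (by linarith)]; linarith
  have h6 : (1 - 7 / (s : ℝ)) ^ R ≤ (2 * ((n : ℝ) - (2 * s + 1 + R)) * p) ^ R :=
    pow_le_pow_left₀ h5 h4 R
  have h7 : 93 / 100 ≤ (1 - 7 / (s : ℝ)) ^ R := by
    have a1 := one_add_mul_le_pow (a := -(7 / (s : ℝ))) (by linarith) R
    have a2 : 1 + (R : ℝ) * (-(7 / (s : ℝ))) = 93 / 100 := by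
      rw [h.s_eq]
      have : (0 : ℝ) < R := by linarith
      field_simp
      norm_num
    rw [a2] at a1
    have a3 : 1 + -(7 / (s : ℝ)) = 1 - 7 / s := by ring
    rwa [a3] at a1
  have h8 : (93 : ℝ) / 100 ≤ (2 * ((n : ℝ) - (2 * s + 1 + R)) * p) ^ R := le_trans h7 h6
  have h9 : (s : ℝ) * R * (93 / 100) ≤ s * R * (2 * ((n : ℝ) - (2 * s + 1 + R)) * p) ^ R := by
    apply mul_le_mul_of_nonneg_left h8 (by positivity)
  refine le_trans ?_ h9
  rw [h.s_eq]
  apply le_of_eq; ring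

lemma Par.delta (h : Par R s n p) :
    4 * Del1 n s R p / (93 * (R : ℝ) ^ 2) + 4 * Del2 n s R p ≤ 1 / 4 := by
  have h1 := h.del1
  have h2 := h.del2
  have h3 := h.R_pos
  have h4 : 4 * Del1 n s R p / (93 * (R : ℝ) ^ 2) ≤ 16 / 93 := by
    rw [div_le_div_iff₀ (by positivity) (by norm_num)]
    nlinarith
  linarith

lemma Par.bet2 (h : Par R s n p) :
    bet p (2 * n) (2 * ((2 * s : ℕ) + 1)) (2 * s : ℕ) ^ (2 * s) ≤ Real.exp 18 := by
  have h1 := h.n_pos
  have h2 := h.s_pos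
  have h4 := h.p_le
  have h5 := h.p_pos
  have hx : (0 : ℝ) ≤ 2 * (2 * s + 1) * (1 / (2 * n) + p * (2 * s)) := by positivity
  unfold bet
  push_cast
  refine le_trans (pow_one_add_le_exp hx (2 * s)) ?_
  apply Real.exp_le_exp.2
  push_cast
  have e1 : 2 * (2 * (s : ℝ) + 1) * (1 / (2 * n) + p * (2 * s)) ≤
      2 * (3 * s) * (1 / (2 * n) + 1 / (2 * n) * (2 * s)) := by
    gcongr; linarith
  have e2 : 2 * (3 * (s : ℝ)) * (1 / (2 * n) + 1 / (2 * n) * (2 * s)) = 3 * s * (1 + 2 * s) / n := by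
    field_simp
  have e3 : 3 * (s : ℝ) * (1 + 2 * s) / n ≤ 3 * s * (3 * s) / n := by
    gcongr; linarith
  have e4 : 2 * (s : ℝ) * (3 * s * (3 * s) / n) = 18 := by
    rw [h.n_eq]
    field_simp
    norm_num
  calc 2 * (s : ℝ) * (2 * (2 * s + 1) * (1 / (2 * n) + p * (2 * s)))
      ≤ 2 * s * (3 * s * (3 * s) / n) := by
        apply mul_le_mul_of_nonneg_left _ (by positivity)
        linarith
    _ = 18 := e4

lemma Par.card_PT (h : Par R s n p) :
    n * Real.exp (-28) ≤ (Fintype.card (PT n (2 * s)) : ℝ) * p ^ (2 * s) := by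
  have h1 := h.n_pos
  have h2 := h.s_pos
  have h5 := h.p_pos
  have hns : 10000 * (s : ℝ) ≤ n := by
    rw [h.n_eq]
    have : (10000 : ℝ) ≤ (s : ℝ) ^ 2 := by nlinarith
    nlinarith
  have h3 : ((2 * (n - 2 * s)) ^ (2 * s + 1) : ℕ) ≤ Fintype.card (PT n (2 * s)) := card_PT_ge (2 * s)
  have h4 : (2 * ((n : ℝ) - 2 * s)) ^ (2 * s + 1) ≤ (Fintype.card (PT n (2 * s)) : ℝ) := by
    have : (((2 * (n - 2 * s)) ^ (2 * s + 1) : ℕ) : ℝ) ≤ (Fintype.card (PT n (2 * s)) : ℝ) := by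
      exact_mod_cast h3
    refine le_trans (le_of_eq ?_) this
    have hle : 2 * s ≤ n := by
      have : (2 * s : ℝ) ≤ n := by linarith
      exact_mod_cast this
    push_cast [Nat.cast_sub hle]
    ring
  have h6 := h.theta (x := 2 * s) (by linarith)
  have h7 : (0 : ℝ) ≤ 1 - 7 / s := by
    rw [sub_nonneg, div_le_one (by linarith)]; linarith
  have h8 : (1 - 7 / (s : ℝ)) ^ (2 * s) ≤ (2 * ((n : ℝ) - 2 * s) * p) ^ (2 * s) :=
    pow_le_pow_left₀ h7 h6 _
  have h9 : Real.exp (-28) ≤ (1 - 7 / (s : ℝ)) ^ (2 * s) := by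
    have := exp_le_pow_one_sub (u := 7 / (s : ℝ)) (by positivity) (by
      rw [div_le_div_iff₀ (by linarith) (by norm_num)]; linarith) (2 * s)
    refine le_trans (le_of_eq ?_) this
    congr 1
    push_cast
    field_simp
    norm_num
  calc n * Real.exp (-28) ≤ (2 * ((n : ℝ) - 2 * s)) * (2 * ((n : ℝ) - 2 * s) * p) ^ (2 * s) := by
        apply mul_le_mul _ (le_trans h9 h8) (Real.exp_pos _).le
        · linarith
        · linarith
    _ = (2 * ((n : ℝ) - 2 * s)) ^ (2 * s + 1) * p ^ (2 * s) := by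
        rw [mul_pow _ p, pow_succ]; ring
    _ ≤ _ := by
        apply mul_le_mul_of_nonneg_right h4 (by positivity)

open scoped Classical in
lemma Par.GG_lower (h : Par R s n p) :
    Real.exp (-46) / 8 ≤ Ex p (fun S : Finset (Cl n) =>
      if GG (93 * (R : ℝ) ^ 2 / 4) S then (1 : ℝ) else 0) := by
  have h1 := h.n_pos
  have h3 := h.R_pos
  have h2 := h.card_PT
  have hpos : 0 < (Fintype.card (PT n (2 * s)) : ℝ) * p ^ (2 * s) :=
    lt_of_lt_of_le (by positivity) h2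
  have h4 := GG_prob (R := R) h.p_pos h.p_le_one h.n_pos' h.np_le (μ0 := 93 * (R : ℝ) ^ 2)
    (by positivity) h.mu_lower h.delta hpos
  set ε := Ex p (fun S : Finset (Cl n) =>
      if GG (93 * (R : ℝ) ^ 2 / 4) S then (1 : ℝ) else 0) with hε
  have hε0 : 0 ≤ ε := Ex_nonneg h.p_pos h.p_le_one fun S => by split_ifs <;> norm_num
  have h5 := h.bet2
  have h6 : n * Real.exp (-28) ≤ 4 * (2 * n * Real.exp 18) * ε := by
    refine le_trans h2 (le_trans h4 ?_)
    apply mul_le_mul_of_nonneg_right _ hε0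
    apply mul_le_mul_of_nonneg_left _ (by norm_num)
    apply mul_le_mul_of_nonneg_left h5 (by positivity)
  have h7 : Real.exp (-28) ≤ 8 * Real.exp 18 * ε := by
    have : n * Real.exp (-28) ≤ n * (8 * Real.exp 18 * ε) := by linarith
    exact le_of_mul_le_mul_left this h1
  have h8 : Real.exp (-46) = Real.exp (-28) * Real.exp (-18) := by
    rw [← Real.exp_add]; norm_num
  have h9 : Real.exp 18 * Real.exp (-18) = 1 := by
    rw [← Real.exp_add]; norm_num
  have h10 := mul_le_mul_of_nonneg_right h7 (Real.exp_pos (-18)).le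
  rw [h8]
  nlinarith

end

open scoped Classical in
/-- the probability of being unsatisfiable after `s ^ 3 - s ^ 2` steps -/
theorem unsat_lower : ∃ c : ℝ, 0 < c ∧ ∃ R0 : ℕ, ∀ R ≥ R0, ∀ N : ℕ,
    N = Fintype.card (Cl ((100 * R) ^ 3)) →
    c ≤ U N (Un (n := (100 * R) ^ 3)) ((100 * R) ^ 3 - (100 * R) ^ 2) := by
  set c1 : ℝ := (1 / 10 ^ 7) ^ 2 * (Real.exp (-46) / 8) with hc1
  have hc1p : 0 < c1 := by positivity
  obtain ⟨R0, hR0⟩ := exists_nat_gt (6 / c1 / 100)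
  refine ⟨c1 / 2, by positivity, max R0 1, fun R hR N hN => ?_⟩
  have hR1 : 1 ≤ R := le_trans (le_max_right _ _) hR
  set s := 100 * R with hs
  set n := s ^ 3 with hn
  set p : ℝ := (1 - 6 / s) / (2 * n) with hp
  have h : Par R s n p := ⟨hR1, hs, hn, hp⟩
  have g1 := h.n_pos
  have g2 := h.s_pos
  have g3 := h.R_pos
  set q : ℝ := 1 / (2 * s ^ 4) with hq
  have q0 : 0 ≤ q := by positivity
  have q1 : q ≤ 1 := by
    rw [hq, div_le_one (by positivity)]
    have : (1 : ℝ) ≤ (s : ℝ) ^ 4 := one_le_pow₀ (by linarith)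
    linarith
  have hh : (3 : ℝ) ≤ 93 * (R : ℝ) ^ 2 / 4 := by nlinarith
  have t1 := three_rounds (n := n) h.p_pos h.p_le_one q0 q1 hh
  have t2 := h.GG_lower
  have hsR : 6 / c1 < s := by
    have a1 : (R0 : ℝ) ≤ R := by exact_mod_cast le_trans (le_max_left _ _) hR
    rw [h.s_eq]
    have := lt_of_lt_of_le hR0 a1
    rw [div_lt_iff₀ (by norm_num)] at this
    linarith
  have hM : (Fintype.card (Cl n) : ℝ) = 2 * n * (n - 1) := card_Cl n
  have hs2 : s ^ 2 * 5 ≤ s ^ 3 := by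
    have : 5 ≤ s := by omega
    calc s ^ 2 * 5 ≤ s ^ 2 * s := Nat.mul_le_mul_left _ this
      _ = s ^ 3 := by ring
  have hMp : (Fintype.card (Cl n) : ℝ) * p + (s : ℝ) ^ 2 ≤ ((s ^ 3 - s ^ 2 * 5 : ℕ) : ℝ) := by
    rw [hM]
    have a1 : 2 * (n : ℝ) * (n - 1) * p = (2 * n * p) * (n - 1) := by ring
    rw [a1, h.p_mul]
    push_cast [Nat.cast_sub hs2]
    have a2 : (0 : ℝ) ≤ 1 - 6 / s := by rw [sub_nonneg, div_le_one (by linarith)]; linarith
    have a3 : (1 - 6 / (s : ℝ)) * (n - 1) ≤ (1 - 6 / (s : ℝ)) * n := by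
      apply mul_le_mul_of_nonneg_left _ a2
      linarith
    have a4 : (1 - 6 / (s : ℝ)) * n = (s : ℝ) ^ 3 - 6 * (s : ℝ) ^ 2 := by
      rw [h.n_eq]
      field_simp
    linarith
  have hMq : (Fintype.card (Cl n) : ℝ) * q + (s : ℝ) ^ 2 ≤ ((2 * s ^ 2 : ℕ) : ℝ) := by
    rw [hM, hq, h.n_eq]
    push_cast
    have : 2 * (s : ℝ) ^ 3 * ((s : ℝ) ^ 3 - 1) * (1 / (2 * (s : ℝ) ^ 4)) ≤
        2 * (s : ℝ) ^ 3 * ((s : ℝ) ^ 3) * (1 / (2 * (s : ℝ) ^ 4)) := by
      gcongr
      linarith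
    have e : 2 * (s : ℝ) ^ 3 * ((s : ℝ) ^ 3) * (1 / (2 * (s : ℝ) ^ 4)) = (s : ℝ) ^ 2 := by
      field_simp
    linarith
  have hm : (s ^ 3 - s ^ 2 * 5) + 2 * s ^ 2 + 2 * s ^ 2 ≤ s ^ 3 - s ^ 2 := by omega
  have t3 := le_U_of_Ex3 (N := N) hN h.p_pos h.p_le_one q0 q1 (Un (n := n)) (fun S T => Un_mono)
    hm (d := (s : ℝ) ^ 2) (e := (s : ℝ) ^ 2) (by positivity) (by positivity) hMp hMq
  -- the hitting constant
  set t0 : ℝ := 93 * (R : ℝ) ^ 2 / 4 * (93 * (R : ℝ) ^ 2 / 4 - 3) / 2 with ht0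
  have hqt : 1 / 10 ^ 6 ≤ q * t0 := by
    have a1 : 200 * (R : ℝ) ^ 4 ≤ t0 := by
      rw [ht0]
      have a2 : (1 : ℝ) ≤ (R : ℝ) ^ 2 := by nlinarith
      have a3 : (R : ℝ) ^ 4 = (R : ℝ) ^ 2 * (R : ℝ) ^ 2 := by ring
      rw [a3]
      nlinarith
    have a2 : q * (200 * (R : ℝ) ^ 4) = 1 / 10 ^ 6 := by
      rw [hq, h.s_eq]
      have : (0 : ℝ) < R := by linarith
      field_simp
      norm_num
    rw [← a2]
    exact mul_le_mul_of_nonneg_left a1 q0
  have hκ : 1 / 10 ^ 7 ≤ q * t0 / (1 + q * t0) := by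
    rw [div_le_div_iff₀ (by norm_num) (by linarith)]
    linarith
  have t4 : c1 ≤ (q * t0 / (1 + q * t0)) ^ 2 *
      Ex p (fun S : Finset (Cl n) => if GG (93 * (R : ℝ) ^ 2 / 4) S then (1 : ℝ) else 0) := by
    rw [hc1]
    apply mul_le_mul _ t2 (by positivity) (by positivity)
    exact pow_le_pow_left₀ (by positivity) hκ 2
  have t5 := le_trans (le_trans t4 t1) t3
  have b1 : (Fintype.card (Cl n) : ℝ) * p / ((s : ℝ) ^ 2) ^ 2 ≤ 1 / s := by
    have a1 : (Fintype.card (Cl n) : ℝ) * p ≤ (s : ℝ) ^ 3 := by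
      have : ((s ^ 3 - s ^ 2 * 5 : ℕ) : ℝ) ≤ (s : ℝ) ^ 3 := by
        have a3 : s ^ 3 - s ^ 2 * 5 ≤ s ^ 3 := Nat.sub_le _ _
        exact_mod_cast a3
      have a2 : (0 : ℝ) ≤ (s : ℝ) ^ 2 := by positivity
      linarith
    rw [div_le_div_iff₀ (by positivity) (by positivity)]
    calc (Fintype.card (Cl n) : ℝ) * p * s ≤ (s : ℝ) ^ 3 * s :=
          mul_le_mul_of_nonneg_right a1 (by positivity)
      _ = 1 * ((s : ℝ) ^ 2) ^ 2 := by ring
  have b2 : (Fintype.card (Cl n) : ℝ) * q / ((s : ℝ) ^ 2) ^ 2 ≤ 1 / s := by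
    have a1 : (Fintype.card (Cl n) : ℝ) * q ≤ (s : ℝ) ^ 2 := by
      have : ((2 * s ^ 2 : ℕ) : ℝ) = 2 * (s : ℝ) ^ 2 := by push_cast; ring
      linarith
    rw [div_le_div_iff₀ (by positivity) (by positivity)]
    calc (Fintype.card (Cl n) : ℝ) * q * s ≤ (s : ℝ) ^ 2 * s :=
          mul_le_mul_of_nonneg_right a1 (by positivity)
      _ ≤ (s : ℝ) ^ 2 * s * s := le_mul_of_one_le_right (by positivity) (by linarith)
      _ = 1 * ((s : ℝ) ^ 2) ^ 2 := by ring
  have b3 : 3 * (1 / (s : ℝ)) ≤ c1 / 2 := by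
    rw [div_lt_iff₀ hc1p] at hsR
    rw [mul_one_div, div_le_div_iff₀ (by linarith) (by norm_num)]
    linarith
  have b4 : c1 - 3 * (1 / (s : ℝ)) ≤ U N (Un (n := n)) (s ^ 3 - s ^ 2) := by linarith
  linarith

end Pool.Agent.Helper88.TS
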