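import Pool.Agent.Helper88.TS.Uniq
import Pool.Agent.Helper88.TS.Low

/-!
First moment bound for uniquely satisfiable subformulas.
-/

set_option autoImplicit false
set_option linter.unusedSectionVars false

open Finset

namespace Pool.Agent.Helper88.TS

variable {n : ℕ}

lemma pow_le_choose (v k : ℕ) : v ^ k ≤ k.factorial * (v + k).choose k := by
  rw [← Nat.descFactorial_eq_factorial_mul_choose]
  have h := Nat.pow_sub_le_descFactorial (v + k) k
  refine le_trans (Nat.pow_le_pow_left ?_ k) h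
  omega

lemma pow_sum_le {θ : ℝ} (h0 : 0 ≤ θ) (h1 : θ < 1) (k N : ℕ) :
    ∑ v ∈ range N, (v : ℝ) ^ k * θ ^ v ≤ k.factorial / (1 - θ) ^ (k + 1) := by
  have hs := hasSum_choose_mul_geometric_of_norm_lt_one (𝕜 := ℝ) k (r := θ)
    (by rw [Real.norm_of_nonneg h0]; exact h1)
  have h2 : ∑ v ∈ range N, ((v + k).choose k : ℝ) * θ ^ v ≤ 1 / (1 - θ) ^ (k + 1) :=
    sum_le_hasSum (range N) (fun i _ => by positivity) hs
  calc ∑ v ∈ range N, (v : ℝ) ^ k * θ ^ v
      ≤ ∑ v ∈ range N, k.factorial * (((v + k).choose k : ℝ) * θ ^ v) := by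
        refine Finset.sum_le_sum fun v _ => ?_
        rw [← mul_assoc]
        apply mul_le_mul_of_nonneg_right _ (by positivity)
        exact_mod_cast pow_le_choose v k
    _ = k.factorial * ∑ v ∈ range N, ((v + k).choose k : ℝ) * θ ^ v := by rw [← Finset.mul_sum]
    _ ≤ k.factorial * (1 / (1 - θ) ^ (k + 1)) := mul_le_mul_of_nonneg_left h2 (by positivity)
    _ = _ := by ring

open scoped Classical in
lemma Ex_CA {p : ℝ} (h0 : 0 ≤ p) (h1 : p ≤ 1) (hθ : 2 * n * p < 1) :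
    Ex p (fun S : Finset (Cl n) => if CA S then (1 : ℝ) else 0) ≤ p * (1 / (1 - 2 * n * p) ^ 2) := by
  set ι := (v : Fin (n + 1)) × ((Fin v → Lit n) × Fin v) with hι
  set H : ι → Finset (Cl n) := fun i =>
    KK i.2.1 (AA i.1) (⟨0, by have := i.2.2.2; omega⟩, i.2.2) with hH
  set sA : Finset ι := univ.filter (fun i => 2 ≤ (i.1 : ℕ) ∧ 1 ≤ (i.2.2 : ℕ) ∧
    Function.Injective (fun t => (i.2.1 t).1)) with hsA
  have e1 := Ex_exists_le h0 h1 sA H (fun S : Finset (Cl n) => CA S) (by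
    rintro S ⟨v, g, a, z, hv, hz, ha, hg, hS⟩
    refine ⟨⟨v, g, a⟩, ?_, ?_⟩
    · rw [hsA, mem_filter]
      exact ⟨mem_univ _, hv, ha, hg⟩
    · have : z = ⟨0, by have := a.2; omega⟩ := Fin.ext hz
      rw [this] at hS
      exact hS)
  refine le_trans e1 ?_
  have e2 : ∑ i ∈ sA, p ^ (H i).card ≤ ∑ i : ι, p ^ ((i.1 : ℕ) + 1) := by
    calc ∑ i ∈ sA, p ^ (H i).card ≤ ∑ i ∈ sA, p ^ ((i.1 : ℕ) + 1) := by
          refine Finset.sum_le_sum fun i hi => ?_
          rw [hsA, mem_filter] at hi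
          apply pow_le_pow_of_le_one h0 h1
          have h3 := card_KK hi.2.2.2 (AA_ne hi.2.1)
            (c := (⟨0, by have := i.2.2.2; omega⟩, i.2.2)) (by
              intro h
              have := congrArg Fin.val h
              simp only at this
              omega)
          rw [card_AA] at h3
          exact h3
      _ ≤ _ := Finset.sum_le_sum_of_subset_of_nonneg (subset_univ _) (fun i _ _ => by positivity)
  refine le_trans e2 ?_
  rw [Fintype.sum_sigma]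
  have e3 : ∀ v : Fin (n + 1), ∑ _i : (Fin v → Lit n) × Fin v, p ^ ((v : ℕ) + 1) =
      p * ((v : ℝ) ^ 1 * (2 * n * p) ^ (v : ℕ)) := by
    intro v
    rw [Finset.sum_const, card_univ, Fintype.card_prod, Fintype.card_fun, card_lit,
      Fintype.card_fin, nsmul_eq_mul]
    push_cast
    ring
  rw [Finset.sum_congr rfl (fun v _ => e3 v), ← Finset.mul_sum]
  apply mul_le_mul_of_nonneg_left _ h0
  rw [Fin.sum_univ_eq_sum_range (fun v => (v : ℝ) ^ 1 * (2 * n * p) ^ v) (n + 1)]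
  have := pow_sum_le (θ := 2 * n * p) (by positivity) hθ 1 (n + 1)
  simpa using this

open scoped Classical in
lemma Ex_CB {p : ℝ} (h0 : 0 ≤ p) (h1 : p ≤ 1) (hθ : 2 * n * p < 1) :
    Ex p (fun S : Finset (Cl n) => if CB S then (1 : ℝ) else 0) ≤
      p ^ 2 * (24 / (1 - 2 * n * p) ^ 5) := by
  set ι := (v : Fin (n + 1)) × ((Fin v → Lit n) × (Fin v × Fin v × Fin v × Fin v)) with hι
  -- the order of the indices is a, b, k, j
  set H : ι → Finset (Cl n) := fun i =>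
    KK i.2.1 (AB i.1 i.2.2.2.1 i.2.2.2.2.1 i.2.2.2.2.2)
      (⟨0, by have := i.2.2.1.2; omega⟩, i.2.2.1) with hH
  set sB : Finset ι := univ.filter (fun i => 1 ≤ (i.2.2.1 : ℕ) ∧
    1 ≤ (i.2.2.2.2.1 : ℕ) ∧ (i.2.2.2.2.1 : ℕ) < i.2.2.2.1 ∧
    1 ≤ (i.2.2.2.2.2 : ℕ) ∧ (i.2.2.2.2.2 : ℕ) < i.2.2.2.1 ∧
    Function.Injective (fun t => (i.2.1 t).1)) with hsB
  have e1 := Ex_exists_le h0 h1 sB H (fun S : Finset (Cl n) => CB S) (by
    rintro S ⟨v, g, a, b, k, j, z, hz, ha, hk, hkb, hj, hjb, hg, hS⟩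
    refine ⟨⟨v, g, a, b, k, j⟩, ?_, ?_⟩
    · rw [hsB, mem_filter]
      exact ⟨mem_univ _, ha, hk, hkb, hj, hjb, hg⟩
    · have : z = ⟨0, by have := a.2; omega⟩ := Fin.ext hz
      rw [this] at hS
      exact hS)
  refine le_trans e1 ?_
  have e2 : ∑ i ∈ sB, p ^ (H i).card ≤ ∑ i : ι, p ^ ((i.1 : ℕ) + 1 + 1) := by
    calc ∑ i ∈ sB, p ^ (H i).card ≤ ∑ i ∈ sB, p ^ ((i.1 : ℕ) + 1 + 1) := by
          refine Finset.sum_le_sum fun i hi => ?_
          rw [hsB, mem_filter] at hi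
          obtain ⟨_, ha, hk, hkb, hj, hjb, hg⟩ := hi
          apply pow_le_pow_of_le_one h0 h1
          have h3 := card_KK hg (AB_ne hjb hk hkb)
            (c := (⟨0, by have := i.2.2.1.2; omega⟩, i.2.2.1)) (by
              intro h
              have := congrArg Fin.val h
              simp only at this
              omega)
          rw [card_AB hj hjb] at h3
          exact h3
      _ ≤ _ := Finset.sum_le_sum_of_subset_of_nonneg (subset_univ _) (fun i _ _ => by positivity)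
  refine le_trans e2 ?_
  rw [Fintype.sum_sigma]
  have e3 : ∀ v : Fin (n + 1), ∑ _i : (Fin v → Lit n) × (Fin v × Fin v × Fin v × Fin v),
      p ^ ((v : ℕ) + 1 + 1) = p ^ 2 * ((v : ℝ) ^ 4 * (2 * n * p) ^ (v : ℕ)) := by
    intro v
    rw [Finset.sum_const, card_univ]
    simp only [Fintype.card_prod, Fintype.card_fun, Fintype.card_fin, Fintype.card_bool, nsmul_eq_mul]
    push_cast
    ring
  rw [Finset.sum_congr rfl (fun v _ => e3 v), ← Finset.mul_sum]
  apply mul_le_mul_of_nonneg_left _ (by positivity)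
  rw [Fin.sum_univ_eq_sum_range (fun v => (v : ℝ) ^ 4 * (2 * n * p) ^ v) (n + 1)]
  have := pow_sum_le (θ := 2 * n * p) (by positivity) hθ 4 (n + 1)
  simpa [Nat.factorial] using this

open scoped Classical in
lemma Ex_UQ {p : ℝ} (h0 : 0 ≤ p) (h1 : p ≤ 1) (hθ : 2 * n * p < 1) :
    Ex p (fun S : Finset (Cl n) => if UQ S then (1 : ℝ) else 0) ≤
      p * (1 / (1 - 2 * n * p) ^ 2) + p ^ 2 * (24 / (1 - 2 * n * p) ^ 5) := by
  have e1 := Ex_CA h0 h1 hθ
  have e2 := Ex_CB h0 h1 hθ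
  refine le_trans ?_ (add_le_add e1 e2)
  rw [← Ex_add]
  refine Ex_mono h0 h1 fun S => ?_
  by_cases hS : UQ S
  · rw [if_pos hS]
    rcases UQ_config hS with h | h
    · rw [if_pos h]
      have : (0 : ℝ) ≤ if CB S then (1 : ℝ) else 0 := by split_ifs <;> norm_num
      linarith
    · rw [if_pos h]
      have : (0 : ℝ) ≤ if CA S then (1 : ℝ) else 0 := by split_ifs <;> norm_num
      linarith
  · rw [if_neg hS]
    have : (0 : ℝ) ≤ if CB S then (1 : ℝ) else 0 := by split_ifs <;> norm_num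
    have : (0 : ℝ) ≤ if CA S then (1 : ℝ) else 0 := by split_ifs <;> norm_num
    linarith

open scoped Classical in
/-- uniquely satisfiable subformulas are unlikely after `s ^ 3 - s ^ 2` steps -/
theorem uniq_upper {s N : ℕ} (hs : 100 ≤ s) (hN : N = Fintype.card (Cl (s ^ 3))) :
    U N (UQ (n := s ^ 3)) (s ^ 3 - s ^ 2) ≤ 388 / s := by
  set n := s ^ 3 with hn
  have g2 : (100 : ℝ) ≤ s := by exact_mod_cast hs
  have hnr : (n : ℝ) = (s : ℝ) ^ 3 := by rw [hn]; push_cast; ring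
  have hn0 : (0 : ℝ) < n := by rw [hnr]; positivity
  set p : ℝ := (1 - 1 / (2 * s)) / (2 * n) with hp
  have hpm : 2 * n * p = 1 - 1 / (2 * s) := by rw [hp]; field_simp
  have hs2 : (0 : ℝ) < 1 / (2 * s) := by positivity
  have hs3 : 1 / (2 * (s : ℝ)) ≤ 1 := by rw [div_le_one (by linarith)]; linarith
  have p0 : 0 ≤ p := by
    rw [hp]
    apply div_nonneg _ (by positivity)
    linarith
  have hple : p ≤ 1 / (2 * n) := by
    rw [hp]
    apply div_le_div_of_nonneg_right _ (by positivity)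
    linarith
  have p1 : p ≤ 1 := by
    refine le_trans hple ?_
    rw [div_le_one (by positivity), hnr]
    have : (1 : ℝ) ≤ (s : ℝ) ^ 3 := one_le_pow₀ (by linarith)
    linarith
  have hθ : 2 * n * p < 1 := by rw [hpm]; linarith
  have e1 := Ex_UQ (n := n) p0 p1 hθ
  have e2 : 1 - 2 * n * p = 1 / (2 * s) := by rw [hpm]; ring
  rw [e2] at e1
  have e3 : p * (1 / (1 / (2 * (s : ℝ))) ^ 2) ≤ 2 / s := by
    have a1 : 1 / (1 / (2 * (s : ℝ))) ^ 2 = 4 * (s : ℝ) ^ 2 := by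
      field_simp
      norm_num
    rw [a1]
    calc p * (4 * (s : ℝ) ^ 2) ≤ 1 / (2 * n) * (4 * (s : ℝ) ^ 2) := by gcongr
      _ = 2 / (s : ℝ) := by rw [hnr]; field_simp; norm_num
  have e4 : p ^ 2 * (24 / (1 / (2 * (s : ℝ))) ^ 5) ≤ 192 / s := by
    have a1 : 24 / (1 / (2 * (s : ℝ))) ^ 5 = 768 * (s : ℝ) ^ 5 := by
      field_simp
      norm_num
    rw [a1]
    calc p ^ 2 * (768 * (s : ℝ) ^ 5) ≤ (1 / (2 * n)) ^ 2 * (768 * (s : ℝ) ^ 5) := by gcongr
      _ = 192 / (s : ℝ) := by rw [hnr]; field_simp; norm_num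
  have hM : (Fintype.card (Cl n) : ℝ) = 2 * n * (n - 1) := card_Cl n
  have hMp : (Fintype.card (Cl n) : ℝ) * p = (1 - 1 / (2 * s)) * (n - 1) := by
    rw [hM, ← hpm]; ring
  have hle : s ^ 2 ≤ s ^ 3 := Nat.pow_le_pow_right (by omega) (by norm_num)
  have hm : ((s ^ 3 - s ^ 2 : ℕ) : ℝ) + (s : ℝ) ^ 2 / 4 ≤ Fintype.card (Cl n) * p := by
    rw [hMp]
    push_cast [Nat.cast_sub hle]
    have a1 : (1 - 1 / (2 * (s : ℝ))) * (n - 1) = (s : ℝ) ^ 3 - (s : ℝ) ^ 2 / 2 - 1 + 1 / (2 * s) := by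
      rw [hnr]; field_simp; ring
    rw [a1]
    nlinarith
  have t1 := U_le_of_Ex (N := N) hN p0 p1 (UQ (n := n)) (fun S T => UQ_mono)
    (m := s ^ 3 - s ^ 2) (d := (s : ℝ) ^ 2 / 4) (by positivity) hm
  have t2 : (Fintype.card (Cl n) : ℝ) * p / ((s : ℝ) ^ 2 / 4) ^ 2 ≤ 1 / 2 := by
    have a1 : (Fintype.card (Cl n) : ℝ) * p ≤ (s : ℝ) ^ 3 := by
      rw [hMp, ← hnr]
      have a2 : 0 ≤ 1 - 1 / (2 * (s : ℝ)) := by linarith
      have a3 : 1 - 1 / (2 * (s : ℝ)) ≤ 1 := by linarith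
      have a4 : (1 : ℝ) ≤ n := by
        rw [hnr]; exact one_le_pow₀ (by linarith)
      nlinarith
    rw [div_le_div_iff₀ (by positivity) (by norm_num)]
    have a5 : (s : ℝ) ^ 3 * 2 ≤ 1 * ((s : ℝ) ^ 2 / 4) ^ 2 := by
      have : (s : ℝ) ^ 3 * 32 ≤ (s : ℝ) ^ 3 * s := by
        apply mul_le_mul_of_nonneg_left _ (by positivity)
        linarith
      nlinarith
    linarith
  have hU := U_nonneg (N := N) (UQ (n := n)) (s ^ 3 - s ^ 2)
  set u := U N (UQ (n := n)) (s ^ 3 - s ^ 2) with hu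
  have t3 : u * (1 / 2) ≤ u * (1 - (Fintype.card (Cl n) : ℝ) * p / ((s : ℝ) ^ 2 / 4) ^ 2) := by
    apply mul_le_mul_of_nonneg_left _ hU
    linarith
  have t4 : u * (1 / 2) ≤ 2 / s + 192 / s := by linarith
  have t5 : (388 : ℝ) / s = 2 * (2 / s + 192 / s) := by ring
  rw [t5]
  linarith

end Pool.Agent.Helper88.TS
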