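import Pool.Agent.Helper88.TS.Branch

/-!
Coincidences of the endpoints of side branches; many different endpoints.
-/

set_option autoImplicit false
set_option linter.unusedSectionVars false

open Finset

namespace Pool.Agent.Helper88.TS

variable {n : ℕ}

section
variable {s R : ℕ} {B : Finset (Fin n)}

/-- the end of a branch -/
def en (ρ : Fin s → Lit n) (a : Br n s R B) : Lit n := path ρ a (Fin.last _)

lemma path_agree {ρ : Fin s → Lit n} (hρ : Function.Injective (fun j => (ρ j).1))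
    (hB : ∀ j, (ρ j).1 ∈ B) (a b : Br n s R B)
    (h : ∀ i : Fin ((b.1 : ℕ) + 1), Ed (bc hB a) (path ρ b i.castSucc) (path ρ b i.succ)) :
    ∀ k (ha : k < (a.1 : ℕ) + 1 + 1) (hb : k < (b.1 : ℕ) + 1 + 1),
      path ρ b ⟨k, hb⟩ = path ρ a ⟨k, ha⟩ := by
  have hroot : b.2.1 = a.2.1 := by
    by_contra hne
    exact no_succ hρ hB a hne _ (h 0)
  intro k
  induction k with
  | zero =>
    intro ha hb
    show ρ b.2.1 = ρ a.2.1
    rw [hroot]
  | succ k ih =>
    intro ha hb
    have h1 := ih (by omega) (by omega)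
    have h2 := h ⟨k, by omega⟩
    have h3 := (cls_subset_iff (VI_path hB a) (bc hB a)).1 (Finset.Subset.refl _) ⟨k, by omega⟩
    have e1 : path ρ b (Fin.castSucc ⟨k, by omega⟩) = path ρ a (Fin.castSucc ⟨k, by omega⟩) := h1
    rw [e1] at h2
    exact Ed_cls_unique (VI_path hB a) _ _ _ h2 h3

lemma W_ind_path {ρ : Fin s → Lit n} (hρ : Function.Injective (fun j => (ρ j).1))
    (hB : ∀ j, (ρ j).1 ∈ B) {a b : Br n s R B} (hab : b ≠ a) (hend : en ρ b = en ρ a) :
    W (ind (Ed (bc hB a))) (path ρ b) = 0 := by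
  by_contra hne
  have h : ∀ i : Fin ((b.1 : ℕ) + 1), Ed (bc hB a) (path ρ b i.castSucc) (path ρ b i.succ) := by
    intro i
    by_contra h
    exact hne (W_ind_zero h)
  have key := path_agree hρ hB a b h
  rcases lt_trichotomy (a.1 : ℕ) (b.1 : ℕ) with hlt | heq | hgt
  · have h1 := key ((a.1 : ℕ) + 1) (by omega) (by omega)
    have h2 : path ρ b (Fin.last _) = path ρ b ⟨(a.1 : ℕ) + 1, by omega⟩ := hend.trans h1.symm
    have h3 := VI_path hB b (congrArg Prod.fst h2)
    have := congrArg Fin.val h3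
    simp at this
    omega
  · apply hab
    obtain ⟨ra, ja, ga⟩ := a
    obtain ⟨rb, jb, gb⟩ := b
    have : ra = rb := Fin.ext heq
    subst this
    have h0 : jb = ja := by
      have := key 0 (by simp) (by simp)
      have h4 : ρ jb = ρ ja := this
      exact hρ (congrArg Prod.fst h4)
    have h1 : gb = ga := by
      apply Subtype.ext
      funext i
      have hi : (i : ℕ) + 1 < (ra : ℕ) + 1 + 1 := Nat.succ_lt_succ i.2
      have := key ((i : ℕ) + 1) hi hi
      exact this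
    rw [h0, h1]
  · have h1 := key ((b.1 : ℕ) + 1) (by omega) (by omega)
    have h2 : path ρ a ⟨(b.1 : ℕ) + 1, by omega⟩ = path ρ a (Fin.last _) := h1.symm.trans hend
    have h3 := VI_path hB a (congrArg Prod.fst h2)
    have := congrArg Fin.val h3
    simp at this
    omega

/-- the bound for coincidences -/
noncomputable def Del2 (n s R : ℕ) (p : ℝ) : ℝ :=
  R * ((s + R) * (p * (1 + R * bet p (2 * n) (2 * (R + 1)) R ^ R)))

lemma coincid {ρ : Fin s → Lit n} (hρ : Function.Injective (fun j => (ρ j).1))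
    (hB : ∀ j, (ρ j).1 ∈ B) {p : ℝ} (h0 : 0 ≤ p) (hn : 0 < n) (hp : 2 * n * p ≤ 1)
    (a : Br n s R B) :
    ∑ b : Br n s R B, (if b ≠ a ∧ en ρ b = en ρ a then W (om p (Ed (bc hB a))) (path ρ b) else 0)
      ≤ Del2 n s R p := by
  have hcard : (Fintype.card (Lit n) : ℝ) = 2 * n := by rw [card_lit]; push_cast; ring
  have : Nonempty (Lit n) := ⟨(⟨0, hn⟩, true)⟩
  have hn' : (0 : ℝ) < 2 * n := by positivity
  set E := Ed (bc hB a) with hE
  have hV : ((VV (path ρ a)).card : ℝ) ≤ 2 * (R + 1) := by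
    have h2 := card_VV (path ρ a)
    have h3 : (a.1 : ℕ) + 1 ≤ R := a.1.2
    have : (VV (path ρ a)).card ≤ 2 * (R + 1) := by omega
    exact_mod_cast this
  have hEu : ∀ y z z', E y z → E y z' → z = z' := Ed_cls_unique (VI_path hB a)
  have hEV : ∀ y z, E y z → y ∈ VV (path ρ a) := fun y z h => Ed_cls_VV (VI_path hB a) y z h
  set β := bet p (2 * n) (2 * (R + 1)) R with hβ
  have hβ1 : 1 ≤ β := one_le_bet h0 hn' (by positivity) R
  set Γ : ℝ := 1 + R * β ^ R with hΓ
  have hΓ0 : 0 ≤ Γ := by positivity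
  have hΓb : ∀ u ≤ R, ∀ y : Lit n, ∑ z', Cc (om p E) u z' y ≤ Γ := by
    intro u hu y
    rw [sum_Cc_left neg (om_symm p (bc hB a)) u y]
    have g1 := G_bound h0 hEu hEV hV (by rw [hcard]; exact hp) hu (neg y)
    rw [hcard] at g1
    exact g1
  set y := en ρ a with hy
  have s1 : ∑ b : Br n s R B, (if b ≠ a ∧ en ρ b = y then W (om p E) (path ρ b) else 0) ≤
      ∑ b : Br n s R B, (fun (r : Fin R) (j : Fin s) (g : Fin ((r : ℕ) + 1) → Lit n) =>
        (W (om p E) (Fin.cons (ρ j) g : Fin ((r : ℕ) + 1 + 1) → Lit n) -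
          W (ind E) (Fin.cons (ρ j) g : Fin ((r : ℕ) + 1 + 1) → Lit n)) *
          (if (Fin.cons (ρ j) g : Fin ((r : ℕ) + 1 + 1) → Lit n) (Fin.last _) = y then 1 else 0))
        b.1 b.2.1 b.2.2.1 := by
    refine Finset.sum_le_sum fun b _ => ?_
    show _ ≤ (W (om p E) (path ρ b) - W (ind E) (path ρ b)) * (if en ρ b = y then 1 else 0)
    by_cases h : b ≠ a ∧ en ρ b = y
    · rw [if_pos h, if_pos h.2, mul_one, W_ind_path hρ hB h.1 h.2, sub_zero]
    · rw [if_neg h]
      apply mul_nonneg (sub_nonneg.2 (W_ind_le_om h0 _ _))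
      split_ifs <;> norm_num
  refine le_trans s1 (le_trans (sum_Br_le (fun (r : Fin R) (j : Fin s) (g : Fin ((r : ℕ) + 1) → Lit n) =>
        (W (om p E) (Fin.cons (ρ j) g : Fin ((r : ℕ) + 1 + 1) → Lit n) -
          W (ind E) (Fin.cons (ρ j) g : Fin ((r : ℕ) + 1 + 1) → Lit n)) *
          (if (Fin.cons (ρ j) g : Fin ((r : ℕ) + 1 + 1) → Lit n) (Fin.last _) = y then 1 else 0)) ?_) ?_)
  · intro r j g
    apply mul_nonneg (sub_nonneg.2 (W_ind_le_om h0 _ _))
    split_ifs <;> norm_num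
  have s2 : ∀ (r : Fin R) (j : Fin s), ∑ g : Fin ((r : ℕ) + 1) → Lit n,
      (W (om p E) (Fin.cons (ρ j) g : Fin ((r : ℕ) + 1 + 1) → Lit n) -
          W (ind E) (Fin.cons (ρ j) g : Fin ((r : ℕ) + 1 + 1) → Lit n)) *
          (if (Fin.cons (ρ j) g : Fin ((r : ℕ) + 1 + 1) → Lit n) (Fin.last _) = y then 1 else 0) ≤
      (if j = a.2.1 then R * (p * Γ) else 0) + p * Γ := by
    intro r j
    have e1 : ∑ g : Fin ((r : ℕ) + 1) → Lit n,
      (W (om p E) (Fin.cons (ρ j) g : Fin ((r : ℕ) + 1 + 1) → Lit n) -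
          W (ind E) (Fin.cons (ρ j) g : Fin ((r : ℕ) + 1 + 1) → Lit n)) *
          (if (Fin.cons (ρ j) g : Fin ((r : ℕ) + 1 + 1) → Lit n) (Fin.last _) = y then 1 else 0) =
        DD p E ((r : ℕ) + 1) (ρ j) y := by
      unfold DD
      rw [← sum_W_end, ← sum_W_end, ← Finset.sum_sub_distrib]
      exact Finset.sum_congr rfl fun g _ => sub_mul _ _ _
    rw [e1]
    have hr : (r : ℕ) + 1 ≤ R := r.2
    have hpΓ : 0 ≤ p * Γ := by positivity
    by_cases hj : j = a.2.1
    · rw [if_pos hj]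
      have g1 := DD_le (p := p) (E := E) h0 hEu (y := y) (Γ := Γ) ((r : ℕ) + 1)
        (fun u hu => hΓb u (by omega) y) hΓ0 (ρ j)
      have g2 : (((r : ℕ) + 1 : ℕ) : ℝ) * (p * Γ) ≤ R * (p * Γ) := by
        apply mul_le_mul_of_nonneg_right _ hpΓ
        exact_mod_cast hr
      linarith
    · rw [if_neg hj, zero_add]
      exact DD_succ_le' (p := p) (E := E) h0 (fun z' => no_succ hρ hB a hj z') (r : ℕ)
        (hΓb r (by omega) y)
  refine le_trans (Finset.sum_le_sum fun r _ => Finset.sum_le_sum fun j _ => s2 r j) ?_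
  simp only [Finset.sum_add_distrib, Finset.sum_ite_eq', mem_univ, if_true, Finset.sum_const,
    card_univ, Fintype.card_fin, nsmul_eq_mul]
  unfold Del2
  exact le_of_eq (by rw [hΓ]; ring)

/-- number of coincidences -/
noncomputable def DC {ρ : Fin s → Lit n} (hB : ∀ j, (ρ j).1 ∈ B) (R : ℕ) (S : Finset (Cl n)) : ℝ :=
  ∑ a : Br n s R B, ∑ b : Br n s R B,
    if (b ≠ a ∧ en ρ b = en ρ a) ∧ bc hB a ∪ bc hB b ⊆ S then (1 : ℝ) else 0

lemma Ex_DC {ρ : Fin s → Lit n} (hρ : Function.Injective (fun j => (ρ j).1))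
    (hB : ∀ j, (ρ j).1 ∈ B) {p : ℝ} (h0 : 0 ≤ p) (hn : 0 < n) (hp : 2 * n * p ≤ 1)
    {H0 : Finset (Cl n)} (hH : ∀ c ∈ H0, ∀ l ∈ c.1, l.1 ∈ B) :
    Ex p (fun S => I0 H0 S * DC hB R S) ≤ p ^ H0.card * (mu n s R B p * Del2 n s R p) := by
  have : (fun S => I0 H0 S * DC hB R S) =
      fun S => ∑ a : Br n s R B, ∑ b : Br n s R B,
        (if b ≠ a ∧ en ρ b = en ρ a then (1 : ℝ) else 0) * I0 (H0 ∪ (bc hB a ∪ bc hB b)) S := by
    funext S
    unfold DC
    rw [Finset.mul_sum]
    refine Finset.sum_congr rfl fun a _ => ?_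
    rw [Finset.mul_sum]
    refine Finset.sum_congr rfl fun b _ => ?_
    rw [← I0_mul]
    have e : (if (b ≠ a ∧ en ρ b = en ρ a) ∧ bc hB a ∪ bc hB b ⊆ S then (1 : ℝ) else 0) =
        (if b ≠ a ∧ en ρ b = en ρ a then (1 : ℝ) else 0) * I0 (bc hB a ∪ bc hB b) S := by
      unfold I0
      by_cases h1 : b ≠ a ∧ en ρ b = en ρ a
      · by_cases h2 : bc hB a ∪ bc hB b ⊆ S
        · rw [if_pos ⟨h1, h2⟩, if_pos h1, if_pos h2, one_mul]
        · rw [if_neg (fun h => h2 h.2), if_neg h2, mul_zero]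
      · rw [if_neg h1, if_neg (fun h => h1 h.1), zero_mul]
    rw [e]
    ring
  rw [this, Ex_sum]
  unfold mu
  rw [Finset.sum_mul, Finset.mul_sum]
  refine Finset.sum_le_sum fun a _ => ?_
  rw [Ex_sum]
  have h2 : ∀ b : Br n s R B, Ex p (fun S => (if b ≠ a ∧ en ρ b = en ρ a then (1 : ℝ) else 0) *
      I0 (H0 ∪ (bc hB a ∪ bc hB b)) S) = p ^ H0.card * (p ^ ((a.1 : ℕ) + 1) *
      (if b ≠ a ∧ en ρ b = en ρ a then W (om p (Ed (bc hB a))) (path ρ b) else 0)) := by
    intro b
    rw [Ex_mul_left, Ex_I0, card_un hB a b hH, pow_add]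
    have : p ^ (bc hB a ∪ bc hB b).card = p ^ (bc hB a).card * W (om p (Ed (bc hB a))) (path ρ b) :=
      pow_union (VI_path hB b) (bc hB a) p
    rw [this, card_bc]
    split_ifs <;> ring
  rw [Finset.sum_congr rfl (fun b _ => h2 b), ← Finset.mul_sum, ← Finset.mul_sum]
  apply mul_le_mul_of_nonneg_left _ (by positivity)
  apply mul_le_mul_of_nonneg_left _ (by positivity)
  exact coincid hρ hB h0 hn hp a

/-- a set is at most the image plus the number of coincidences -/
lemma card_le_image_add {α β : Type*} [DecidableEq α] [DecidableEq β] (A : Finset α) (f : α → β) :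
    A.card ≤ (A.image f).card + ((A ×ˢ A).filter (fun q => q.2 ≠ q.1 ∧ f q.2 = f q.1)).card := by
  classical
  by_cases hA : A.Nonempty
  · obtain ⟨a0, ha0⟩ := hA
    have hr : ∀ y : β, ∃ r : α, y ∈ A.image f → r ∈ A ∧ f r = y := by
      intro y
      by_cases h : y ∈ A.image f
      · obtain ⟨r, hr, h2⟩ := mem_image.1 h
        exact ⟨r, fun _ => ⟨hr, h2⟩⟩
      · exact ⟨a0, fun h2 => absurd h2 h⟩
    choose r hr using hr
    have h1 : (A.filter (fun a => r (f a) = a)).card ≤ (A.image f).card := by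
      apply Finset.card_le_card_of_injOn f
      · intro a ha
        exact mem_image_of_mem f (mem_filter.1 ha).1
      · intro a ha b hb hab
        have ha' := (mem_filter.1 (Finset.mem_coe.1 ha)).2
        have hb' := (mem_filter.1 (Finset.mem_coe.1 hb)).2
        rw [← ha', ← hb', hab]
    have h2 : (A.filter (fun a => ¬ r (f a) = a)).card ≤
        ((A ×ˢ A).filter (fun q => q.2 ≠ q.1 ∧ f q.2 = f q.1)).card := by
      apply Finset.card_le_card_of_injOn (fun a => (a, r (f a)))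
      · intro a ha
        have ha' := mem_filter.1 (Finset.mem_coe.1 ha)
        have := hr (f a) (mem_image_of_mem f ha'.1)
        simp only [coe_filter, mem_product, Set.mem_ofPred_eq]
        exact ⟨⟨ha'.1, this.1⟩, ha'.2, this.2⟩
      · intro a _ b _ hab
        exact congrArg Prod.fst hab
    have h3 := Finset.card_filter_add_card_filter_not (s := A) (fun a => r (f a) = a)
    omega
  · rw [not_nonempty_iff_eq_empty] at hA
    subst hA
    simp

/-- the endpoints of the branches present in `S` -/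
def EE {ρ : Fin s → Lit n} (hB : ∀ j, (ρ j).1 ∈ B) (R : ℕ) (S : Finset (Cl n)) : Finset (Lit n) :=
  ((univ : Finset (Br n s R B)).filter (fun a => bc hB a ⊆ S)).image (en ρ)

lemma XX_le {ρ : Fin s → Lit n} (hB : ∀ j, (ρ j).1 ∈ B) (S : Finset (Cl n)) :
    XX hB R S ≤ (EE hB R S).card + DC hB R S := by
  have h1 := card_le_image_add ((univ : Finset (Br n s R B)).filter (fun a => bc hB a ⊆ S)) (en ρ)
  have h2 : XX hB R S = ((univ : Finset (Br n s R B)).filter (fun a => bc hB a ⊆ S)).card := by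
    unfold XX
    simp
  have h3 : DC hB R S = (((((univ : Finset (Br n s R B)).filter (fun a => bc hB a ⊆ S)) ×ˢ
      ((univ : Finset (Br n s R B)).filter (fun a => bc hB a ⊆ S)))).filter
      (fun q => q.2 ≠ q.1 ∧ en ρ q.2 = en ρ q.1)).card := by
    unfold DC
    rw [← Finset.sum_product', Finset.card_filter]
    push_cast
    symm
    classical
    refine Finset.sum_subset_zero_on_sdiff (fun q _ => by simp) ?_ ?_
    · intro q hq
      rw [mem_sdiff, mem_product (s := filter _ _), mem_filter, mem_filter] at hq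
      rw [if_neg]
      intro h
      rw [Finset.union_subset_iff] at h
      exact hq.2 ⟨⟨mem_univ _, h.2.1⟩, ⟨mem_univ _, h.2.2⟩⟩
    · intro q hq
      rw [mem_product, mem_filter, mem_filter] at hq
      have h4 : bc hB q.1 ∪ bc hB q.2 ⊆ S := Finset.union_subset hq.1.2 hq.2.2
      by_cases h5 : q.2 ≠ q.1 ∧ en ρ q.2 = en ρ q.1
      · rw [if_pos h5, if_pos ⟨h5, h4⟩]
      · rw [if_neg h5, if_neg (fun h => h5 h.1)]
  rw [h2, h3]
  exact_mod_cast h1

/-- few endpoints are unlikely -/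
lemma Ex_few {ρ : Fin s → Lit n} (hρ : Function.Injective (fun j => (ρ j).1))
    (hB : ∀ j, (ρ j).1 ∈ B) {p : ℝ} (h0 : 0 ≤ p) (h1 : p ≤ 1) (hn : 0 < n) (hp : 2 * n * p ≤ 1)
    {H0 : Finset (Cl n)} (hH : ∀ c ∈ H0, ∀ l ∈ c.1, l.1 ∈ B) (hmu : 0 < mu n s R B p) :
    Ex p (fun S => I0 H0 S * (if ((EE hB R S).card : ℝ) < mu n s R B p / 4 then 1 else 0)) ≤
      p ^ H0.card * (4 * Del1 n s R p / mu n s R B p + 4 * Del2 n s R p) := by
  set μ := mu n s R B p with hμ
  have key : ∀ S, I0 H0 S * (if ((EE hB R S).card : ℝ) < μ / 4 then 1 else 0) ≤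
      (4 / μ ^ 2) * (I0 H0 S * (XX hB R S - μ) ^ 2) + (4 / μ) * (I0 H0 S * DC hB R S) := by
    intro S
    have hI := I0_nonneg H0 S
    have hD : 0 ≤ DC hB R S := by
      unfold DC
      exact Finset.sum_nonneg fun a _ => Finset.sum_nonneg fun b _ => by split_ifs <;> norm_num
    have e : (4 / μ ^ 2) * (I0 H0 S * (XX hB R S - μ) ^ 2) + (4 / μ) * (I0 H0 S * DC hB R S) =
        I0 H0 S * ((4 / μ ^ 2) * (XX hB R S - μ) ^ 2 + (4 / μ) * DC hB R S) := by ring
    rw [e]
    apply mul_le_mul_of_nonneg_left _ hI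
    split_ifs with hc
    · have hX := XX_le (R := R) hB S
      by_cases hx : XX hB R S < μ / 2
      · have : 1 ≤ (4 / μ ^ 2) * (XX hB R S - μ) ^ 2 := by
          rw [div_mul_eq_mul_div, le_div_iff₀ (by positivity)]
          nlinarith
        have : 0 ≤ (4 / μ) * DC hB R S := by positivity
        linarith
      · have hd : μ / 4 ≤ DC hB R S := by linarith
        have : 1 ≤ (4 / μ) * DC hB R S := by
          rw [div_mul_eq_mul_div, le_div_iff₀ hmu]
          linarith
        have : 0 ≤ (4 / μ ^ 2) * (XX hB R S - μ) ^ 2 := by positivity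
        linarith
    · positivity
  refine le_trans (Ex_mono h0 h1 key) ?_
  rw [Ex_add, Ex_mul_left, Ex_mul_left]
  have v1 := Ex_var (R := R) hρ hB h0 h1 hn hp hH
  have v2 := Ex_DC (R := R) hρ hB h0 hn hp hH
  have w1 := mul_le_mul_of_nonneg_left v1 (show 0 ≤ 4 / μ ^ 2 by positivity)
  have w2 := mul_le_mul_of_nonneg_left v2 (show 0 ≤ 4 / μ by positivity)
  rw [← hμ] at w1 w2
  have e1 : 4 / μ ^ 2 * (p ^ H0.card * (μ * Del1 n s R p)) = p ^ H0.card * (4 * Del1 n s R p / μ) := by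
    field_simp
  have e2 : 4 / μ * (p ^ H0.card * (μ * Del2 n s R p)) = p ^ H0.card * (4 * Del2 n s R p) := by
    field_simp
  rw [e1] at w1
  rw [e2] at w2
  linarith

end

end Pool.Agent.Helper88.TS
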