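import Mathlib

/-!
Two mutually reachable vertices of a finite digraph: a cycle through both, or a path with two
back paths.
-/

set_option autoImplicit false
set_option linter.unusedSectionVars false

namespace Pool.Agent.Helper88.TS

variable {V : Type*} {E : V → V → Prop}

/-- walks as sequences -/
def Wk (E : V → V → Prop) (x y : V) (a : ℕ) (f : ℕ → V) : Prop :=
  f 0 = x ∧ f a = y ∧ ∀ t < a, E (f t) (f (t + 1))

lemma exists_walk {x y : V} (h : Relation.ReflTransGen E x y) : ∃ a f, Wk E x y a f := by
  induction h with
  | refl => exact ⟨0, fun _ => x, rfl, rfl, fun t ht => absurd ht (by omega)⟩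
  | tail _ hbc ih =>
    rename_i b c _
    obtain ⟨a, f, h0, h1, h2⟩ := ih
    refine ⟨a + 1, fun t => if t ≤ a then f t else c, ?_, ?_, ?_⟩
    · simp [h0]
    · simp
    · intro t ht
      beta_reduce
      by_cases h3 : t + 1 ≤ a
      · rw [if_pos (by omega), if_pos h3]
        exact h2 t (by omega)
      · obtain rfl : t = a := by omega
        rw [if_pos (le_refl _), if_neg h3, h1]
        exact hbc

/-- injective on an initial segment -/
def In (v : ℕ) (f : ℕ → V) : Prop := ∀ i j, i < v → j < v → f i = f j → i = j

lemma exists_path {x y : V} (h : Relation.ReflTransGen E x y) :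
    ∃ a f, Wk E x y a f ∧ In (a + 1) f := by
  classical
  have hex : ∃ a, ∃ f, Wk E x y a f := exists_walk h
  set a := Nat.find hex with ha
  obtain ⟨f, hf⟩ := Nat.find_spec hex
  rw [← ha] at hf
  refine ⟨a, f, hf, ?_⟩
  have key : ∀ i j, i < j → j ≤ a → f i = f j → False := by
    intro i j hij hja hfij
    obtain ⟨h0, h1, h2⟩ := hf
    have hmin : ¬ ∃ f, Wk E x y (a - (j - i)) f := Nat.find_min hex (by omega)
    apply hmin
    refine ⟨fun t => if t ≤ i then f t else f (t + (j - i)), ?_, ?_, ?_⟩
    · simp [h0]
    · beta_reduce
      by_cases h3 : a - (j - i) ≤ i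
      · rw [if_pos h3]
        have e1 : a - (j - i) = i := by omega
        have e2 : j = a := by omega
        rw [e1, hfij, e2, h1]
      · rw [if_neg h3]
        have e1 : a - (j - i) + (j - i) = a := by omega
        rw [e1, h1]
    · intro t ht
      beta_reduce
      by_cases h3 : t + 1 ≤ i
      · rw [if_pos (by omega), if_pos h3]
        exact h2 t (by omega)
      · by_cases h4 : t = i
        · subst h4
          rw [if_pos (le_refl _), if_neg h3, hfij]
          have e1 : t + 1 + (j - t) = j + 1 := by omega
          rw [e1]
          exact h2 j (by omega)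
        · rw [if_neg (by omega), if_neg h3]
          have e1 : t + 1 + (j - i) = t + (j - i) + 1 := by omega
          rw [e1]
          exact h2 _ (by omega)
  intro i j hi hj hij
  rcases lt_trichotomy i j with h1 | h1 | h1
  · exact (key i j h1 (by omega) hij).elim
  · exact h1
  · exact (key j i h1 (by omega) hij.symm).elim

/-- a cycle -/
def TA (E : V → V → Prop) (f : ℕ → V) (v a : ℕ) : Prop :=
  1 ≤ a ∧ a < v ∧ In v f ∧ (∀ t, t + 1 < v → E (f t) (f (t + 1))) ∧ E (f (v - 1)) (f 0)

/-- a path with two back paths -/
def TB (E : V → V → Prop) (f : ℕ → V) (v a b k j : ℕ) : Prop :=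
  1 ≤ a ∧ a ≤ b ∧ b < v ∧ 1 ≤ k ∧ k < b ∧ 1 ≤ j ∧ j < b ∧ In v f ∧
  (∀ t < b, E (f t) (f (t + 1))) ∧ E (f b) (f j) ∧
  (∀ t, b + 1 ≤ t → t + 1 < v → E (f t) (f (t + 1))) ∧
  (b + 1 < v → E (f k) (f (b + 1))) ∧ E (f (if b + 1 < v then v - 1 else k)) (f 0)

theorem structure_thm {x y : V} (hxy : x ≠ y) (h1 : Relation.ReflTransGen E x y)
    (h2 : Relation.ReflTransGen E y x) :
    (∃ f v a, f 0 = x ∧ f a = y ∧ TA E f v a) ∨
    (∃ f v a b k j, f 0 = x ∧ f a = y ∧ TB E f v a b k j) := by
  classical
  obtain ⟨a, f, ⟨f0, fa, fE⟩, fI⟩ := exists_path h1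
  obtain ⟨c, z, ⟨z0, zc, zE⟩, zI⟩ := exists_path h2
  have ha : 1 ≤ a := by
    rcases Nat.eq_zero_or_pos a with h | h
    · exfalso; apply hxy; rw [← f0, ← fa, h]
    · exact h
  have hc : 1 ≤ c := by
    rcases Nat.eq_zero_or_pos c with h | h
    · exfalso; apply hxy; rw [← z0, ← zc, h]
    · exact h
  have hex : ∃ i, 1 ≤ i ∧ i ≤ c ∧ ∃ j ≤ a, z i = f j := ⟨c, hc, le_refl _, 0, by omega, by rw [zc, f0]⟩
  set i := Nat.find hex with hi
  obtain ⟨hi1, hic, j, hja, hzj⟩ := Nat.find_spec hex
  rw [← hi] at hi1 hic hzj
  have hmin : ∀ t, 1 ≤ t → t < i → ∀ u ≤ a, z t ≠ f u := by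
    intro t ht hti u hu hzu
    exact Nat.find_min hex (hi ▸ hti) ⟨ht, by omega, u, hu, hzu⟩
  have hj_ne : j ≠ a := by
    intro h
    have : z i = z 0 := by rw [hzj, h, fa, z0]
    have := zI i 0 (by omega) (by omega) this
    omega
  by_cases hj : j = 0
  · left
    have hic' : i = c := by
      have : z i = z c := by rw [hzj, hj, f0, zc]
      exact zI i c (by omega) (by omega) this
    refine ⟨fun t => if t ≤ a then f t else z (t - a), a + c, a, ?_, ?_, ha, by omega, ?_, ?_, ?_⟩
    · simp [f0]
    · simp [fa]
    · intro t1 t2 ht1 ht2 h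
      beta_reduce at h
      by_cases c1 : t1 ≤ a <;> by_cases c2 : t2 ≤ a
      · rw [if_pos c1, if_pos c2] at h
        exact fI t1 t2 (by omega) (by omega) h
      · rw [if_pos c1, if_neg c2] at h
        exact absurd h.symm (hmin (t2 - a) (by omega) (by omega) t1 c1)
      · rw [if_neg c1, if_pos c2] at h
        exact absurd h (hmin (t1 - a) (by omega) (by omega) t2 c2)
      · rw [if_neg c1, if_neg c2] at h
        have := zI (t1 - a) (t2 - a) (by omega) (by omega) h
        omega
    · intro t ht
      beta_reduce
      by_cases c1 : t + 1 ≤ a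
      · rw [if_pos (by omega), if_pos c1]
        exact fE t (by omega)
      · by_cases c2 : t = a
        · rw [if_pos (by omega), if_neg c1, c2, fa, ← z0]
          have : a + 1 - a = 0 + 1 := by omega
          rw [this]
          exact zE 0 (by omega)
        · rw [if_neg (by omega), if_neg c1]
          have : t + 1 - a = t - a + 1 := by omega
          rw [this]
          exact zE _ (by omega)
    · beta_reduce
      rw [if_pos (Nat.zero_le _), f0, ← zc]
      by_cases c1 : a + c - 1 ≤ a
      · have e : a + c - 1 = a := by omega
        have e2 : c = 0 + 1 := by omega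
        rw [if_pos c1, e, fa, ← z0, e2]
        exact zE 0 (by omega)
      · rw [if_neg c1]
        have e : a + c - 1 - a = c - 1 := by omega
        have e2 : c = (c - 1) + 1 := by omega
        rw [e]
        have := zE (c - 1) (by omega)
        rwa [← e2] at this
  · right
    have hic' : i < c := by
      rcases Nat.lt_or_ge i c with h | h
      · exact h
      · exfalso
        have e : i = c := by omega
        have : f j = f 0 := by rw [← hzj, e, zc, f0]
        exact hj (fI j 0 (by omega) (by omega) this)
    set P : ℕ → Prop := fun l => ∃ k ≤ a, z l = f k with hP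
    set l := Nat.findGreatest P (c - 1) with hl
    have hPi : P i := ⟨j, hja, hzj⟩
    have hil : i ≤ l := Nat.le_findGreatest (by omega) hPi
    have hlc : l ≤ c - 1 := Nat.findGreatest_le _
    have hPl : P l := Nat.findGreatest_spec (P := P) (m := i) (by omega) hPi
    have hgr : ∀ t, l < t → t ≤ c - 1 → ∀ u ≤ a, z t ≠ f u := by
      intro t ht htc u hu hzu
      exact Nat.findGreatest_is_greatest (P := P) ht htc ⟨u, hu, hzu⟩
    obtain ⟨k, hka, hzk⟩ := hPl
    have hk0 : k ≠ 0 := by
      intro h
      have : z l = z c := by rw [hzk, h, f0, zc]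
      have := zI l c (by omega) (by omega) this
      omega
    have hk_ne : k ≠ a := by
      intro h
      have : z l = z 0 := by rw [hzk, h, fa, z0]
      have := zI l 0 (by omega) (by omega) this
      omega
    set b := a + i - 1 with hb
    refine ⟨fun t => if t ≤ a then f t else if t ≤ b then z (t - a) else z (l + (t - b)),
      b + c - l, a, b, k, j, ?_, ?_, ha, by omega, by omega, by omega, by omega, by omega, by omega,
      ?_, ?_, ?_, ?_, ?_, ?_⟩
    · simp [f0]
    · simp [fa]
    · intro t1 t2 ht1 ht2 h
      beta_reduce at h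
      by_cases c1 : t1 ≤ a <;> by_cases c2 : t2 ≤ a
      · rw [if_pos c1, if_pos c2] at h
        exact fI t1 t2 (by omega) (by omega) h
      · rw [if_pos c1, if_neg c2] at h
        by_cases c3 : t2 ≤ b
        · rw [if_pos c3] at h
          exact absurd h.symm (hmin (t2 - a) (by omega) (by omega) t1 c1)
        · rw [if_neg c3] at h
          exact absurd h.symm (hgr _ (by omega) (by omega) t1 c1)
      · rw [if_neg c1, if_pos c2] at h
        by_cases c3 : t1 ≤ b
        · rw [if_pos c3] at h
          exact absurd h (hmin (t1 - a) (by omega) (by omega) t2 c2)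
        · rw [if_neg c3] at h
          exact absurd h (hgr _ (by omega) (by omega) t2 c2)
      · rw [if_neg c1, if_neg c2] at h
        by_cases c3 : t1 ≤ b <;> by_cases c4 : t2 ≤ b
        · rw [if_pos c3, if_pos c4] at h
          have := zI _ _ (by omega) (by omega) h
          omega
        · rw [if_pos c3, if_neg c4] at h
          have := zI _ _ (by omega) (by omega) h
          omega
        · rw [if_neg c3, if_pos c4] at h
          have := zI _ _ (by omega) (by omega) h
          omega
        · rw [if_neg c3, if_neg c4] at h
          have := zI _ _ (by omega) (by omega) h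
          omega
    · intro t ht
      beta_reduce
      by_cases c1 : t + 1 ≤ a
      · rw [if_pos (by omega), if_pos c1]
        exact fE t (by omega)
      · by_cases c2 : t = a
        · rw [if_pos (by omega), if_neg c1, if_pos (by omega), c2, fa, ← z0]
          have : a + 1 - a = 0 + 1 := by omega
          rw [this]
          exact zE 0 (by omega)
        · rw [if_neg (by omega), if_pos (by omega), if_neg c1, if_pos (by omega)]
          have : t + 1 - a = t - a + 1 := by omega
          rw [this]
          exact zE _ (by omega)
    · beta_reduce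
      rw [if_pos (show j ≤ a by omega), ← hzj]
      by_cases c1 : b ≤ a
      · have e : b = a := by omega
        have e2 : i = 0 + 1 := by omega
        rw [if_pos c1, e, fa, ← z0, e2]
        exact zE 0 (by omega)
      · rw [if_neg c1, if_pos (le_refl _)]
        have e : b - a = i - 1 := by omega
        have e2 : i = (i - 1) + 1 := by omega
        rw [e]
        have := zE (i - 1) (by omega)
        rwa [← e2] at this
    · intro t ht1 ht2
      beta_reduce
      rw [if_neg (by omega), if_neg (by omega), if_neg (by omega), if_neg (by omega)]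
      have : l + (t + 1 - b) = l + (t - b) + 1 := by omega
      rw [this]
      exact zE _ (by omega)
    · intro hbv
      beta_reduce
      rw [if_pos (show k ≤ a by omega), if_neg (by omega), if_neg (by omega), ← hzk]
      have : l + (b + 1 - b) = l + 1 := by omega
      rw [this]
      exact zE _ (by omega)
    · beta_reduce
      rw [if_pos (Nat.zero_le a), f0, ← zc]
      have hcc := zE (c - 1) (by omega)
      have ecc : c - 1 + 1 = c := by omega
      rw [ecc] at hcc
      by_cases c1 : b + 1 < b + c - l
      · rw [if_pos c1, if_neg (by omega), if_neg (by omega)]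
        have : l + (b + c - l - 1 - b) = c - 1 := by omega
        rw [this]
        exact hcc
      · rw [if_neg c1, if_pos (show k ≤ a by omega), ← hzk]
        have : l = c - 1 := by omega
        rw [this]
        exact hcc

end Pool.Agent.Helper88.TS
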