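import Pool.Agent.Helper88.TS.Cnt

/-!
The final step: along `n = (100 R) ^ 3` the probability stays away from one.
-/

set_option autoImplicit false
set_option linter.unusedSectionVars false

open Finset

namespace Pool.Agent.Helper88.TS

variable {n : ℕ}

/-- the event of the problem -/
def Ev (e : Fin (Nat.card (Cl n)) ≃ Cl n) : Prop :=
  ∃ m : ℕ,
    (∀ j : ℕ, j < m → ∃ a : Fin n → Bool,
      ∀ c : Cl n, ((e.symm c : Fin _) : ℕ) < j → ∃ l ∈ c.val, a l.1 = l.2) ∧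
    ∃ H : Finset (Cl n),
      H.Nonempty ∧
      (∀ c ∈ H, ((e.symm c : Fin _) : ℕ) < m) ∧
      ∃ a : Fin n → Bool,
        (∀ c ∈ H, ∃ l ∈ c.val, a l.1 = l.2) ∧
        ∀ b : Fin n → Bool, (∀ c ∈ H, ∃ l ∈ c.val, b l.1 = l.2) →
          ∀ i : Fin n, (∃ c ∈ H, ∃ l ∈ c.val, l.1 = i) → b i = a i

lemma Ev_cases (m0 : ℕ) (e : Fin (Nat.card (Cl n)) ≃ Cl n) (h : Ev e) :
    ¬ Un (F e m0) ∨ UQ (F e m0) := by
  by_cases hU : Un (F e m0)
  · right
    obtain ⟨m, hm, H, hne, hHm, a, ha, hab⟩ := h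
    have hmm : m ≤ m0 := by
      by_contra hlt
      obtain ⟨a', ha'⟩ := hm m0 (by omega)
      apply hU
      refine ⟨a', fun c hc => ?_⟩
      exact ha' c ((mem_F e m0 c).1 hc)
    refine ⟨H, ?_, hne, a, ha, hab⟩
    intro c hc
    rw [mem_F]
    exact lt_of_lt_of_le (hHm c hc) hmm
  · left; exact hU

open scoped Classical in
lemma ratio_le (m0 : ℕ) (hn : 0 < Nat.card (Fin (Nat.card (Cl n)) ≃ Cl n)) :
    (Nat.card {e : Fin (Nat.card (Cl n)) ≃ Cl n // Ev e} : ℝ) /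
      (Nat.card (Fin (Nat.card (Cl n)) ≃ Cl n) : ℝ) ≤
    1 - U (Nat.card (Cl n)) (Un (n := n)) m0 + U (Nat.card (Cl n)) (UQ (n := n)) m0 := by
  have e1 : (Nat.card {e : Fin (Nat.card (Cl n)) ≃ Cl n // Ev e} : ℝ) =
      ∑ e : Fin (Nat.card (Cl n)) ≃ Cl n, if Ev e then (1 : ℝ) else 0 := by
    rw [Nat.card_eq_fintype_card, Fintype.card_subtype]
    simp
  have e2 : (Nat.card (Fin (Nat.card (Cl n)) ≃ Cl n) : ℝ) =
      Fintype.card (Fin (Nat.card (Cl n)) ≃ Cl n) := by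
    rw [Nat.card_eq_fintype_card]
  have hpos : (0 : ℝ) < Fintype.card (Fin (Nat.card (Cl n)) ≃ Cl n) := by
    rw [← e2]; exact_mod_cast hn
  rw [e1, e2]
  unfold U
  rw [div_le_iff₀ hpos]
  have e3 : (1 - (∑ e : Fin (Nat.card (Cl n)) ≃ Cl n, if Un (F e m0) then (1 : ℝ) else 0) /
      Fintype.card (Fin (Nat.card (Cl n)) ≃ Cl n) +
      (∑ e : Fin (Nat.card (Cl n)) ≃ Cl n, if UQ (F e m0) then (1 : ℝ) else 0) /
      Fintype.card (Fin (Nat.card (Cl n)) ≃ Cl n)) * Fintype.card (Fin (Nat.card (Cl n)) ≃ Cl n) =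
      ∑ e : Fin (Nat.card (Cl n)) ≃ Cl n, (1 - (if Un (F e m0) then (1 : ℝ) else 0) +
        (if UQ (F e m0) then (1 : ℝ) else 0)) := by
    rw [Finset.sum_add_distrib, Finset.sum_sub_distrib, Finset.sum_const, card_univ]
    field_simp
    simp
  rw [e3]
  refine Finset.sum_le_sum fun e _ => ?_
  by_cases he : Ev e
  · rw [if_pos he]
    rcases Ev_cases m0 e he with h | h
    · rw [if_neg h]
      have : (0 : ℝ) ≤ if UQ (F e m0) then (1 : ℝ) else 0 := by split_ifs <;> norm_num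
      linarith
    · rw [if_pos h]
      have : (if Un (F e m0) then (1 : ℝ) else 0) ≤ 1 := by split_ifs <;> norm_num
      linarith
  · rw [if_neg he]
    have : (0 : ℝ) ≤ if UQ (F e m0) then (1 : ℝ) else 0 := by split_ifs <;> norm_num
    have : (if Un (F e m0) then (1 : ℝ) else 0) ≤ 1 := by split_ifs <;> norm_num
    linarith

theorem main : ¬ Filter.Tendsto (fun n : ℕ =>
    (Nat.card {e : Fin (Nat.card (Cl n)) ≃ Cl n // Ev e} : ℝ) /
      (Nat.card (Fin (Nat.card (Cl n)) ≃ Cl n) : ℝ)) Filter.atTop (nhds 1) := by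
  classical
  intro h
  obtain ⟨c, hc, R0, hR0⟩ := unsat_lower
  have h1 : Filter.Tendsto (fun R : ℕ => (100 * R) ^ 3) Filter.atTop Filter.atTop := by
    apply Filter.tendsto_atTop_mono (f := fun R : ℕ => R) _ Filter.tendsto_id
    intro R
    show R ≤ (100 * R) ^ 3
    calc R ≤ 100 * R := by omega
      _ ≤ (100 * R) ^ 3 := Nat.le_self_pow (by norm_num) _
  have h2 := h.comp h1
  have h3 : ∀ᶠ R : ℕ in Filter.atTop, 1 - c / 2 <
      (Nat.card {e : Fin (Nat.card (Cl ((100 * R) ^ 3))) ≃ Cl ((100 * R) ^ 3) // Ev e} : ℝ) /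
      (Nat.card (Fin (Nat.card (Cl ((100 * R) ^ 3))) ≃ Cl ((100 * R) ^ 3)) : ℝ) :=
    h2.eventually (lt_mem_nhds (by linarith))
  obtain ⟨R1, hR1⟩ := exists_nat_gt (776 / c)
  obtain ⟨R, hR, hRR0, hRR1, hRpos⟩ := (h3.and ((Filter.eventually_ge_atTop R0).and
    ((Filter.eventually_ge_atTop R1).and (Filter.eventually_ge_atTop 1)))).exists
  have hN : Nat.card (Cl ((100 * R) ^ 3)) = Fintype.card (Cl ((100 * R) ^ 3)) :=
    Nat.card_eq_fintype_card
  have hpos : 0 < Nat.card (Fin (Nat.card (Cl ((100 * R) ^ 3))) ≃ Cl ((100 * R) ^ 3)) := by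
    rw [Nat.card_eq_fintype_card, Fintype.card_pos_iff]
    rw [hN]
    exact ⟨(Fintype.equivFin _).symm⟩
  have k1 := ratio_le (n := (100 * R) ^ 3) ((100 * R) ^ 3 - (100 * R) ^ 2) hpos
  have k2 := hR0 R hRR0 _ hN
  have k3 := uniq_upper (s := 100 * R) (by omega) hN
  have k4 : (388 : ℝ) / ((100 * R : ℕ) : ℝ) ≤ c / 2 := by
    have a1 : (R1 : ℝ) ≤ R := by exact_mod_cast hRR1
    have a2 : (1 : ℝ) ≤ R := by exact_mod_cast hRpos
    rw [div_lt_iff₀ hc] at hR1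
    push_cast
    rw [div_le_div_iff₀ (by linarith) (by norm_num)]
    nlinarith
  linarith

end Pool.Agent.Helper88.TS
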