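import Mathlib

/-!
Total weights of walks for a kernel on a finite type.
-/

set_option autoImplicit false
set_option linter.unusedSectionVars false

open Finset

namespace Pool.Agent.Helper88.TS

section Walk
variable {L : Type*} [Fintype L] [DecidableEq L]

/-- total weight of the walks of length `t` from `z` -/
noncomputable def G (K : L → L → ℝ) : ℕ → L → ℝ
  | 0, _ => 1
  | t + 1, z => ∑ z', K z z' * G K t z'

/-- total weight of the walks of length `t` from `z` to `y` -/
noncomputable def Cc (K : L → L → ℝ) : ℕ → L → L → ℝ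
  | 0, z, y => if z = y then 1 else 0
  | t + 1, z, y => ∑ z', K z z' * Cc K t z' y

lemma G_zero (K : L → L → ℝ) (z : L) : G K 0 z = 1 := rfl
lemma G_succ (K : L → L → ℝ) (t : ℕ) (z : L) : G K (t + 1) z = ∑ z', K z z' * G K t z' := rfl
lemma Cc_zero (K : L → L → ℝ) (z y : L) : Cc K 0 z y = if z = y then 1 else 0 := rfl
lemma Cc_succ (K : L → L → ℝ) (t : ℕ) (z y : L) :
    Cc K (t + 1) z y = ∑ z', K z z' * Cc K t z' y := rfl

lemma G_nonneg {K : L → L → ℝ} (hK : ∀ y z, 0 ≤ K y z) (t : ℕ) : ∀ z, 0 ≤ G K t z := by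
  induction t with
  | zero => intro z; rw [G_zero]; norm_num
  | succ t ih => intro z; rw [G_succ]; exact Finset.sum_nonneg fun z' _ => mul_nonneg (hK _ _) (ih z')

lemma Cc_nonneg {K : L → L → ℝ} (hK : ∀ y z, 0 ≤ K y z) (t : ℕ) : ∀ z y, 0 ≤ Cc K t z y := by
  induction t with
  | zero => intro z y; rw [Cc_zero]; split_ifs <;> norm_num
  | succ t ih =>
    intro z y; rw [Cc_succ]; exact Finset.sum_nonneg fun z' _ => mul_nonneg (hK _ _) (ih z' y)

lemma sum_Cc (K : L → L → ℝ) (t : ℕ) : ∀ z, ∑ y, Cc K t z y = G K t z := by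
  induction t with
  | zero => intro z; simp [Cc_zero, G_zero]
  | succ t ih =>
    intro z
    simp only [Cc_succ, G_succ]
    rw [Finset.sum_comm]
    refine Finset.sum_congr rfl fun z' _ => ?_
    rw [← Finset.mul_sum, ih]

lemma Cc_succ' (K : L → L → ℝ) (t : ℕ) : ∀ z y,
    Cc K (t + 1) z y = ∑ z', Cc K t z z' * K z' y := by
  induction t with
  | zero => intro z y; simp [Cc_succ, Cc_zero]
  | succ t ih =>
    intro z y
    calc Cc K (t + 1 + 1) z y = ∑ a, K z a * ∑ b, Cc K t a b * K b y := by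
          rw [Cc_succ]
          exact Finset.sum_congr rfl fun a _ => by rw [ih]
      _ = ∑ b, (∑ a, K z a * Cc K t a b) * K b y := by
          simp only [Finset.mul_sum, Finset.sum_mul]
          rw [Finset.sum_comm]
          exact Finset.sum_congr rfl fun b _ => Finset.sum_congr rfl fun a _ => by ring
      _ = _ := Finset.sum_congr rfl fun b _ => by rw [Cc_succ]

/-- a kernel that is invariant under the reversal given by an involution -/
lemma Cc_symm {K : L → L → ℝ} (ν : L ≃ L) (hν : ∀ y z, K (ν z) (ν y) = K y z) (t : ℕ) :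
    ∀ z y, Cc K t (ν y) (ν z) = Cc K t z y := by
  induction t with
  | zero =>
    intro z y
    simp only [Cc_zero, EmbeddingLike.apply_eq_iff_eq]
    simp only [eq_comm]
  | succ t ih =>
    intro z y
    rw [Cc_succ', Cc_succ, ← ν.sum_comp]
    refine Finset.sum_congr rfl fun z' _ => ?_
    rw [ih, hν, mul_comm]

lemma sum_Cc_left {K : L → L → ℝ} (ν : L ≃ L) (hν : ∀ y z, K (ν z) (ν y) = K y z) (t : ℕ) (y : L) :
    ∑ z, Cc K t z y = G K t (ν y) := by
  rw [← sum_Cc K t (ν y), ← ν.sum_comp (fun w => Cc K t (ν y) w)]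
  exact Finset.sum_congr rfl fun z _ => (Cc_symm ν hν t z y).symm

/-- weight of a sequence of `t + 1` points -/
def W {M : Type*} [CommMonoid M] (K : L → L → M) {t : ℕ} (f : Fin (t + 1) → L) : M :=
  ∏ i : Fin t, K (f i.castSucc) (f i.succ)

lemma W_cons {M : Type*} [CommMonoid M] (K : L → L → M) {t : ℕ} (z : L) (f : Fin (t + 1) → L) :
    W K (Fin.cons z f : Fin (t + 2) → L) = K z (f 0) * W K f := by
  unfold W
  rw [Fin.prod_univ_succ]
  rfl

lemma sum_fun_succ {M : Type*} [AddCommMonoid M] {t : ℕ} (h : (Fin (t + 1) → L) → M) :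
    ∑ g : Fin (t + 1) → L, h g = ∑ z : L, ∑ g : Fin t → L, h (Fin.cons z g) := by
  rw [← (Fin.consEquiv (fun _ : Fin (t + 1) => L)).sum_comp, Fintype.sum_prod_type]
  rfl

lemma sum_W (K : L → L → ℝ) (t : ℕ) : ∀ z : L,
    ∑ g : Fin t → L, W K (Fin.cons z g : Fin (t + 1) → L) = G K t z := by
  induction t with
  | zero => intro z; simp [W, G_zero]
  | succ t ih =>
    intro z
    rw [sum_fun_succ, G_succ]
    refine Finset.sum_congr rfl fun z' _ => ?_
    rw [← ih z', Finset.mul_sum]
    refine Finset.sum_congr rfl fun g _ => ?_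
    rw [W_cons]
    rfl

lemma sum_W_end (K : L → L → ℝ) (t : ℕ) : ∀ z y : L,
    ∑ g : Fin t → L, (W K (Fin.cons z g : Fin (t + 1) → L) *
      if (Fin.cons z g : Fin (t + 1) → L) (Fin.last t) = y then 1 else 0) = Cc K t z y := by
  induction t with
  | zero => intro z y; simp [W, Cc_zero]
  | succ t ih =>
    intro z y
    rw [sum_fun_succ, Cc_succ]
    refine Finset.sum_congr rfl fun z' _ => ?_
    rw [← ih z', Finset.mul_sum]
    refine Finset.sum_congr rfl fun g _ => ?_
    rw [W_cons, mul_assoc]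
    congr 2

lemma sum_W_all (K : L → L → ℝ) (t : ℕ) :
    ∑ f : Fin (t + 1) → L, W K f = ∑ z, G K t z := by
  rw [sum_fun_succ]
  exact Finset.sum_congr rfl fun z _ => sum_W K t z

/-- the kernel: `1` on a relation, `p` off it -/
noncomputable def om (p : ℝ) (E : L → L → Prop) [DecidableRel E] (y z : L) : ℝ := if E y z then 1 else p

/-- the indicator kernel -/
noncomputable def ind (E : L → L → Prop) [DecidableRel E] (y z : L) : ℝ := if E y z then 1 else 0

section bounds
variable {p : ℝ} {E : L → L → Prop} [DecidableRel E]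

lemma om_nonneg (h0 : 0 ≤ p) (y z : L) : 0 ≤ om p E y z := by
  unfold om; split_ifs <;> [norm_num; exact h0]

lemma ind_nonneg (y z : L) : 0 ≤ ind E y z := by
  unfold ind; split_ifs <;> norm_num

lemma om_le (h0 : 0 ≤ p) (y z : L) : om p E y z ≤ p + ind E y z := by
  unfold om ind; split_ifs <;> linarith

/-- with at most one successor -/
lemma ind_sum_le (hE : ∀ y z z', E y z → E y z' → z = z') {a : L → ℝ} {B : ℝ} (hB : 0 ≤ B)
    (ha : ∀ z, a z ≤ B) (y : L) : ∑ z, ind E y z * a z ≤ B := by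
  by_cases h : ∃ z, E y z
  · obtain ⟨z0, hz0⟩ := h
    rw [Finset.sum_eq_single z0]
    · unfold ind; rw [if_pos hz0, one_mul]; exact ha z0
    · intro z _ hz
      unfold ind
      rw [if_neg (fun h => hz (hE y z z0 h hz0)), zero_mul]
    · intro h; exact absurd (Finset.mem_univ _) h
  · push Not at h
    rw [Finset.sum_eq_zero]
    · exact hB
    · intro z _
      unfold ind
      rw [if_neg (h z), zero_mul]

/-- without successor -/
lemma ind_sum_zero {a : L → ℝ} {y : L} (h : ∀ z, ¬ E y z) : ∑ z, ind E y z * a z = 0 := by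
  rw [Finset.sum_eq_zero]
  intro z _
  unfold ind
  rw [if_neg (h z), zero_mul]

lemma om_sum_le (h0 : 0 ≤ p) {a : L → ℝ} (ha : ∀ z, 0 ≤ a z) (y : L) :
    ∑ z, om p E y z * a z ≤ p * ∑ z, a z + ∑ z, ind E y z * a z := by
  rw [Finset.mul_sum, ← Finset.sum_add_distrib]
  refine Finset.sum_le_sum fun z _ => ?_
  rw [← add_mul]
  exact mul_le_mul_of_nonneg_right (om_le h0 y z) (ha z)

/-- total weight of the walks of length `t` -/
noncomputable def SS (p : ℝ) (E : L → L → Prop) [DecidableRel E] (t : ℕ) : ℝ := ∑ z, G (om p E) t z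

lemma SS_nonneg (h0 : 0 ≤ p) (t : ℕ) : 0 ≤ SS p E t :=
  Finset.sum_nonneg fun z _ => G_nonneg (om_nonneg h0) t z

lemma G_le (h0 : 0 ≤ p) (hE : ∀ y z z', E y z → E y z' → z = z') (t : ℕ) :
    ∀ z, G (om p E) t z ≤ 1 + p * ∑ u ∈ range t, SS p E u := by
  induction t with
  | zero => intro z; simp [G_zero]
  | succ t ih =>
    intro z
    rw [G_succ]
    refine le_trans (om_sum_le h0 (G_nonneg (om_nonneg h0) t) z) ?_
    have hB : 0 ≤ 1 + p * ∑ u ∈ range t, SS p E u := by
      have : 0 ≤ ∑ u ∈ range t, SS p E u := Finset.sum_nonneg fun u _ => SS_nonneg h0 u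
      positivity
    have := ind_sum_le hE hB ih z
    rw [Finset.sum_range_succ]
    have e : ∑ z, G (om p E) t z = SS p E t := rfl
    rw [e]
    linarith

lemma G_succ_le (h0 : 0 ≤ p) {z : L} (hz : ∀ z', ¬ E z z') (t : ℕ) :
    G (om p E) (t + 1) z ≤ p * SS p E t := by
  rw [G_succ]
  refine le_trans (om_sum_le h0 (G_nonneg (om_nonneg h0) t) z) ?_
  rw [ind_sum_zero hz, add_zero]
  exact le_refl _

lemma SS_succ_le (h0 : 0 ≤ p) (hE : ∀ y z z', E y z → E y z' → z = z') {V : Finset L}
    (hV : ∀ y z, E y z → y ∈ V) (t : ℕ) :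
    SS p E (t + 1) ≤ Fintype.card L * p * SS p E t + V.card * (1 + p * ∑ u ∈ range t, SS p E u) := by
  have hB : 0 ≤ 1 + p * ∑ u ∈ range t, SS p E u := by
    have : 0 ≤ ∑ u ∈ range t, SS p E u := Finset.sum_nonneg fun u _ => SS_nonneg h0 u
    positivity
  have h1 : ∀ z, G (om p E) (t + 1) z ≤ p * SS p E t +
      if z ∈ V then (1 + p * ∑ u ∈ range t, SS p E u) else 0 := by
    intro z
    rw [G_succ]
    refine le_trans (om_sum_le h0 (G_nonneg (om_nonneg h0) t) z) ?_
    split_ifs with hz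
    · have := ind_sum_le hE hB (G_le h0 hE t) z
      have e : ∑ z, G (om p E) t z = SS p E t := rfl
      rw [e]
      linarith
    · rw [ind_sum_zero (fun z' h => hz (hV z z' h))]
      exact le_refl _
  calc SS p E (t + 1) = ∑ z, G (om p E) (t + 1) z := rfl
    _ ≤ ∑ z, (p * SS p E t + if z ∈ V then (1 + p * ∑ u ∈ range t, SS p E u) else 0) :=
        Finset.sum_le_sum fun z _ => h1 z
    _ = _ := by
        rw [Finset.sum_add_distrib]
        simp only [Finset.sum_const, card_univ, nsmul_eq_mul, Finset.sum_ite_mem, univ_inter]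
        ring

/-- the growth factor -/
noncomputable def bet (p : ℝ) (N0 κ : ℝ) (T : ℕ) : ℝ := 1 + κ * (1 / N0 + p * T)

lemma one_le_bet (h0 : 0 ≤ p) {N0 κ : ℝ} (hN : 0 < N0) (hκ : 0 ≤ κ) (T : ℕ) : 1 ≤ bet p N0 κ T := by
  unfold bet
  have : 0 ≤ κ * (1 / N0 + p * T) := by positivity
  linarith

lemma SS_le (h0 : 0 ≤ p) (hE : ∀ y z z', E y z → E y z' → z = z') {V : Finset L}
    (hV : ∀ y z, E y z → y ∈ V) {κ : ℝ} (hκ : (V.card : ℝ) ≤ κ) [Nonempty L]
    (hp : Fintype.card L * p ≤ 1) {T t : ℕ} (ht : t ≤ T) :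
    SS p E t ≤ Fintype.card L * bet p (Fintype.card L) κ T ^ t := by
  have hN : (0 : ℝ) < Fintype.card L := by exact_mod_cast Fintype.card_pos
  have hκ0 : 0 ≤ κ := le_trans (by positivity) hκ
  set N0 : ℝ := (Fintype.card L : ℝ) with hN0
  set β := bet p N0 κ T with hβ
  have hβ1 : 1 ≤ β := one_le_bet h0 hN hκ0 T
  have key : ∀ t ≤ T, (∀ u ≤ t, SS p E u ≤ N0 * β ^ u) := by
    intro t
    induction t with
    | zero =>
      intro _ u hu
      obtain rfl : u = 0 := by omega
      simp [SS, G_zero, hN0]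
    | succ t ih =>
      intro htT u hu
      have ih' := ih (by omega)
      rcases Nat.lt_or_ge u (t + 1) with h | h
      · exact ih' u (by omega)
      · obtain rfl : u = t + 1 := by omega
        refine le_trans (SS_succ_le h0 hE hV t) ?_
        have h1 : ∑ u ∈ range t, SS p E u ≤ T * (N0 * β ^ t) := by
          calc ∑ u ∈ range t, SS p E u ≤ ∑ u ∈ range t, N0 * β ^ t := by
                refine Finset.sum_le_sum fun u hu => ?_
                have hut : u ≤ t := (Finset.mem_range.1 hu).le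
                refine le_trans (ih' u hut) ?_
                exact mul_le_mul_of_nonneg_left (pow_le_pow_right₀ hβ1 hut) hN.le
            _ = t * (N0 * β ^ t) := by simp
            _ ≤ _ := by
                apply mul_le_mul_of_nonneg_right _ (by positivity)
                exact_mod_cast (by omega : t ≤ T)
        have h2 : N0 * p * SS p E t ≤ N0 * β ^ t := by
          calc N0 * p * SS p E t ≤ 1 * SS p E t := mul_le_mul_of_nonneg_right hp (SS_nonneg h0 t)
            _ = SS p E t := one_mul _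
            _ ≤ _ := ih' t le_rfl
        have h3 : (V.card : ℝ) * (1 + p * ∑ u ∈ range t, SS p E u) ≤
            κ * (β ^ t + p * (T * (N0 * β ^ t))) := by
          apply mul_le_mul hκ _ _ hκ0
          · have : (1 : ℝ) ≤ β ^ t := one_le_pow₀ hβ1
            have h5 := mul_le_mul_of_nonneg_left h1 h0
            linarith
          · have : 0 ≤ ∑ u ∈ range t, SS p E u := Finset.sum_nonneg fun u _ => SS_nonneg h0 u
            positivity
        have h4 : N0 * β ^ (t + 1) = N0 * β ^ t + κ * (β ^ t + p * (T * (N0 * β ^ t))) := by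
          rw [pow_succ]
          have : β = 1 + κ * (1 / N0 + p * T) := rfl
          nth_rewrite 2 [this]
          field_simp
        rw [h4]
        linarith
  exact key t ht t le_rfl

lemma SS_sum_le (h0 : 0 ≤ p) (hE : ∀ y z z', E y z → E y z' → z = z') {V : Finset L}
    (hV : ∀ y z, E y z → y ∈ V) {κ : ℝ} (hκ : (V.card : ℝ) ≤ κ) [Nonempty L]
    (hp : Fintype.card L * p ≤ 1) {T t : ℕ} (ht : t ≤ T) :
    1 + p * ∑ u ∈ range t, SS p E u ≤ 1 + T * bet p (Fintype.card L) κ T ^ T := by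
  have hN : (0 : ℝ) < Fintype.card L := by exact_mod_cast Fintype.card_pos
  have hκ0 : 0 ≤ κ := le_trans (by positivity) hκ
  have hβ1 : 1 ≤ bet p (Fintype.card L) κ T := one_le_bet h0 hN hκ0 T
  have h1 : ∑ u ∈ range t, SS p E u ≤ T * (Fintype.card L * bet p (Fintype.card L) κ T ^ T) := by
    calc ∑ u ∈ range t, SS p E u ≤ ∑ u ∈ range t, Fintype.card L * bet p (Fintype.card L) κ T ^ T := by
          refine Finset.sum_le_sum fun u hu => ?_
          have hut : u ≤ T := by have := Finset.mem_range.1 hu; omega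
          refine le_trans (SS_le h0 hE hV hκ hp hut) ?_
          exact mul_le_mul_of_nonneg_left (pow_le_pow_right₀ hβ1 hut) hN.le
      _ = t * (Fintype.card L * bet p (Fintype.card L) κ T ^ T) := by simp
      _ ≤ _ := by
          apply mul_le_mul_of_nonneg_right _ (by positivity)
          exact_mod_cast ht
  have h2 : p * ∑ u ∈ range t, SS p E u ≤ T * bet p (Fintype.card L) κ T ^ T := by
    calc p * ∑ u ∈ range t, SS p E u ≤ p * (T * (Fintype.card L * bet p (Fintype.card L) κ T ^ T)) :=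
          mul_le_mul_of_nonneg_left h1 h0
      _ = (Fintype.card L * p) * (T * bet p (Fintype.card L) κ T ^ T) := by ring
      _ ≤ 1 * (T * bet p (Fintype.card L) κ T ^ T) := by
          apply mul_le_mul_of_nonneg_right hp (by positivity)
      _ = _ := one_mul _
  linarith

lemma G_bound (h0 : 0 ≤ p) (hE : ∀ y z z', E y z → E y z' → z = z') {V : Finset L}
    (hV : ∀ y z, E y z → y ∈ V) {κ : ℝ} (hκ : (V.card : ℝ) ≤ κ) [Nonempty L]
    (hp : Fintype.card L * p ≤ 1) {T t : ℕ} (ht : t ≤ T) (z : L) :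
    G (om p E) t z ≤ 1 + T * bet p (Fintype.card L) κ T ^ T :=
  le_trans (G_le h0 hE t z) (SS_sum_le h0 hE hV hκ hp ht)

lemma SS_excess (h0 : 0 ≤ p) (hE : ∀ y z z', E y z → E y z' → z = z') {V : Finset L}
    (hV : ∀ y z, E y z → y ∈ V) {κ : ℝ} (hκ : (V.card : ℝ) ≤ κ) [Nonempty L]
    (hp : Fintype.card L * p ≤ 1) {T t : ℕ} (ht : t ≤ T) :
    SS p E t - Fintype.card L * (Fintype.card L * p) ^ t ≤
      t * (κ * (1 + T * bet p (Fintype.card L) κ T ^ T)) := by
  have hN : (0 : ℝ) < Fintype.card L := by exact_mod_cast Fintype.card_pos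
  have hκ0 : 0 ≤ κ := le_trans (by positivity) hκ
  have hβ1 : 1 ≤ bet p (Fintype.card L) κ T := one_le_bet h0 hN hκ0 T
  set N0 : ℝ := (Fintype.card L : ℝ) with hN0
  set X := 1 + T * bet p N0 κ T ^ T with hX
  have hX0 : 0 ≤ X := by positivity
  induction t with
  | zero => simp [SS, G_zero, hN0]
  | succ t ih =>
    have ih' := ih (by omega)
    have h1 := SS_succ_le h0 hE hV t
    have h2 := SS_sum_le h0 hE hV hκ hp (show t ≤ T by omega)
    have h3 : (V.card : ℝ) * (1 + p * ∑ u ∈ range t, SS p E u) ≤ κ * X := by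
      apply mul_le_mul hκ h2 _ hκ0
      have : 0 ≤ ∑ u ∈ range t, SS p E u := Finset.sum_nonneg fun u _ => SS_nonneg h0 u
      positivity
    have hp0 : 0 ≤ N0 * p := by positivity
    have h4 : N0 * p * (SS p E t - N0 * (N0 * p) ^ t) ≤ t * (κ * X) := by
      calc N0 * p * (SS p E t - N0 * (N0 * p) ^ t) ≤ N0 * p * (t * (κ * X)) :=
            mul_le_mul_of_nonneg_left ih' hp0
        _ ≤ 1 * (t * (κ * X)) := mul_le_mul_of_nonneg_right hp (by positivity)
        _ = _ := one_mul _
    have h5 : N0 * (N0 * p) ^ (t + 1) = N0 * p * (N0 * (N0 * p) ^ t) := by ring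
    rw [h5]
    push_cast
    linarith

/-- difference between the walks and the pure walks, fixed end -/
noncomputable def DD (p : ℝ) (E : L → L → Prop) [DecidableRel E] (t : ℕ) (z y : L) : ℝ :=
  Cc (om p E) t z y - Cc (ind E) t z y

lemma DD_succ_le (h0 : 0 ≤ p) (t : ℕ) (z y : L) :
    DD p E (t + 1) z y ≤ p * ∑ z', Cc (om p E) t z' y + ∑ z', ind E z z' * DD p E t z' y := by
  unfold DD
  rw [Cc_succ, Cc_succ]
  have := om_sum_le (E := E) h0 (a := fun z' => Cc (om p E) t z' y)
    (fun z' => Cc_nonneg (om_nonneg h0) t z' y) z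
  simp only [mul_sub, Finset.sum_sub_distrib]
  linarith

lemma DD_le (h0 : 0 ≤ p) (hE : ∀ y z z', E y z → E y z' → z = z') {y : L} {Γ : ℝ} (t : ℕ)
    (hΓ : ∀ u < t, ∑ z', Cc (om p E) u z' y ≤ Γ) (hΓ0 : 0 ≤ Γ) :
    ∀ z, DD p E t z y ≤ t * (p * Γ) := by
  induction t with
  | zero => intro z; simp [DD, Cc_zero]
  | succ t ih =>
    intro z
    have ih' := ih (fun u hu => hΓ u (by omega))
    refine le_trans (DD_succ_le h0 t z y) ?_
    have h1 := ind_sum_le hE (B := t * (p * Γ)) (by positivity) ih' z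
    have h2 := mul_le_mul_of_nonneg_left (hΓ t (by omega)) h0
    push_cast
    linarith

lemma DD_succ_le' (h0 : 0 ≤ p) {y z : L} (hz : ∀ z', ¬ E z z') {Γ : ℝ} (t : ℕ)
    (hΓ : ∑ z', Cc (om p E) t z' y ≤ Γ) : DD p E (t + 1) z y ≤ p * Γ := by
  refine le_trans (DD_succ_le h0 t z y) ?_
  rw [ind_sum_zero hz, add_zero]
  exact mul_le_mul_of_nonneg_left hΓ h0

end bounds

end Walk

end Pool.Agent.Helper88.TS
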