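import Pool.Agent.Helper88.TS.Bin
import Pool.Agent.Helper88.TS.Walk

/-!
Literals, two-clauses, implication edges, paths and their clause sets.
-/

set_option autoImplicit false
set_option linter.unusedSectionVars false

open Finset

namespace Pool.Agent.Helper88.TS

/-- literals -/
abbrev Lit (n : ℕ) := Fin n × Bool

/-- two-clauses -/
abbrev Cl (n : ℕ) := {c : Finset (Fin n × Bool) // c.card = 2 ∧ (c.image Prod.fst).card = 2}

lemma fpair_eq {α : Type*} [DecidableEq α] {a b c d : α} :
    ({a, b} : Finset α) = {c, d} ↔ a = c ∧ b = d ∨ a = d ∧ b = c := by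
  rw [← Finset.coe_inj, Finset.coe_pair, Finset.coe_pair, Set.pair_eq_pair_iff]

variable {n : ℕ}

/-- negation of literals -/
def neg : Lit n ≃ Lit n := (Equiv.refl _).prodCongr Equiv.boolNot

@[simp] lemma neg_fst (y : Lit n) : (neg y).1 = y.1 := rfl
@[simp] lemma neg_snd (y : Lit n) : (neg y).2 = !y.2 := rfl
@[simp] lemma neg_neg' (y : Lit n) : neg (neg y) = y := by
  ext <;> simp
lemma neg_ne (y : Lit n) : neg y ≠ y := by
  intro h
  have := congrArg Prod.snd h
  simp at this

lemma neg_eq_iff (y z : Lit n) : neg y = z ↔ y = neg z := by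
  constructor
  · rintro rfl; simp
  · rintro rfl; simp

lemma card_lit : Fintype.card (Lit n) = 2 * n := by simp [mul_comm]

lemma pair_mem {a b : Lit n} (h : a.1 ≠ b.1) :
    ({a, b} : Finset (Lit n)).card = 2 ∧ (({a, b} : Finset (Lit n)).image Prod.fst).card = 2 := by
  constructor
  · exact card_pair (fun hab => h (by rw [hab]))
  · rw [image_insert, image_singleton]
    exact card_pair h

/-- the clause of two literals of different variables -/
def mk (a b : Lit n) (h : a.1 ≠ b.1) : Cl n := ⟨{a, b}, pair_mem h⟩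

/-- implication edge -/
def Ed (S : Finset (Cl n)) (y z : Lit n) : Prop := ∃ c ∈ S, c.1 = {neg y, z}

instance (S : Finset (Cl n)) : DecidableRel (Ed S) := fun y z => by unfold Ed; infer_instance

lemma Ed_mono {S T : Finset (Cl n)} (h : S ⊆ T) {y z : Lit n} (hS : Ed S y z) : Ed T y z := by
  obtain ⟨c, hc, h2⟩ := hS
  exact ⟨c, h hc, h2⟩

lemma Ed_neg (S : Finset (Cl n)) (y z : Lit n) : Ed S (neg z) (neg y) ↔ Ed S y z := by
  unfold Ed
  simp only [neg_neg']
  constructor <;> rintro ⟨c, hc, h⟩ <;> exact ⟨c, hc, by rw [h, Finset.pair_comm]⟩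

lemma Ed_ne {S : Finset (Cl n)} {y z : Lit n} (h : Ed S y z) : y.1 ≠ z.1 := by
  obtain ⟨c, _, hc⟩ := h
  intro h2
  have := c.2.2
  rw [hc, image_insert, image_singleton, neg_fst, h2] at this
  simp at this

lemma Ed_iff_mem {S : Finset (Cl n)} {y z : Lit n} (h : (neg y).1 ≠ z.1) :
    Ed S y z ↔ mk (neg y) z h ∈ S := by
  constructor
  · rintro ⟨c, hc, h2⟩
    have : mk (neg y) z h = c := Subtype.ext h2.symm
    rwa [this]
  · intro h2
    exact ⟨_, h2, rfl⟩

/-- satisfaction -/
def Sat (a : Fin n → Bool) (S : Finset (Cl n)) : Prop := ∀ c ∈ S, ∃ l ∈ c.1, a l.1 = l.2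

lemma Sat_mono {a : Fin n → Bool} {S T : Finset (Cl n)} (h : S ⊆ T) (hT : Sat a T) : Sat a S :=
  fun c hc => hT c (h hc)

lemma Sat_edge {a : Fin n → Bool} {S : Finset (Cl n)} (h : Sat a S) {y z : Lit n} (he : Ed S y z)
    (hy : a y.1 = y.2) : a z.1 = z.2 := by
  obtain ⟨c, hc, h2⟩ := he
  obtain ⟨l, hl, hl2⟩ := h c hc
  rw [h2, mem_insert, mem_singleton] at hl
  rcases hl with rfl | rfl
  · simp [hy] at hl2
  · exact hl2

/-- pairwise different variables -/
def VI {t : ℕ} (f : Fin (t + 1) → Lit n) : Prop := Function.Injective (fun i => (f i).1)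

instance {t : ℕ} : DecidablePred (VI (n := n) (t := t)) := fun f => by unfold VI; infer_instance

lemma VI_ne {t : ℕ} {f : Fin (t + 1) → Lit n} (hf : VI f) (i : Fin t) :
    (neg (f i.castSucc)).1 ≠ (f i.succ).1 := by
  intro h
  have : i.castSucc = i.succ := hf h
  have := congrArg Fin.val this
  simp at this

/-- the clauses of a path -/
def cls {t : ℕ} (f : Fin (t + 1) → Lit n) (hf : VI f) : Finset (Cl n) :=
  univ.image (fun i : Fin t => mk (neg (f i.castSucc)) (f i.succ) (VI_ne hf i))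

lemma cls_inj {t : ℕ} {f : Fin (t + 1) → Lit n} (hf : VI f) :
    Function.Injective (fun i : Fin t => mk (neg (f i.castSucc)) (f i.succ) (VI_ne hf i)) := by
  intro i j h
  have h1 : ({neg (f i.castSucc), f i.succ} : Finset (Lit n)) = {neg (f j.castSucc), f j.succ} :=
    congrArg Subtype.val h
  rw [fpair_eq] at h1
  rcases h1 with ⟨_, h2⟩ | ⟨h1, h2⟩
  · have : i.succ = j.succ := hf (congrArg Prod.fst h2)
    exact Fin.succ_injective _ this
  · have e1 : i.castSucc = j.succ := hf (by have := congrArg Prod.fst h1; simpa using this)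
    have e2 : i.succ = j.castSucc := hf (by have := congrArg Prod.fst h2; simpa using this)
    have := congrArg Fin.val e1
    have := congrArg Fin.val e2
    simp at *
    omega

lemma card_cls {t : ℕ} {f : Fin (t + 1) → Lit n} (hf : VI f) : (cls f hf).card = t := by
  unfold cls
  rw [card_image_of_injective _ (cls_inj hf), card_univ, Fintype.card_fin]

lemma cls_subset_iff {t : ℕ} {f : Fin (t + 1) → Lit n} (hf : VI f) (S : Finset (Cl n)) :
    cls f hf ⊆ S ↔ ∀ i : Fin t, Ed S (f i.castSucc) (f i.succ) := by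
  unfold cls
  rw [image_subset_iff]
  constructor
  · intro h i
    exact (Ed_iff_mem (VI_ne hf i)).2 (h i (mem_univ _))
  · intro h i _
    exact (Ed_iff_mem (VI_ne hf i)).1 (h i)

/-- characterization of the edges of a path -/
lemma Ed_cls {t : ℕ} {f : Fin (t + 1) → Lit n} (hf : VI f) (y z : Lit n) :
    Ed (cls f hf) y z ↔ ∃ i : Fin t, (y = f i.castSucc ∧ z = f i.succ) ∨
      (y = neg (f i.succ) ∧ z = neg (f i.castSucc)) := by
  unfold Ed cls
  constructor
  · rintro ⟨c, hc, h⟩
    obtain ⟨i, _, rfl⟩ := mem_image.1 hc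
    refine ⟨i, ?_⟩
    have h1 : ({neg (f i.castSucc), f i.succ} : Finset (Lit n)) = {neg y, z} := h
    rw [fpair_eq] at h1
    rcases h1 with ⟨h1, h2⟩ | ⟨h1, h2⟩
    · left
      exact ⟨(neg.injective h1).symm, h2.symm⟩
    · right
      refine ⟨?_, h1.symm⟩
      rw [h2]; simp
  · rintro ⟨i, ⟨rfl, rfl⟩ | ⟨rfl, rfl⟩⟩
    · exact ⟨_, mem_image_of_mem _ (mem_univ i), rfl⟩
    · refine ⟨_, mem_image_of_mem _ (mem_univ i), ?_⟩
      show ({neg (f i.castSucc), f i.succ} : Finset (Lit n)) = _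
      rw [neg_neg', Finset.pair_comm]

lemma Ed_cls_unique {t : ℕ} {f : Fin (t + 1) → Lit n} (hf : VI f) (y z z' : Lit n)
    (h : Ed (cls f hf) y z) (h' : Ed (cls f hf) y z') : z = z' := by
  rw [Ed_cls] at h h'
  obtain ⟨i, ⟨h1, h2⟩ | ⟨h1, h2⟩⟩ := h <;> obtain ⟨j, ⟨h3, h4⟩ | ⟨h3, h4⟩⟩ := h'
  · have : i.castSucc = j.castSucc := hf (by show (f i.castSucc).1 = (f j.castSucc).1; rw [← h1, ← h3])
    have : i = j := Fin.castSucc_injective _ this
    rw [h2, h4, this]
  · have : i.castSucc = j.succ := hf (by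
      show (f i.castSucc).1 = (f j.succ).1
      have := congrArg Prod.fst (h1.symm.trans h3)
      simpa using this)
    rw [this] at h1
    exact absurd (h1.symm.trans h3).symm (neg_ne _)
  · have : i.succ = j.castSucc := hf (by
      show (f i.succ).1 = (f j.castSucc).1
      have := congrArg Prod.fst (h1.symm.trans h3)
      simpa using this)
    rw [this] at h1
    exact absurd (h1.symm.trans h3) (neg_ne _)
  · have : i.succ = j.succ := hf (by
      show (f i.succ).1 = (f j.succ).1
      have := congrArg Prod.fst (h1.symm.trans h3)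
      simpa using this)
    have : i = j := Fin.succ_injective _ this
    rw [h2, h4, this]

/-- the literals on the variables of a path -/
def VV {t : ℕ} (f : Fin (t + 1) → Lit n) : Finset (Lit n) := univ.image f ∪ univ.image (fun i => neg (f i))

lemma card_VV {t : ℕ} (f : Fin (t + 1) → Lit n) : (VV f).card ≤ 2 * (t + 1) := by
  unfold VV
  refine (card_union_le _ _).trans ?_
  have h1 := card_image_le (s := (univ : Finset (Fin (t + 1)))) (f := f)
  have h2 := card_image_le (s := (univ : Finset (Fin (t + 1)))) (f := fun i => neg (f i))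
  rw [card_univ, Fintype.card_fin] at h1 h2
  omega

lemma Ed_cls_VV {t : ℕ} {f : Fin (t + 1) → Lit n} (hf : VI f) (y z : Lit n)
    (h : Ed (cls f hf) y z) : y ∈ VV f := by
  rw [Ed_cls] at h
  unfold VV
  rw [mem_union, mem_image, mem_image]
  obtain ⟨i, ⟨h1, _⟩ | ⟨h1, _⟩⟩ := h
  · left; exact ⟨_, mem_univ _, h1.symm⟩
  · right; exact ⟨_, mem_univ _, h1.symm⟩

/-- powers of `p` as weights -/
lemma pow_sdiff {t : ℕ} {f : Fin (t + 1) → Lit n} (hf : VI f) (A : Finset (Cl n)) (p : ℝ) :
    p ^ (cls f hf \ A).card = W (om p (Ed A)) f := by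
  have h1 : ∏ c ∈ cls f hf, (if c ∈ A then (1 : ℝ) else p) = p ^ (cls f hf \ A).card := by
    rw [Finset.prod_ite]
    simp only [prod_const_one, one_mul, prod_const]
    congr 2
    ext c
    simp
  rw [← h1]
  unfold cls W
  rw [Finset.prod_image (fun i _ j _ h => cls_inj hf h)]
  refine Finset.prod_congr rfl fun i _ => ?_
  unfold om
  by_cases h : Ed A (f i.castSucc) (f i.succ)
  · rw [if_pos h, if_pos ((Ed_iff_mem (VI_ne hf i)).1 h)]
  · rw [if_neg h, if_neg (fun h2 => h ((Ed_iff_mem (VI_ne hf i)).2 h2))]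

lemma pow_union {t : ℕ} {f : Fin (t + 1) → Lit n} (hf : VI f) (A : Finset (Cl n)) (p : ℝ) :
    p ^ (A ∪ cls f hf).card = p ^ A.card * W (om p (Ed A)) f := by
  rw [← pow_sdiff hf A p, ← pow_add]
  congr 1
  rw [add_comm, ← Finset.card_union_of_disjoint (Finset.sdiff_disjoint), Finset.sdiff_union_self_eq_union,
    Finset.union_comm]

lemma om_symm (p : ℝ) (A : Finset (Cl n)) (y z : Lit n) :
    om p (Ed A) (neg z) (neg y) = om p (Ed A) y z := by
  unfold om
  by_cases h : Ed A y z
  · rw [if_pos h, if_pos ((Ed_neg A y z).2 h)]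
  · rw [if_neg h, if_neg (fun h2 => h ((Ed_neg A y z).1 h2))]

lemma W_ind_zero {t : ℕ} {f : Fin (t + 1) → Lit n} {A : Finset (Cl n)} {i : Fin t}
    (h : ¬ Ed A (f i.castSucc) (f i.succ)) : W (ind (Ed A)) f = 0 := by
  unfold W
  refine Finset.prod_eq_zero (mem_univ i) ?_
  unfold ind
  rw [if_neg h]

lemma W_ind_le_om {p : ℝ} (h0 : 0 ≤ p) {t : ℕ} (f : Fin (t + 1) → Lit n) (A : Finset (Cl n)) :
    W (ind (Ed A)) f ≤ W (om p (Ed A)) f := by
  unfold W
  refine Finset.prod_le_prod (fun i _ => ind_nonneg _ _) fun i _ => ?_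
  unfold ind om
  split_ifs <;> [exact le_refl _; exact h0]

lemma pow_le_W_om {p : ℝ} (h0 : 0 ≤ p) (h1 : p ≤ 1) {t : ℕ} (f : Fin (t + 1) → Lit n)
    (A : Finset (Cl n)) : p ^ t ≤ W (om p (Ed A)) f := by
  unfold W
  calc p ^ t = ∏ _i : Fin t, p := by simp
    _ ≤ _ := by
      refine Finset.prod_le_prod (fun _ _ => h0) fun i _ => ?_
      unfold om
      split_ifs <;> [exact h1; exact le_refl _]

lemma W_nonneg {K : Lit n → Lit n → ℝ} (hK : ∀ y z, 0 ≤ K y z) {t : ℕ} (f : Fin (t + 1) → Lit n) :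
    0 ≤ W K f := Finset.prod_nonneg fun i _ => hK _ _

/-- number of sequences with pairwise different variables that avoid a set of variables -/
lemma card_seq (r : ℕ) (B : Finset (Fin n)) :
    Fintype.card {g : Fin r → Lit n // Function.Injective (fun i => (g i).1) ∧ ∀ i, (g i).1 ∉ B} =
      (n - B.card).descFactorial r * 2 ^ r := by
  have e : {g : Fin r → Lit n // Function.Injective (fun i => (g i).1) ∧ ∀ i, (g i).1 ∉ B} ≃
      (Fin r ↪ {x // x ∉ B}) × (Fin r → Bool) :=
    { toFun := fun g => (⟨fun i => ⟨(g.1 i).1, g.2.2 i⟩, fun i j h => g.2.1 (congrArg Subtype.val h)⟩,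
        fun i => (g.1 i).2)
      invFun := fun q => ⟨fun i => ((q.1 i).1, q.2 i), fun i j h => q.1.injective (Subtype.ext h),
        fun i => (q.1 i).2⟩
      left_inv := fun g => rfl
      right_inv := fun q => rfl }
  rw [Fintype.card_congr e, Fintype.card_prod, Fintype.card_embedding_eq]
  simp

lemma card_seq_ge (r : ℕ) (B : Finset (Fin n)) :
    ((2 * (n - B.card + 1 - r)) ^ r : ℕ) ≤
    Fintype.card {g : Fin r → Lit n // Function.Injective (fun i => (g i).1) ∧ ∀ i, (g i).1 ∉ B} := by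
  rw [card_seq, mul_pow, mul_comm]
  exact Nat.mul_le_mul_right _ (Nat.pow_sub_le_descFactorial _ _)

end Pool.Agent.Helper88.TS
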