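import Pool.Agent.Helper88.TS.Coin

/-!
Literals with many consequences on both sides exist with positive probability.
-/

set_option autoImplicit false
set_option linter.unusedSectionVars false

open Finset

namespace Pool.Agent.Helper88.TS

variable {n : ℕ}

open scoped Classical in
/-- consequences of a literal -/
noncomputable def Im (S : Finset (Cl n)) (x : Lit n) : Finset (Lit n) :=
  univ.filter (fun y => ∀ a : Fin n → Bool, Sat a S → a x.1 = x.2 → a y.1 = y.2)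

lemma mem_Im {S : Finset (Cl n)} {x y : Lit n} :
    y ∈ Im S x ↔ ∀ a : Fin n → Bool, Sat a S → a x.1 = x.2 → a y.1 = y.2 := by
  simp [Im]

lemma path_cons {t : ℕ} {f : Fin (t + 1) → Lit n} (hf : VI f) {S : Finset (Cl n)}
    (hS : cls f hf ⊆ S) {a : Fin n → Bool} (ha : Sat a S) (i : ℕ) (hi : i < t + 1)
    (h : a (f ⟨i, hi⟩).1 = (f ⟨i, hi⟩).2) :
    ∀ j (hj : j < t + 1), i ≤ j → a (f ⟨j, hj⟩).1 = (f ⟨j, hj⟩).2 := by
  have hE := (cls_subset_iff hf S).1 hS
  intro j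
  induction j with
  | zero =>
    intro hj hij
    obtain rfl : i = 0 := by omega
    exact h
  | succ j ih =>
    intro hj hij
    rcases Nat.lt_or_ge j i with h1 | h1
    · obtain rfl : i = j + 1 := by omega
      exact h
    · have h2 := ih (by omega) h1
      exact Sat_edge ha (hE ⟨j, by omega⟩) h2

section
variable {s R : ℕ}

/-- the roots of the branches -/
def rt (P : Fin (2 * s + 1) → Lit n) (j : Fin s) : Lit n := P ⟨s + 1 + j, by omega⟩

lemma rt_inj {P : Fin (2 * s + 1) → Lit n} (hP : VI P) : Function.Injective (fun j => (rt P j).1) := by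
  intro i j h
  have := congrArg Fin.val (hP h)
  simp only at this
  exact Fin.ext (by omega)

/-- the variables of the path -/
def vs (P : Fin (2 * s + 1) → Lit n) : Finset (Fin n) := univ.image (fun i => (P i).1)

lemma card_vs (P : Fin (2 * s + 1) → Lit n) : (vs P).card ≤ 2 * s + 1 := by
  unfold vs
  refine card_image_le.trans ?_
  rw [card_univ, Fintype.card_fin]

lemma rt_mem (P : Fin (2 * s + 1) → Lit n) (j : Fin s) : (rt P j).1 ∈ vs P :=
  mem_image_of_mem _ (mem_univ _)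

lemma cls_vs {P : Fin (2 * s + 1) → Lit n} (hP : VI P) :
    ∀ c ∈ cls P hP, ∀ l ∈ c.1, l.1 ∈ vs P := by
  intro c hc l hl
  unfold cls at hc
  obtain ⟨i, _, rfl⟩ := mem_image.1 hc
  have hl2 : l ∈ ({neg (P i.castSucc), P i.succ} : Finset (Lit n)) := hl
  rw [mem_insert, mem_singleton] at hl2
  rcases hl2 with rfl | rfl
  · exact mem_image_of_mem (fun i => (P i).1) (mem_univ _)
  · exact mem_image_of_mem (fun i => (P i).1) (mem_univ _)

lemma EE_sub {P : Fin (2 * s + 1) → Lit n} (hP : VI P) {S : Finset (Cl n)} (hS : cls P hP ⊆ S) :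
    EE (rt_mem P) R S ⊆ Im S (P ⟨s, by omega⟩) := by
  intro y hy
  unfold EE at hy
  obtain ⟨a, ha, rfl⟩ := mem_image.1 hy
  have ha2 := (mem_filter.1 ha).2
  rw [mem_Im]
  intro v hv hx
  have h1 := path_cons hP hS hv s (by omega) hx (s + 1 + (a.2.1 : ℕ)) (by omega) (by omega)
  have h2 : v (path (rt P) a 0).1 = (path (rt P) a 0).2 := h1
  exact path_cons (VI_path (rt_mem P) a) ha2 hv 0 (Nat.succ_pos _) h2 ((a.1 : ℕ) + 1)
    (Nat.lt_succ_self _) (Nat.zero_le _)

lemma mu_ge {B : Finset (Fin n)} (hB : B.card ≤ 2 * s + 1) (hn : 2 * s + 1 + R ≤ n) {p : ℝ}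
    (h0 : 0 ≤ p) (hp : 2 * n * p ≤ 1) :
    s * R * (2 * ((n : ℝ) - (2 * s + 1 + R)) * p) ^ R ≤ mu n s R B p := by
  set θ := 2 * ((n : ℝ) - (2 * s + 1 + R)) * p with hθ
  have hn' : (0 : ℝ) ≤ (n : ℝ) - (2 * s + 1 + R) := by
    have : ((2 * s + 1 + R : ℕ) : ℝ) ≤ n := by exact_mod_cast hn
    push_cast at this
    linarith
  have hθ0 : 0 ≤ θ := by positivity
  have hθ1 : θ ≤ 1 := by
    have : θ ≤ 2 * n * p := by
      rw [hθ]
      apply mul_le_mul_of_nonneg_right _ h0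
      have : (0 : ℝ) ≤ 2 * s + 1 + R := by positivity
      linarith
    linarith
  unfold mu
  rw [Fintype.sum_sigma]
  have key : ∀ r : Fin R, s * θ ^ R ≤ ∑ y : Fin s × {g : Fin ((r : ℕ) + 1) → Lit n //
    Function.Injective (fun i => (g i).1) ∧ ∀ i, (g i).1 ∉ B}, p ^ ((r : ℕ) + 1) := by
    intro r
    rw [Finset.sum_const, card_univ, Fintype.card_prod, Fintype.card_fin, nsmul_eq_mul]
    push_cast
    rw [mul_assoc]
    apply mul_le_mul_of_nonneg_left _ (by positivity)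
    have h1 := card_seq_ge (n := n) ((r : ℕ) + 1) B
    have h2 : ((2 * (n - B.card + 1 - ((r : ℕ) + 1)) : ℕ) : ℝ) ^ ((r : ℕ) + 1) ≤
      (Fintype.card {g : Fin ((r : ℕ) + 1) → Lit n //
        Function.Injective (fun i => (g i).1) ∧ ∀ i, (g i).1 ∉ B} : ℝ) := by
      exact_mod_cast h1
    have h3 : 2 * ((n : ℝ) - (2 * s + 1 + R)) ≤ ((2 * (n - B.card + 1 - ((r : ℕ) + 1)) : ℕ) : ℝ) := by
      have h4 : n ≤ (n - B.card + 1 - ((r : ℕ) + 1)) + (2 * s + 1 + R) := by
        have := r.2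
        omega
      have h5 : (n : ℝ) ≤ ((n - B.card + 1 - ((r : ℕ) + 1) : ℕ) : ℝ) + (2 * s + 1 + R) := by
        exact_mod_cast h4
      push_cast at h5 ⊢
      linarith
    calc θ ^ R ≤ θ ^ ((r : ℕ) + 1) := pow_le_pow_of_le_one hθ0 hθ1 r.2
      _ = (2 * ((n : ℝ) - (2 * s + 1 + R))) ^ ((r : ℕ) + 1) * p ^ ((r : ℕ) + 1) := by
          rw [hθ, mul_pow]
      _ ≤ _ := by
          apply mul_le_mul_of_nonneg_right _ (by positivity)
          refine le_trans ?_ h2
          exact pow_le_pow_left₀ (by positivity) h3 _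
  calc s * R * θ ^ R = ∑ _r : Fin R, s * θ ^ R := by simp; ring
    _ ≤ _ := Finset.sum_le_sum fun r _ => key r

/-- one side -/
lemma plus_side {P : Fin (2 * s + 1) → Lit n} (hP : VI P) {p : ℝ} (h0 : 0 ≤ p) (h1 : p ≤ 1)
    (hn0 : 0 < n) (hp : 2 * n * p ≤ 1) {μ0 : ℝ} (hμ0 : 0 < μ0)
    (hμ : ∀ B : Finset (Fin n), B.card ≤ 2 * s + 1 → μ0 ≤ mu n s R B p) :
    Ex p (fun S => I0 (cls P hP) S * (if ((Im S (P ⟨s, by omega⟩)).card : ℝ) < μ0 / 4 then 1 else 0)) ≤
      p ^ (2 * s) * (4 * Del1 n s R p / μ0 + 4 * Del2 n s R p) := by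
  have hm := hμ (vs P) (card_vs P)
  have h2 := Ex_few (R := R) (rt_inj hP) (rt_mem P) h0 h1 hn0 hp (cls_vs hP) (lt_of_lt_of_le hμ0 hm)
  rw [card_cls] at h2
  refine le_trans (Ex_mono h0 h1 ?_) (le_trans h2 ?_)
  · intro S
    have hI := I0_nonneg (cls P hP) S
    by_cases hS : cls P hP ⊆ S
    · apply mul_le_mul_of_nonneg_left _ hI
      have h3 : ((EE (rt_mem P) R S).card : ℝ) ≤ (Im S (P ⟨s, by omega⟩)).card := by
        exact_mod_cast card_le_card (EE_sub hP hS)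
      split_ifs with h4 h5 h5
      · exact le_refl _
      · exfalso
        apply h5
        linarith
      · exact zero_le_one
      · exact le_refl _
    · have : I0 (cls P hP) S = 0 := by unfold I0; rw [if_neg hS]
      rw [this, zero_mul, zero_mul]
  · apply mul_le_mul_of_nonneg_left _ (by positivity)
    have hD : 0 ≤ 4 * Del1 n s R p := by
      have hn' : (0 : ℝ) < 2 * n := by positivity
      have := one_le_bet (p := p) h0 hn' (κ := 2 * (R + 1)) (by positivity) R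
      unfold Del1
      positivity
    have := div_le_div_of_nonneg_left hD hμ0 hm
    linarith

/-- the reversed path -/
def rv (P : Fin (2 * s + 1) → Lit n) (i : Fin (2 * s + 1)) : Lit n := neg (P i.rev)

lemma VI_rv {P : Fin (2 * s + 1) → Lit n} (hP : VI P) : VI (rv P) := by
  intro i j h
  have : i.rev = j.rev := hP h
  exact Fin.rev_injective this

lemma cls_rv {P : Fin (2 * s + 1) → Lit n} (hP : VI P) : cls (rv P) (VI_rv hP) = cls P hP := by
  apply Finset.eq_of_subset_of_card_le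
  · rw [cls_subset_iff]
    intro i
    rw [Ed_cls]
    refine ⟨i.rev, Or.inr ⟨?_, ?_⟩⟩
    · show neg (P (i.castSucc).rev) = neg (P (i.rev).succ)
      rw [Fin.rev_castSucc]
    · show neg (P (i.succ).rev) = neg (P (i.rev).castSucc)
      rw [Fin.rev_succ]
  · rw [card_cls, card_cls]

lemma rv_mid (P : Fin (2 * s + 1) → Lit n) : rv P ⟨s, by omega⟩ = neg (P ⟨s, by omega⟩) := by
  unfold rv
  congr 2
  apply Fin.ext
  rw [Fin.val_rev]
  simp only
  omega

lemma minus_side {P : Fin (2 * s + 1) → Lit n} (hP : VI P) {p : ℝ} (h0 : 0 ≤ p) (h1 : p ≤ 1)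
    (hn0 : 0 < n) (hp : 2 * n * p ≤ 1) {μ0 : ℝ} (hμ0 : 0 < μ0)
    (hμ : ∀ B : Finset (Fin n), B.card ≤ 2 * s + 1 → μ0 ≤ mu n s R B p) :
    Ex p (fun S => I0 (cls P hP) S *
      (if ((Im S (neg (P ⟨s, by omega⟩))).card : ℝ) < μ0 / 4 then 1 else 0)) ≤
      p ^ (2 * s) * (4 * Del1 n s R p / μ0 + 4 * Del2 n s R p) := by
  have h := plus_side (R := R) (VI_rv hP) h0 h1 hn0 hp hμ0 hμ
  rw [cls_rv hP, rv_mid] at h
  exact h

/-- there is a literal with many consequences on both sides -/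
def GG (h : ℝ) (S : Finset (Cl n)) : Prop :=
  ∃ x : Lit n, h ≤ ((Im S x).card : ℝ) ∧ h ≤ ((Im S (neg x)).card : ℝ)

open scoped Classical in
/-- lower bound for the probability of a literal with many consequences on both sides -/
lemma GG_prob {p : ℝ} (h0 : 0 ≤ p) (h1 : p ≤ 1)
    (hn0 : 0 < n) (hp : 2 * n * p ≤ 1) {μ0 : ℝ} (hμ0 : 0 < μ0)
    (hμ : ∀ B : Finset (Fin n), B.card ≤ 2 * s + 1 → μ0 ≤ mu n s R B p)
    (hδ : 4 * Del1 n s R p / μ0 + 4 * Del2 n s R p ≤ 1 / 4)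
    (hpos : 0 < (Fintype.card (PT n (2 * s)) : ℝ) * p ^ (2 * s)) :
    (Fintype.card (PT n (2 * s)) : ℝ) * p ^ (2 * s) ≤
      4 * (2 * n * bet p (2 * n) (2 * ((2 * s : ℕ) + 1)) (2 * s : ℕ) ^ (2 * s)) *
      Ex p (fun S : Finset (Cl n) => if GG (μ0 / 4) S then (1 : ℝ) else 0) := by
  set K : ℝ := (Fintype.card (PT n (2 * s)) : ℝ) * p ^ (2 * s) with hK
  set Q : ℝ := 2 * n * bet p (2 * n) (2 * ((2 * s : ℕ) + 1)) (2 * s : ℕ) ^ (2 * s) with hQ
  set ε := Ex p (fun S : Finset (Cl n) => if GG (μ0 / 4) S then (1 : ℝ) else 0) with hε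
  have hmid : s < 2 * s + 1 := by omega
  -- one path
  have hone : ∀ P : PT n (2 * s), p ^ (2 * s) / 2 ≤
      Ex p (fun S => I0 (cls P.1 P.2) S * (if GG (μ0 / 4) S then (1 : ℝ) else 0)) := by
    intro P
    have a1 := plus_side (R := R) P.2 h0 h1 hn0 hp hμ0 hμ
    have a2 := minus_side (R := R) P.2 h0 h1 hn0 hp hμ0 hμ
    have a3 : Ex p (fun S => I0 (cls P.1 P.2) S) = p ^ (2 * s) := by
      have := Ex_I0 p (cls P.1 P.2)
      rw [card_cls] at this
      exact this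
    have a4 : ∀ S, I0 (cls P.1 P.2) S ≤
        I0 (cls P.1 P.2) S * (if GG (μ0 / 4) S then (1 : ℝ) else 0) +
        (I0 (cls P.1 P.2) S * (if ((Im S (P.1 ⟨s, hmid⟩)).card : ℝ) < μ0 / 4 then 1 else 0) +
        I0 (cls P.1 P.2) S * (if ((Im S (neg (P.1 ⟨s, hmid⟩))).card : ℝ) < μ0 / 4 then 1 else 0)) := by
      intro S
      have hI := I0_nonneg (cls P.1 P.2) S
      rw [← mul_add, ← mul_add]
      apply le_mul_of_one_le_right hI
      by_cases c1 : ((Im S (P.1 ⟨s, hmid⟩)).card : ℝ) < μ0 / 4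
      · rw [if_pos c1]
        have e1 : (0 : ℝ) ≤ if GG (μ0 / 4) S then (1 : ℝ) else 0 := by split_ifs <;> norm_num
        have e2 : (0 : ℝ) ≤ if ((Im S (neg (P.1 ⟨s, hmid⟩))).card : ℝ) < μ0 / 4 then (1 : ℝ) else 0 := by
          split_ifs <;> norm_num
        linarith
      · by_cases c2 : ((Im S (neg (P.1 ⟨s, hmid⟩))).card : ℝ) < μ0 / 4
        · rw [if_neg c1, if_pos c2]
          have e1 : (0 : ℝ) ≤ if GG (μ0 / 4) S then (1 : ℝ) else 0 := by split_ifs <;> norm_num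
          linarith
        · have : GG (μ0 / 4) S := ⟨_, not_lt.1 c1, not_lt.1 c2⟩
          rw [if_pos this, if_neg c1, if_neg c2]
          norm_num
    have a5 := Ex_mono h0 h1 a4
    rw [Ex_add, Ex_add, a3] at a5
    have hpp : (0 : ℝ) ≤ p ^ (2 * s) := by positivity
    have a6 := mul_le_mul_of_nonneg_left hδ hpp
    linarith
  have hsum : K / 2 ≤ Ex p (fun S => NN (n := n) (2 * s) S * (if GG (μ0 / 4) S then (1 : ℝ) else 0)) := by
    have : (fun S => NN (n := n) (2 * s) S * (if GG (μ0 / 4) S then (1 : ℝ) else 0)) =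
        fun S => ∑ P : PT n (2 * s), I0 (cls P.1 P.2) S * (if GG (μ0 / 4) S then (1 : ℝ) else 0) := by
      funext S
      unfold NN
      rw [Finset.sum_mul]
      rfl
    rw [this, Ex_sum]
    calc K / 2 = ∑ _P : PT n (2 * s), p ^ (2 * s) / 2 := by
          rw [Finset.sum_const, card_univ, nsmul_eq_mul, hK]; ring
      _ ≤ _ := Finset.sum_le_sum fun P _ => hone P
  have hCS := Ex_CS h0 h1 (NN (n := n) (2 * s)) (fun S => if GG (μ0 / 4) S then (1 : ℝ) else 0)
  have hNN := Ex_NN_sq (n := n) h0 hn0 hp (2 * s)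
  have hsq : Ex p (fun S : Finset (Cl n) => (if GG (μ0 / 4) S then (1 : ℝ) else 0) ^ 2) = ε := by
    rw [hε]
    congr 1
    funext S
    split_ifs <;> norm_num
  rw [hsq] at hCS
  have hε0 : 0 ≤ ε := Ex_nonneg h0 h1 fun S => by split_ifs <;> norm_num
  have e1 : (K / 2) ^ 2 ≤ K * Q * ε := by
    calc (K / 2) ^ 2 ≤ _ := pow_le_pow_left₀ (by positivity) hsum 2
      _ ≤ _ := hCS
      _ ≤ K * Q * ε := mul_le_mul_of_nonneg_right hNN hε0
  have e2 : K * K ≤ K * (4 * Q * ε) := by nlinarith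
  exact le_of_mul_le_mul_left e2 hpos

end

end Pool.Agent.Helper88.TS
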