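import Pool.Agent.Helper88.TS.Lit

/-!
Second moment of the number of paths of a given length.
-/

set_option autoImplicit false
set_option linter.unusedSectionVars false

open Finset

namespace Pool.Agent.Helper88.TS

variable {n : ℕ}

/-- paths with `T` edges -/
abbrev PT (n T : ℕ) := {f : Fin (T + 1) → Lit n // VI f}

/-- number of the paths with `T` edges -/
noncomputable def NN (T : ℕ) (S : Finset (Cl n)) : ℝ := ∑ P : PT n T, if cls P.1 P.2 ⊆ S then (1 : ℝ) else 0

lemma NN_nonneg (T : ℕ) (S : Finset (Cl n)) : 0 ≤ NN T S :=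
  Finset.sum_nonneg fun P _ => by split_ifs <;> norm_num

lemma Ex_NN (p : ℝ) (T : ℕ) : Ex p (fun S => NN (n := n) T S) = Fintype.card (PT n T) * p ^ T := by
  unfold NN
  rw [Ex_sum]
  simp only [Ex_incl, card_cls]
  simp

lemma Ex_NN_sq {p : ℝ} (h0 : 0 ≤ p) (hn : 0 < n) (hp : 2 * n * p ≤ 1) (T : ℕ) :
    Ex p (fun S => NN (n := n) T S ^ 2) ≤
      Fintype.card (PT n T) * p ^ T * (2 * n * bet p (2 * n) (2 * (T + 1)) T ^ T) := by
  have hcard : (Fintype.card (Lit n) : ℝ) = 2 * n := by rw [card_lit]; push_cast; ring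
  have : Nonempty (Lit n) := ⟨(⟨0, hn⟩, true)⟩
  have h1 : (fun S : Finset (Cl n) => NN (n := n) T S ^ 2) =
      fun S => ∑ P : PT n T, ∑ Q : PT n T, if cls P.1 P.2 ∪ cls Q.1 Q.2 ⊆ S then (1 : ℝ) else 0 := by
    funext S
    unfold NN
    rw [sq, Finset.sum_mul_sum]
    refine Finset.sum_congr rfl fun P _ => Finset.sum_congr rfl fun Q _ => ?_
    by_cases h1 : cls P.1 P.2 ⊆ S <;> by_cases h2 : cls Q.1 Q.2 ⊆ S <;>
      simp [h1, h2, Finset.union_subset_iff]
  rw [h1, Ex_sum]
  have h2 : ∀ P : PT n T, Ex p (fun S => ∑ Q : PT n T, if cls P.1 P.2 ∪ cls Q.1 Q.2 ⊆ S then (1 : ℝ) else 0) ≤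
      p ^ T * (2 * n * bet p (2 * n) (2 * (T + 1)) T ^ T) := by
    intro P
    rw [Ex_sum]
    simp only [Ex_incl]
    have h3 : ∀ Q : PT n T, p ^ (cls P.1 P.2 ∪ cls Q.1 Q.2).card =
        p ^ T * W (om p (Ed (cls P.1 P.2))) Q.1 := by
      intro Q
      rw [pow_union, card_cls]
    rw [Finset.sum_congr rfl (fun Q _ => h3 Q), ← Finset.mul_sum]
    apply mul_le_mul_of_nonneg_left _ (by positivity)
    calc ∑ Q : PT n T, W (om p (Ed (cls P.1 P.2))) Q.1
        ≤ ∑ f : Fin (T + 1) → Lit n, W (om p (Ed (cls P.1 P.2))) f := by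
          rw [← Finset.sum_subtype (univ.filter (fun f : Fin (T + 1) → Lit n => VI f)) (by simp)
            (f := fun f => W (om p (Ed (cls P.1 P.2))) f)]
          exact Finset.sum_le_sum_of_subset_of_nonneg (Finset.subset_univ _)
            (fun f _ _ => W_nonneg (om_nonneg h0) f)
      _ = SS p (Ed (cls P.1 P.2)) T := sum_W_all _ _
      _ ≤ _ := by
          have := SS_le (p := p) (E := Ed (cls P.1 P.2)) h0 (Ed_cls_unique P.2) (V := VV P.1)
            (fun y z h => Ed_cls_VV P.2 y z h) (κ := 2 * (T + 1)) (by exact_mod_cast card_VV P.1)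
            (by rw [hcard]; exact hp) (le_refl T)
          rw [hcard] at this
          exact this
  refine le_trans (Finset.sum_le_sum fun P _ => h2 P) ?_
  simp only [Finset.sum_const, card_univ, nsmul_eq_mul]
  exact le_of_eq (by ring)

lemma card_PT_ge (T : ℕ) : ((2 * (n - T)) ^ (T + 1) : ℕ) ≤ Fintype.card (PT n T) := by
  have h := card_seq_ge (n := n) (T + 1) ∅
  have e : Fintype.card {g : Fin (T + 1) → Lit n // Function.Injective (fun i => (g i).1) ∧ ∀ i, (g i).1 ∉ (∅ : Finset (Fin n))} =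
      Fintype.card (PT n T) := by
    apply Fintype.card_congr
    exact Equiv.subtypeEquivRight (fun f => by simp [VI])
  rw [e] at h
  simp only [card_empty, Nat.sub_zero] at h
  have : n + 1 - (T + 1) = n - T := by omega
  rwa [this] at h

end Pool.Agent.Helper88.TS
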