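import Pool.Agent.Helper88.TS.Plus

/-!
Two further rounds make the formula unsatisfiable with positive probability.
-/

set_option autoImplicit false
set_option linter.unusedSectionVars false

open Finset

namespace Pool.Agent.Helper88.TS

variable {n : ℕ}

lemma pow_le_inv {q : ℝ} (q0 : 0 ≤ q) (q1 : q ≤ 1) (t : ℕ) : (1 - q) ^ t ≤ 1 / (1 + q * t) := by
  have h1 : (1 - q) ^ t * (1 + q) ^ t ≤ 1 := by
    rw [← mul_pow]
    apply pow_le_one₀
    · apply mul_nonneg <;> linarith
    · nlinarith
  have h2 : 1 + q * t ≤ (1 + q) ^ t := by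
    have := one_add_mul_le_pow (show -2 ≤ q by linarith) t
    linarith
  have h3 : 0 < 1 + q * t := by positivity
  rw [le_div_iff₀ h3]
  refine le_trans (mul_le_mul_of_nonneg_left h2 ?_) h1
  exact pow_nonneg (by linarith) _

/-- hitting probability -/
lemma hit_prob {q : ℝ} (q0 : 0 ≤ q) (q1 : q ≤ 1) (T : Finset (Cl n)) {t0 : ℝ} (ht0 : 0 ≤ t0)
    (ht : t0 ≤ T.card) :
    q * t0 / (1 + q * t0) ≤ Ex q (fun S => 1 - if Disjoint S T then (1 : ℝ) else 0) := by
  rw [Ex_sub, Ex_const, Ex_avoid]
  have h1 := pow_le_inv q0 q1 T.card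
  have h2 : 1 / (1 + q * T.card) ≤ 1 / (1 + q * t0) := by
    apply one_div_le_one_div_of_le (by positivity)
    have := mul_le_mul_of_nonneg_left ht q0
    linarith
  have h3 : q * t0 / (1 + q * t0) = 1 - 1 / (1 + q * t0) := by
    field_simp
    ring
  linarith

open scoped Classical in
/-- clauses excluded by a true literal -/
noncomputable def TT (S : Finset (Cl n)) (x : Lit n) : Finset (Cl n) :=
  univ.filter (fun c => ∀ l ∈ c.1, neg l ∈ Im S x)

lemma TT_sat {S S2 : Finset (Cl n)} {x : Lit n} (h : ¬ Disjoint S2 (TT S x)) {a : Fin n → Bool}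
    (ha : Sat a S) (ha2 : Sat a S2) : a x.1 ≠ x.2 := by
  intro hx
  obtain ⟨c, hc, hcT⟩ := Finset.not_disjoint_iff.1 h
  unfold TT at hcT
  have h1 := (mem_filter.1 hcT).2
  obtain ⟨l, hl, hl2⟩ := ha2 c hc
  have h2 := mem_Im.1 (h1 l hl) a ha hx
  rw [neg_fst, neg_snd, hl2] at h2
  simp at h2

lemma card_TT (S : Finset (Cl n)) (x : Lit n) :
    ((Im S x).card : ℝ) * ((Im S x).card - 3) / 2 ≤ (TT S x).card := by
  classical
  set J := (Im S x).image neg with hJ
  have hJc : J.card = (Im S x).card := card_image_of_injective _ neg.injective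
  have h1 : (J.powersetCard 2).card = (Im S x).card.choose 2 := by
    rw [card_powersetCard, hJc]
  have h2 : J.powersetCard 2 ⊆ (TT S x).image Subtype.val ∪ J.image (fun l => {l, neg l}) := by
    intro A hA
    rw [mem_powersetCard] at hA
    rw [mem_union]
    by_cases hA2 : (A.image Prod.fst).card = 2
    · left
      rw [mem_image]
      refine ⟨⟨A, hA.2, hA2⟩, ?_, rfl⟩
      unfold TT
      rw [mem_filter]
      refine ⟨mem_univ _, fun l hl => ?_⟩
      obtain ⟨y, hy, hyl⟩ := mem_image.1 (hA.1 hl)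
      rw [← hyl, neg_neg']
      exact hy
    · right
      obtain ⟨u, v, huv, rfl⟩ := Finset.card_eq_two.1 hA.2
      rw [mem_image]
      refine ⟨u, hA.1 (by simp), ?_⟩
      have huv1 : u.1 = v.1 := by
        by_contra hne
        exact hA2 (pair_mem hne).2
      have : v = neg u := by
        apply Prod.ext
        · exact huv1.symm
        · rw [neg_snd]
          have h3 : u.2 ≠ v.2 := fun h => huv (Prod.ext huv1 h)
          cases hu : u.2 <;> cases hv : v.2 <;> simp_all
      rw [this]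
  have h3 := card_le_card h2
  have h4 := card_union_le ((TT S x).image Subtype.val) (J.image (fun l => ({l, neg l} : Finset (Lit n))))
  have h5 : ((TT S x).image Subtype.val).card ≤ (TT S x).card := card_image_le
  have h6 : (J.image (fun l => ({l, neg l} : Finset (Lit n)))).card ≤ J.card := card_image_le
  have h7 : (Im S x).card.choose 2 ≤ (TT S x).card + (Im S x).card := by omega
  have h8 : (((Im S x).card.choose 2 : ℕ) : ℝ) = (Im S x).card * ((Im S x).card - 1) / 2 :=
    Nat.cast_choose_two ℝ _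
  have h9 : (((Im S x).card.choose 2 : ℕ) : ℝ) ≤ (TT S x).card + (Im S x).card := by exact_mod_cast h7
  rw [h8] at h9
  linarith

/-- unsatisfiable -/
def Un (S : Finset (Cl n)) : Prop := ¬ ∃ a : Fin n → Bool, Sat a S

lemma Un_mono {S T : Finset (Cl n)} (h : S ⊆ T) (hS : Un S) : Un T := by
  rintro ⟨a, ha⟩
  exact hS ⟨a, Sat_mono h ha⟩

open scoped Classical in
/-- three rounds -/
lemma three_rounds {p q : ℝ} (h0 : 0 ≤ p) (h1 : p ≤ 1) (q0 : 0 ≤ q) (q1 : q ≤ 1) {h : ℝ} (hh : 3 ≤ h) :
    (q * (h * (h - 3) / 2) / (1 + q * (h * (h - 3) / 2))) ^ 2 *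
      Ex p (fun S : Finset (Cl n) => if GG h S then (1 : ℝ) else 0) ≤
    Ex p (fun S1 : Finset (Cl n) => Ex q (fun S2 => Ex q (fun S3 =>
      if Un (S1 ∪ S2 ∪ S3) then (1 : ℝ) else 0))) := by
  set t0 := h * (h - 3) / 2 with ht0
  have ht : 0 ≤ t0 := by
    rw [ht0]
    have : 0 ≤ h - 3 := by linarith
    positivity
  set κ := q * t0 / (1 + q * t0) with hκ
  have hκ0 : 0 ≤ κ := by positivity
  rw [← Ex_mul_left]
  refine Ex_mono h0 h1 fun S1 => ?_
  split_ifs with hG
  · obtain ⟨x, hx1, hx2⟩ := hG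
    have c1 : t0 ≤ (TT S1 x).card := by
      refine le_trans ?_ (card_TT S1 x)
      rw [ht0]
      have : h * (h - 3) ≤ (Im S1 x).card * (((Im S1 x).card : ℝ) - 3) := by nlinarith
      linarith
    have c2 : t0 ≤ (TT S1 (neg x)).card := by
      refine le_trans ?_ (card_TT S1 (neg x))
      rw [ht0]
      have : h * (h - 3) ≤ (Im S1 (neg x)).card * (((Im S1 (neg x)).card : ℝ) - 3) := by nlinarith
      linarith
    have d1 := hit_prob q0 q1 (TT S1 x) ht c1
    have d2 := hit_prob q0 q1 (TT S1 (neg x)) ht c2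
    have key : ∀ S2 S3 : Finset (Cl n), (1 - if Disjoint S2 (TT S1 x) then (1 : ℝ) else 0) *
        (1 - if Disjoint S3 (TT S1 (neg x)) then (1 : ℝ) else 0) ≤
        if Un (S1 ∪ S2 ∪ S3) then (1 : ℝ) else 0 := by
      intro S2 S3
      by_cases e1 : Disjoint S2 (TT S1 x)
      · rw [if_pos e1, sub_self, zero_mul]
        split_ifs <;> norm_num
      · by_cases e2 : Disjoint S3 (TT S1 (neg x))
        · rw [if_pos e2, sub_self, mul_zero]
          split_ifs <;> norm_num
        · have : Un (S1 ∪ S2 ∪ S3) := by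
            rintro ⟨a, ha⟩
            have s1 : Sat a S1 := Sat_mono (fun c hc => by simp [hc]) ha
            have s2 : Sat a S2 := Sat_mono (fun c hc => by simp [hc]) ha
            have s3 : Sat a S3 := Sat_mono (fun c hc => by simp [hc]) ha
            have f1 := TT_sat e1 s1 s2
            have f2 := TT_sat e2 s1 s3
            rw [neg_fst, neg_snd] at f2
            cases hx : x.2 <;> cases hax : a x.1 <;> simp_all
          rw [if_pos this, if_neg e1, if_neg e2]
          norm_num
    have f1 : ∀ S2 : Finset (Cl n), (1 - if Disjoint S2 (TT S1 x) then (1 : ℝ) else 0) * κ ≤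
        Ex q (fun S3 => if Un (S1 ∪ S2 ∪ S3) then (1 : ℝ) else 0) := by
      intro S2
      refine le_trans ?_ (Ex_mono q0 q1 (key S2))
      rw [Ex_mul_left]
      apply mul_le_mul_of_nonneg_left d2
      split_ifs <;> norm_num
    refine le_trans ?_ (Ex_mono q0 q1 f1)
    have e : (fun S2 : Finset (Cl n) => (1 - if Disjoint S2 (TT S1 x) then (1 : ℝ) else 0) * κ) =
        fun S2 => κ * (1 - if Disjoint S2 (TT S1 x) then (1 : ℝ) else 0) := by
      funext S2; ring
    rw [e, Ex_mul_left, mul_one, sq]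
    exact mul_le_mul_of_nonneg_left d1 hκ0
  · rw [mul_zero]
    exact Ex_nonneg q0 q1 fun S2 => Ex_nonneg q0 q1 fun S3 => by split_ifs <;> norm_num

end Pool.Agent.Helper88.TS
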