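import Pool.Agent.Helper88.TS.Lit
import Pool.Agent.Helper88.TS.Dig

/-!
Uniquely satisfiable subformulas contain one of two kinds of configurations.
-/

set_option autoImplicit false
set_option linter.unusedSectionVars false

open Finset

namespace Pool.Agent.Helper88.TS

variable {n : ℕ}

/-- contains a nonempty uniquely satisfiable subformula -/
def UQ (S : Finset (Cl n)) : Prop :=
  ∃ H : Finset (Cl n), H ⊆ S ∧ H.Nonempty ∧ ∃ a : Fin n → Bool, Sat a H ∧
    ∀ b : Fin n → Bool, Sat b H → ∀ i : Fin n, (∃ c ∈ H, ∃ l ∈ c.1, l.1 = i) → b i = a i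

lemma UQ_mono {S T : Finset (Cl n)} (h : S ⊆ T) (hS : UQ S) : UQ T := by
  obtain ⟨H, h1, h2⟩ := hS
  exact ⟨H, h1.trans h, h2⟩

/-- edges between true literals -/
def Et (S : Finset (Cl n)) (a : Fin n → Bool) (w u : Fin n) : Prop := Ed S (w, a w) (u, a u)

lemma bne1 : ∀ x y : Bool, x ≠ y → y = !x := by decide
lemma bne2 : ∀ x y : Bool, (!x) ≠ y → x = y := by decide

/-- a uniquely satisfiable formula has a positive clause on mutually reachable variables -/
lemma UQ_pair {S : Finset (Cl n)} (hS : UQ S) : ∃ (a : Fin n → Bool) (u w : Fin n), u ≠ w ∧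
    Relation.ReflTransGen (Et S a) u w ∧ Relation.ReflTransGen (Et S a) w u ∧
    ∃ c ∈ S, c.1 = {(u, a u), (w, a w)} := by
  classical
  obtain ⟨H, hHS, ⟨c0, hc0⟩, a, ha, huniq⟩ := hS
  set occ : Finset (Fin n) := univ.filter (fun i => ∃ c ∈ H, ∃ l ∈ c.1, l.1 = i) with hocc
  have hoccne : occ.Nonempty := by
    obtain ⟨l, hl, _⟩ := ha c0 hc0
    exact ⟨l.1, by rw [hocc, mem_filter]; exact ⟨mem_univ _, c0, hc0, l, hl, rfl⟩⟩
  set Anc : Fin n → Finset (Fin n) := fun i => univ.filter (fun w => Relation.ReflTransGen (Et H a) w i)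
    with hAnc
  obtain ⟨i, hi, hmin⟩ := Finset.exists_min_image occ (fun i => (Anc i).card) hoccne
  have hEocc : ∀ w u, Et H a w u → w ∈ occ := by
    intro w u h
    obtain ⟨c, hc, h2⟩ := h
    rw [hocc, mem_filter]
    refine ⟨mem_univ _, c, hc, neg (w, a w), ?_, rfl⟩
    rw [h2]; simp
  have hAnc_occ : ∀ w ∈ Anc i, w ∈ occ := by
    intro w hw
    rw [hAnc, mem_filter] at hw
    rcases Relation.ReflTransGen.cases_head hw.2 with h | ⟨v, hv, _⟩
    · rw [h]; exact hi
    · exact hEocc w v hv
  have hAnc_eq : ∀ u ∈ Anc i, Anc u = Anc i := by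
    intro u hu
    have h1 : Anc u ⊆ Anc i := by
      intro w hw
      rw [hAnc, mem_filter] at hw hu ⊢
      exact ⟨mem_univ _, hw.2.trans hu.2⟩
    exact Finset.eq_of_subset_of_card_le h1 (hmin u (hAnc_occ u hu))
  -- flip
  set b : Fin n → Bool := fun v => if v ∈ Anc i then !(a v) else a v with hb
  have hii : i ∈ Anc i := by
    rw [hAnc, mem_filter]
    exact ⟨mem_univ _, Relation.ReflTransGen.refl⟩
  have hbn : ¬ Sat b H := by
    intro hsat
    have h1 := huniq b hsat i (by
      have := hi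
      rw [hocc, mem_filter] at this
      exact this.2)
    rw [hb] at h1
    simp [hii] at h1
  unfold Sat at hbn
  push Not at hbn
  obtain ⟨c, hc, hcb⟩ := hbn
  obtain ⟨l, hl, hla⟩ := ha c hc
  have hlX : l.1 ∈ Anc i := by
    by_contra hn
    apply hcb l hl
    rw [hb]
    simp only [if_neg hn]
    exact hla
  obtain ⟨l1, l2, hl12, hcl⟩ := Finset.card_eq_two.1 c.2.1
  have hvar : l1.1 ≠ l2.1 := by
    intro h
    have h3 := c.2.2
    rw [hcl, image_insert, image_singleton, h] at h3
    simp at h3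
  -- the other literal
  obtain ⟨l', hcl'⟩ : ∃ l', c.1 = {l, l'} := by
    rw [hcl, mem_insert, mem_singleton] at hl
    rcases hl with rfl | rfl
    · exact ⟨l2, hcl⟩
    · exact ⟨l1, by rw [hcl, Finset.pair_comm]⟩
  have hvar' : l.1 ≠ l'.1 := by
    intro h
    have h3 := c.2.2
    rw [hcl', image_insert, image_singleton, h] at h3
    simp at h3
  have hl' : l' ∈ c.1 := by rw [hcl']; simp
  have hl_eq : l = (l.1, a l.1) := Prod.ext rfl hla.symm
  have hl'X : l'.1 ∈ Anc i := by
    by_contra hn
    have h4 := hcb l' hl'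
    rw [hb] at h4
    simp only [if_neg hn] at h4
    have h5 : l' = neg (l'.1, a l'.1) := by
      apply Prod.ext
      · rfl
      · rw [neg_snd]
        exact bne1 _ _ h4
    have h6 : Et H a l'.1 l.1 := by
      refine ⟨c, hc, ?_⟩
      rw [← h5, ← hl_eq, hcl', Finset.pair_comm]
    apply hn
    rw [hAnc, mem_filter] at hlX ⊢
    exact ⟨mem_univ _, Relation.ReflTransGen.head h6 hlX.2⟩
  have hl'a : a l'.1 = l'.2 := by
    have h4 := hcb l' hl'
    rw [hb] at h4
    simp only [if_pos hl'X] at h4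
    exact bne2 _ _ h4
  have hl'_eq : l' = (l'.1, a l'.1) := Prod.ext rfl hl'a.symm
  have r1 : Relation.ReflTransGen (Et H a) l.1 l'.1 := by
    have := hlX
    rw [← hAnc_eq l'.1 hl'X, hAnc, mem_filter] at this
    exact this.2
  have r2 : Relation.ReflTransGen (Et H a) l'.1 l.1 := by
    have := hl'X
    rw [← hAnc_eq l.1 hlX, hAnc, mem_filter] at this
    exact this.2
  have hmono : ∀ u v, Et H a u v → Et S a u v := fun u v h => Ed_mono hHS h
  refine ⟨a, l.1, l'.1, hvar', Relation.ReflTransGen.mono hmono _ _ r1,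
    Relation.ReflTransGen.mono hmono _ _ r2, c, hHS hc, ?_⟩
  rw [← hl_eq, ← hl'_eq, hcl']

/-- clauses of a configuration -/
def KK {v : ℕ} (g : Fin v → Lit n) (A : Finset (Fin v × Fin v)) (c : Fin v × Fin v) :
    Finset (Cl n) :=
  univ.filter (fun d => (∃ e ∈ A, d.1 = {neg (g e.1), g e.2}) ∨ d.1 = {g c.1, g c.2})

lemma KK_sub {v : ℕ} {g : Fin v → Lit n} {A : Finset (Fin v × Fin v)} {c : Fin v × Fin v}
    {S : Finset (Cl n)} (h1 : ∀ e ∈ A, Ed S (g e.1) (g e.2)) (h2 : ∃ d ∈ S, d.1 = {g c.1, g c.2}) :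
    KK g A c ⊆ S := by
  intro d hd
  unfold KK at hd
  rcases (mem_filter.1 hd).2 with ⟨e, he, h3⟩ | h3
  · obtain ⟨d', hd', h4⟩ := h1 e he
    have : d = d' := Subtype.ext (h3.trans h4.symm)
    rw [this]; exact hd'
  · obtain ⟨d', hd', h4⟩ := h2
    have : d = d' := Subtype.ext (h3.trans h4.symm)
    rw [this]; exact hd'

lemma card_KK {v : ℕ} {g : Fin v → Lit n} (hg : Function.Injective (fun i => (g i).1))
    {A : Finset (Fin v × Fin v)} (hA : ∀ e ∈ A, e.1 ≠ e.2) {c : Fin v × Fin v} (hc : c.1 ≠ c.2) :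
    A.card + 1 ≤ (KK g A c).card := by
  classical
  have hcv : (g c.1).1 ≠ (g c.2).1 := fun h => hc (hg h)
  set φ : Fin v × Fin v → Cl n := fun e =>
    if h : (neg (g e.1)).1 ≠ (g e.2).1 then mk (neg (g e.1)) (g e.2) h else mk (g c.1) (g c.2) hcv with hφ
  have hφA : ∀ e ∈ A, (φ e).1 = {neg (g e.1), g e.2} := by
    intro e he
    have h : (neg (g e.1)).1 ≠ (g e.2).1 := fun h => hA e he (hg h)
    rw [hφ]
    beta_reduce
    rw [dif_pos h]
    rfl
  have hinj : Set.InjOn φ A := by
    intro e he e' he' h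
    have h1 : ({neg (g e.1), g e.2} : Finset (Lit n)) = {neg (g e'.1), g e'.2} := by
      rw [← hφA e he, ← hφA e' he', h]
    rw [fpair_eq] at h1
    rcases h1 with ⟨h1, h2⟩ | ⟨h1, h2⟩
    · apply Prod.ext
      · exact hg (congrArg Prod.fst (neg.injective h1))
      · exact hg (congrArg Prod.fst h2)
    · exfalso
      have e1 : e.1 = e'.2 := hg (by have := congrArg Prod.fst h1; simpa using this)
      rw [e1] at h1
      exact neg_ne _ h1
  have hnot : mk (g c.1) (g c.2) hcv ∉ A.image φ := by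
    intro h
    obtain ⟨e, he, h2⟩ := mem_image.1 h
    have h1 : ({neg (g e.1), g e.2} : Finset (Lit n)) = {g c.1, g c.2} := by
      rw [← hφA e he, h2]
      rfl
    rw [fpair_eq] at h1
    rcases h1 with ⟨h1, _⟩ | ⟨h1, _⟩
    · have e1 : e.1 = c.1 := hg (by have := congrArg Prod.fst h1; simpa using this)
      rw [e1] at h1
      exact neg_ne _ h1
    · have e1 : e.1 = c.2 := hg (by have := congrArg Prod.fst h1; simpa using this)
      rw [e1] at h1
      exact neg_ne _ h1
  calc A.card + 1 = (insert (mk (g c.1) (g c.2) hcv) (A.image φ)).card := by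
        rw [card_insert_of_notMem hnot, card_image_of_injOn hinj]
    _ ≤ _ := by
        apply card_le_card
        intro d hd
        unfold KK
        rw [mem_filter]
        refine ⟨mem_univ _, ?_⟩
        rcases mem_insert.1 hd with rfl | hd
        · right; rfl
        · left
          obtain ⟨e, he, rfl⟩ := mem_image.1 hd
          exact ⟨e, he, hφA e he⟩

/-- predecessor in a cycle -/
def prA (v : ℕ) (h : Fin v) : Fin v :=
  if (h : ℕ) = 0 then ⟨v - 1, by have := h.2; omega⟩ else ⟨h - 1, by have := h.2; omega⟩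

/-- predecessor in the second kind of configuration -/
def prB (v : ℕ) (b k h : Fin v) : Fin v :=
  if (h : ℕ) = 0 then (if (b : ℕ) + 1 < v then ⟨v - 1, by have := h.2; omega⟩ else k)
  else if (h : ℕ) = b + 1 then k else ⟨h - 1, by have := h.2; omega⟩

/-- edges of a cycle -/
def AA (v : ℕ) : Finset (Fin v × Fin v) := univ.image (fun h => (prA v h, h))

/-- edges of the second kind of configuration -/
def AB (v : ℕ) (b k j : Fin v) : Finset (Fin v × Fin v) :=
  insert (b, j) (univ.image (fun h => (prB v b k h, h)))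

lemma card_AA (v : ℕ) : (AA v).card = v := by
  unfold AA
  rw [card_image_of_injective, card_univ, Fintype.card_fin]
  intro h h' hh
  exact congrArg Prod.snd hh

lemma AA_ne {v : ℕ} (hv : 2 ≤ v) : ∀ e ∈ AA v, e.1 ≠ e.2 := by
  intro e he
  unfold AA at he
  obtain ⟨h, _, rfl⟩ := mem_image.1 he
  intro hh
  have h2 := congrArg Fin.val hh
  simp only [prA] at h2
  split_ifs at h2 with h3
  · simp only at h2; omega
  · simp only at h2; omega

lemma card_AB {v : ℕ} {b k j : Fin v} (hj : 1 ≤ (j : ℕ)) (hjb : (j : ℕ) < b) :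
    (AB v b k j).card = v + 1 := by
  unfold AB
  rw [card_insert_of_notMem, card_image_of_injective, card_univ, Fintype.card_fin]
  · intro h h' hh
    exact congrArg Prod.snd hh
  · intro h
    obtain ⟨h1, _, h2⟩ := mem_image.1 h
    have h3 : h1 = j := congrArg Prod.snd h2
    subst h3
    have h4 := congrArg Fin.val (congrArg Prod.fst h2)
    simp only [prB] at h4
    rw [if_neg (by omega), if_neg (by omega)] at h4
    simp only at h4
    omega

lemma AB_ne {v : ℕ} {b k j : Fin v} (hjb : (j : ℕ) < b) (hk : 1 ≤ (k : ℕ))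
    (hkb : (k : ℕ) < b) : ∀ e ∈ AB v b k j, e.1 ≠ e.2 := by
  intro e he hh
  unfold AB at he
  have hb2 := b.2
  rcases mem_insert.1 he with rfl | he
  · have h2 : (b : ℕ) = j := congrArg Fin.val hh
    omega
  · obtain ⟨h, _, rfl⟩ := mem_image.1 he
    have h2 : ((prB v b k h : Fin v) : ℕ) = h := congrArg Fin.val hh
    unfold prB at h2
    split_ifs at h2 with h3 h4 h5
    · simp only at h2; omega
    · omega
    · omega
    · simp only at h2; omega

/-- first kind of configuration present -/
def CA (S : Finset (Cl n)) : Prop :=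
  ∃ (v : Fin (n + 1)) (g : Fin v → Lit n) (a z : Fin v), 2 ≤ (v : ℕ) ∧ (z : ℕ) = 0 ∧ 1 ≤ (a : ℕ) ∧
    Function.Injective (fun i => (g i).1) ∧ KK g (AA v) (z, a) ⊆ S

/-- second kind of configuration present -/
def CB (S : Finset (Cl n)) : Prop :=
  ∃ (v : Fin (n + 1)) (g : Fin v → Lit n) (a b k j z : Fin v), (z : ℕ) = 0 ∧ 1 ≤ (a : ℕ) ∧
    1 ≤ (k : ℕ) ∧ (k : ℕ) < b ∧ 1 ≤ (j : ℕ) ∧ (j : ℕ) < b ∧
    Function.Injective (fun i => (g i).1) ∧ KK g (AB v b k j) (z, a) ⊆ S

lemma In_le {v : ℕ} {f : ℕ → Fin n} (h : In v f) : v ≤ n := by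
  have : Function.Injective (fun i : Fin v => f i) := fun i j hij => Fin.ext (h i j i.2 j.2 hij)
  have := Fintype.card_le_of_injective _ this
  simpa using this

theorem UQ_config {S : Finset (Cl n)} (hS : UQ S) : CA S ∨ CB S := by
  obtain ⟨α, u, w, huw, h1, h2, c, hc, hcl⟩ := UQ_pair hS
  rcases structure_thm huw h1 h2 with ⟨f, v, a, f0, fa, hT⟩ | ⟨f, v, a, b, k, j, f0, fa, hT⟩
  · left
    obtain ⟨ha, hav, hI, hE, hl⟩ := hT
    refine ⟨⟨v, by have := In_le hI; omega⟩, fun i => (f i, α (f i)), ⟨a, hav⟩,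
      ⟨0, by show 0 < v; omega⟩, by show 2 ≤ v; omega, rfl, ha, ?_, ?_⟩
    · intro i j hij
      exact Fin.ext (hI i j i.2 j.2 hij)
    · apply KK_sub
      · intro e he
        unfold AA at he
        obtain ⟨h, _, rfl⟩ := mem_image.1 he
        have hh : (h : ℕ) < v := h.2
        show Et S α (f (prA v h : Fin v)) (f h)
        unfold prA
        split_ifs with h3
        · rw [h3]; exact hl
        · have := hE ((h : ℕ) - 1) (by omega)
          have e1 : (h : ℕ) - 1 + 1 = h := by omega
          rw [e1] at this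
          exact this
      · exact ⟨c, hc, by rw [hcl]; show _ = ({(f 0, α (f 0)), (f a, α (f a))} : Finset (Lit n)); rw [f0, fa]⟩
  · right
    obtain ⟨ha, hab, hbv, hk, hkb, hj, hjb, hI, hE1, hE2, hE3, hE4, hE5⟩ := hT
    refine ⟨⟨v, by have := In_le hI; omega⟩, fun i => (f i, α (f i)), ⟨a, by show a < v; omega⟩,
      ⟨b, hbv⟩, ⟨k, by show k < v; omega⟩, ⟨j, by show j < v; omega⟩, ⟨0, by show 0 < v; omega⟩,
      rfl, ha, hk, hkb, hj, hjb, ?_, ?_⟩
    · intro i j hij
      exact Fin.ext (hI i j i.2 j.2 hij)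
    · apply KK_sub
      · intro e he
        unfold AB at he
        rcases mem_insert.1 he with rfl | he
        · exact hE2
        · obtain ⟨h, _, rfl⟩ := mem_image.1 he
          have hh : (h : ℕ) < v := h.2
          show Et S α (f (prB v _ _ h : Fin v)) (f h)
          unfold prB
          split_ifs with h3 h4 h5
          · rw [h3]
            simp only at h4
            rw [if_pos h4] at hE5
            exact hE5
          · rw [h3]
            simp only at h4
            rw [if_neg h4] at hE5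
            exact hE5
          · simp only at h5
            rw [h5]
            exact hE4 (by omega)
          · simp only at h5
            show Et S α (f ((h : ℕ) - 1)) (f h)
            rcases Nat.lt_or_ge b h with h6 | h6
            · have := hE3 ((h : ℕ) - 1) (by omega) (by omega)
              have e1 : (h : ℕ) - 1 + 1 = h := by omega
              rw [e1] at this
              exact this
            · have := hE1 ((h : ℕ) - 1) (by omega)
              have e1 : (h : ℕ) - 1 + 1 = h := by omega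
              rw [e1] at this
              exact this
      · exact ⟨c, hc, by rw [hcl]; show _ = ({(f 0, α (f 0)), (f a, α (f a))} : Finset (Lit n)); rw [f0, fa]⟩

end Pool.Agent.Helper88.TS
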